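import Pool.Agent.Lib.MP_2b5695_lc.LvTree

/-!
Graded restrictions: the visible part, the decision process with deletions.
-/

namespace Pool.Agent.Lib.MP_2b5695_lc.Gv

open Function

section

variable {V U : Type} [DecidableEq V] [DecidableEq U] {K : ℕ}

/-- the part of `ρ` that is visible at `m`: the forced representatives with a large label -/
def vp (m : ℕ) (ρ : V → St U K) : V → Option (U × Fin (4 * K)) := fun v =>
  match ρ v with
  | .inr (.inl (r, l)) => if 4 * K ≤ l.val * m then some (r, l) else none
  | _ => none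

/-- the state `forced at r with label l` -/
def frc (hK : 0 < K) (r : U) (l : ℕ) : St U K :=
  .inr (.inl (r, ⟨l % (4 * K), Nat.mod_lt _ (by omega)⟩))

/-- the state `dead with label l` -/
def ded (hK : 0 < K) (l : ℕ) : St U K := .inr (.inr ⟨l % K, Nat.mod_lt _ hK⟩)

/-- the state in which the representative `r` gets the value `b`, with label `l` -/
def sgn (hK : 0 < K) (b : Bool) (r : U) (l : ℕ) : St U K := if b then ded hK l else frc hK r l

open Classical in
/-- the first entry of a list of valued terms that is not falsified -/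
noncomputable def fstV (L : List (Term (V × U) × ℕ)) (ρ : V → St U K) :
    Option (Term (V × U) × ℕ) :=
  L.find? fun p => decide (NonFals ρ p.1)

/-- there is a path of length `k` of the decision process with deletions: the current term is
read (its free representatives get values); if it contains no free representative any more, the
first term `T'` that is not falsified is taken; if `T'` has no free representative, one of the
representatives forced in `T'` whose label is hard (`l * r₂ < 4 * K`) is deleted -/
def BadD (hK : 0 < K) (r₂ : ℕ) (L : List (Term (V × U) × ℕ)) :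
    ℕ → Term (V × U) → (V → St U K) → Prop
  | 0, _, _ => True
  | k + 1, T, ρ => ∃ (T' : Term (V × U)) (x : V × U), x ∈ T'.l ∧
      (((((∃ c, fstV L ρ = some (T', c)) ∧ NoLive ρ T) ∨ T' = T) ∧ ρ x.1 = .inl x.2 ∧
          ∃ π : Bool, BadD hK r₂ L k T' (update ρ x.1 (sgn hK (!π) x.2 0))) ∨
       ((∃ c, fstV L ρ = some (T', c)) ∧ NoLive ρ T ∧ NoLive ρ T' ∧
          (∃ l : Fin (4 * K), ρ x.1 = .inr (.inl (x.2, l)) ∧ l.val * r₂ < 4 * K) ∧
          BadD hK r₂ L k T' (update ρ x.1 (ded hK 0))))

/-- chains of worlds: `J₁ ⊆ J₂ ⊆ …` such that the best value of the terms consistent with `J_t`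
is smaller than the value of a term consistent with the real world `α`, whose real elements
belong to `J_(t+1)` -/
def Ch (L : List (Term (V × U) × ℕ)) (α : V × U → Bool) (Vis : Set (V × U)) :
    ℕ → Set (V × U) → Prop
  | 0, _ => True
  | a + 1, J => ∃ J₀ : Set (V × U), J₀ ⊆ J ∧ Vis ⊆ J₀ ∧ Ch L α Vis a J₀ ∧ ∃ F : ℕ,
      (∀ p ∈ L, (∀ c ∈ p.1.l, p.1.a c = false ↔ c ∈ J₀) → p.2 ≤ F) ∧
      ∃ p ∈ L, (∀ c ∈ p.1.l, p.1.a c = α c) ∧ (∀ c ∈ p.1.l, α c = false → c ∈ J) ∧ F < p.2

end

end Pool.Agent.Lib.MP_2b5695_lc.Gv
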