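import Pool.Agent.Lib.MP_2b5695_lc.Gv.World

/-!
The brain at lengths below `m` depends only on the cells visible at `r < m`.
-/

namespace Pool.Agent.Lib.MP_2b5695_lc.Gv

variable {par : ℕ → SP} {cc : ℕ → ℕ}

private theorem BC_tMain {V V' : ℕ → Set (Gam par)} {j : ℕ} {x u : List Bool}
    (h : V (tN cc j x u) = V' (tN cc j x u)) (X : Set (List Bool)) :
    tMain par cc V j x u X = tMain par cc V' j x u X := by
  unfold tMain
  rw [h]

private theorem BC_drive {V V' : ℕ → Set (Gam par)} {m : ℕ} (h : ∀ r < m, V r = V' r)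
    (X : Set (List Bool)) {w : List Bool} (hw : w.length < m)
    (hm : driveFun (tN cc) (tMain par cc V) X w) :
    driveFun (tN cc) (tMain par cc V') X w := by
  obtain ⟨k, j, x, u, resp, h1, h2, h3⟩ := hm
  refine ⟨k, j, x, u, resp, h1, h2, ?_⟩
  rw [← h3]
  refine wait_walk _ _ fun hh => ?_
  have hlen : resp.length ≤ w.length := by
    rw [h1]
    simp [Tr]
    omega
  exact (BC_tMain (h _ (by omega)) _).symm

theorem brV_congr {V V' : ℕ → Set (Gam par)} {m : ℕ} (h : ∀ r < m, V r = V' r) :
    cut m (brV par cc V) = cut m (brV par cc V') := by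
  have key : ∀ n, ∀ w : List Bool, w.length = n → n < m →
      (w ∈ brV par cc V ↔ w ∈ brV par cc V') := by
    intro n
    induction n using Nat.strong_induction_on with
    | _ n ih =>
      intro w hw hn
      have hc : cut w.length (brV par cc V) = cut w.length (brV par cc V') := by
        ext z
        simp only [cut, Set.mem_ofPred_eq]
        constructor
        · rintro ⟨hz1, hz2⟩
          exact ⟨(ih z.length (by omega) z rfl (by omega)).1 hz1, hz2⟩
        · rintro ⟨hz1, hz2⟩
          exact ⟨(ih z.length (by omega) z rfl (by omega)).2 hz1, hz2⟩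
      unfold brV brain at hc ⊢
      rw [mem_fixSet, mem_fixSet, hc]
      exact ⟨BC_drive h _ (by omega), BC_drive (fun r hr => (h r hr).symm) _ (by omega)⟩
  ext w
  simp only [cut, Set.mem_ofPred_eq]
  constructor
  · rintro ⟨h1, h2⟩
    exact ⟨(key _ w rfl h2).1 h1, h2⟩
  · rintro ⟨h1, h2⟩
    exact ⟨(key _ w rfl h2).2 h1, h2⟩

end Pool.Agent.Lib.MP_2b5695_lc.Gv
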