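import Pool.Agent.Lib.MP_2b5695_lc.Gv.Events
import Pool.Agent.Lib.MP_2b5695_lc.LvKWorld

/-!
Words and cells; the problems defined by the oracle.
-/

namespace Pool.Agent.Lib.MP_2b5695_lc.Gv

variable {par : ℕ → SP} {cc : ℕ → ℕ}

theorem cel_n_strictMono (hp : ParOK par cc) : StrictMono fun s => (par s).n :=
  strictMono_nat_of_lt_succ fun s => lt_of_lt_of_le (hp.nL s) (hp.Ln s)

theorem isCell_unique (hp : ParOK par cc) {c c' : Gam par} {v : List Bool}
    (h : IsCell par c v) (h' : IsCell par c' v) : c = c' := by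
  obtain ⟨s, b⟩ := c
  obtain ⟨s', b'⟩ := c'
  obtain ⟨y, us, hus, hy, hy', hv, hb⟩ := h
  obtain ⟨y', us', hus', hy1, hy2, hv', hb'⟩ := h'
  dsimp only at hus hy' hv hb hus' hy2 hv' hb'
  obtain ⟨h1, h2⟩ := codeW_inj (by simp [hus]) (by simp [hus']) (hv.symm.trans hv')
  simp only [List.cons.injEq] at h2
  obtain ⟨h3, h4, h5⟩ := h2
  have h6 : (par s).n = (par s').n := Nat.pow_right_injective (le_refl 2) (bits_inj h3)
  have h7 : s = s' := (cel_n_strictMono hp).injective h6
  subst h7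
  have h8 : y = y' := bits_inj h4
  subst h8 h5
  rw [hb, hb']

theorem cellW_eq (hp : ParOK par cc) {c : Gam par} {v : List Bool} :
    cellW par v = some c ↔ IsCell par c v := by
  classical
  unfold cellW
  constructor
  · intro h
    split_ifs at h with hex
    have h1 := hex.choose_spec
    rw [Option.some.injEq] at h
    rw [h] at h1
    exact h1
  · intro h
    have hex : ∃ c : Gam par, IsCell par c v := ⟨c, h⟩
    rw [dif_pos hex, Option.some.injEq]
    exact isCell_unique hp hex.choose_spec h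

theorem cell_length {c : Gam par} {v : List Bool} (h : IsCell par c v) :
    (par c.1).n < v.length := by
  obtain ⟨y, us, hus, hy, hy', hv, hb⟩ := h
  have h1 : (Nat.bits (2 ^ (par c.1).n)).length <
      (codeW ((par c.1).k + 1) (Nat.bits (2 ^ (par c.1).n) :: Nat.bits y :: us)).length :=
    codeW_length
  rw [bits_two_pow, ← hv] at h1
  omega

theorem cel_mem_wd_congr {E E' : Set (List Bool)} {v : List Bool} (h : v ∈ E ↔ v ∈ E') :
    v ∈ wd E ↔ v ∈ wd E' := by
  unfold wd
  simp only [Set.mem_setOf_eq, h]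

theorem fp_eq (hp : ParOK par cc) (J : Set (Gam par)) :
    (HW par).fp J = wd {v | ∀ c, cellW par v = some c → c ∉ J} := by
  ext v
  unfold Hid.fp HW
  dsimp only
  rw [Set.mem_setOf_eq]
  cases hc : cellW par v with
  | none =>
    have h1 : v ∈ {v | ∀ c, cellW par v = some c → c ∉ J} := by
      intro c h
      rw [hc] at h
      cases h
    rw [cel_mem_wd_congr (E := {v | ∀ c, cellW par v = some c → c ∉ J}) (E' := Set.univ)
      ⟨fun _ => trivial, fun _ => h1⟩]
    simp
  | some c =>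
    obtain ⟨y, us, hus, hy, hy', hv, hb⟩ := (cellW_eq hp).1 hc
    have h1 : v ∈ wd {v | ∀ c, cellW par v = some c → c ∉ J} ↔ c ∉ J := by
      have h2 := mem_wd (E := {v | ∀ c, cellW par v = some c → c ∉ J}) (x := 2 ^ (par c.1).n)
        (y := y) (us := us)
      rw [hus, ← hv] at h2
      rw [h2, Set.mem_setOf_eq, hc]
      have h3 : y ≠ 0 := by omega
      have h4 : ¬ 2 ^ (par c.1).n < y := by omega
      simp [h3, h4, hy, hy']
    rw [h1]
    simp

theorem mem_fp_code (hp : ParOK par cc) (J : Set (Gam par)) {s y : ℕ}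
    {us : List (List Bool)} (hus : us.length = (par s).k + 1) (hy : 0 < y)
    (hy' : y ≤ 2 ^ (par s).n) :
    codeW ((par s).k + 1) (Nat.bits (2 ^ (par s).n) :: Nat.bits y :: us) ∈ (HW par).fp J ↔
      (⟨s, leafN (par s).τ ((par s).k + 1) (Nat.bits y :: us).reverse⟩ : Gam par) ∉ J := by
  have h1 : cellW par (codeW ((par s).k + 1) (Nat.bits (2 ^ (par s).n) :: Nat.bits y :: us)) =
      some (⟨s, leafN (par s).τ ((par s).k + 1) (Nat.bits y :: us).reverse⟩ : Gam par) :=
    (cellW_eq hp).2 ⟨y, us, hus, hy, hy', rfl, rfl⟩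
  unfold Hid.fp HW
  dsimp only
  rw [Set.mem_setOf_eq, h1]
  simp

theorem tau_surj (hp : ParOK par cc) (s : ℕ) (u : (par s).U) :
    ∃ b : List Bool, b.length ≤ (Nat.bits (2 ^ (par s).n)).length ∧ (par s).τ (val b) = u := by
  obtain ⟨m, hm, hmu⟩ := dcd_surj (par s).hw (par s).hg ((par s).k - 1 + 1) u
  refine ⟨Nat.bits m, bits_len_mono ?_, ?_⟩
  · have := hp.wg s
    omega
  · rw [val_bits]
    exact hmu

/-- the feasible solutions of the input of stage `s` -/
theorem CL_stage (hp : ParOK par cc) (W : Wld par) (s : ℕ) (α : (par s).Cel → Bool)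
    {J : Set (Gam par)} (hJ : ∀ b : (par s).Cel, (⟨s, b⟩ : Gam par) ∈ J ↔ α b = false)
    {y : ℕ} (hy : y ≠ 0) (hyx : y ≤ 2 ^ (par s).n) :
    CL ((HW par).fp J) ((par s).k + 1) (2 ^ (par s).n) y ↔
      rv (U := (par s).U) ((par s).k + 1) α ((par s).τ (y - 1)) = false := by
  unfold CL
  rw [NT_stg_aux (τ := (par s).τ) (x := 2 ^ (par s).n) (tau_surj hp s) (A := (HW par).fp J)
    (i₀ := (par s).k + 1) ((par s).k + 1) 0 α (by omega), Bool.not_eq_true]
  intro us hus
  show codeW ((par s).k + 1) (Nat.bits (2 ^ (par s).n) :: Nat.bits y :: us) ∈ _ ↔ _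
  rw [mem_fp_code hp J hus (by omega) hyx, hJ, Bool.not_eq_false]

theorem cel_dpart_ora (W : Wld par) : dpart (ora par cc W) = (HW par).fp (rl W) := by
  ext v
  unfold dpart ora
  rw [Set.mem_setOf_eq, false_mem_join]

theorem optU (hp : ParOK par cc) (W : Wld par) (i : ℕ) :
    OptProblem (ora par cc W) i (CL ((HW par).fp (rl W)) i) id := by
  refine ⟨fun x => ?_, fun x y h => ?_, ?_, ?_⟩
  · rw [fp_eq hp]
    exact CL_zero _ i x
  · rw [fp_eq hp] at h
    exact CL_le _ i x y h
  · refine ⟨[.halt true], 1, fun y => ?_⟩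
    rw [Polynomial.eval_one]
    refine ens_halt rfl ?_
    exact val_bits y
  · refine ⟨fun v => ¬ NT ((HW par).fp (rl W)) i i v, ?_, fun x y => Iff.rfl⟩
    unfold InPi
    simp only [not_not]
    rw [← cel_dpart_ora (cc := cc)]
    exact NTD_inSigma _ i i 2 (by omega)

end Pool.Agent.Lib.MP_2b5695_lc.Gv
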