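import Pool.Agent.Lib.MP_2b5695_lc.Gv.Base

/-!
A chain of worlds gives a long path of the decision process.
-/

namespace Pool.Agent.Lib.MP_2b5695_lc.Gv

open Function

variable {V U : Type} [DecidableEq V] [DecidableEq U] {K : ℕ}

theorem chain_pv_sgn (hK : 0 < K) (b : Bool) (r u : U) (l : ℕ) :
    pv (sgn hK b r l) u = some (if u = r then b else true) := by
  cases b
  · by_cases h : u = r <;> simp [sgn, frc, pv, h]
  · simp [sgn, ded, pv]

theorem chain_phi_star (hK : 0 < K) (ρ : V → St U K) (z : V → Bool) (x : V × U)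
    (hx : ρ x.1 = .inl x.2) : Phi (update ρ x.1 (sgn hK (!(z x.1)) x.2 0)) z = Phi ρ z := by
  funext y
  unfold Phi
  by_cases hy : y.1 = x.1
  · rw [hy, Function.update_self, chain_pv_sgn, hx]
    by_cases hy2 : y.2 = x.2
    · simp [pv, hy2]
    · simp [pv, hy2]
  · rw [Function.update_of_ne hy]

theorem chain_vis_star (hK : 0 < K) {r₂ : ℕ} (ρ : V → St U K) (b : Bool) (x : V × U)
    (Vis : Set (V × U))
    (hVis : ∀ (v : V) (r : U) (l : Fin (4 * K)), ρ v = .inr (.inl (r, l)) →
      4 * K ≤ l.val * r₂ → (v, r) ∈ Vis) :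
    ∀ (v : V) (r : U) (l : Fin (4 * K)),
      update ρ x.1 (sgn hK b x.2 0) v = .inr (.inl (r, l)) →
      4 * K ≤ l.val * r₂ → (v, r) ∈ Vis := by
  intro v r l hv hl
  by_cases hvx : v = x.1
  · exfalso
    rw [hvx, Function.update_self] at hv
    cases b with
    | true => simp [sgn, ded] at hv
    | false =>
      simp only [sgn, frc, Bool.false_eq_true, if_false, Sum.inr.injEq, Sum.inl.injEq,
        Prod.mk.injEq] at hv
      have h2 : l.val = 0 := by
        rw [← hv.2]
        simp
      rw [h2] at hl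
      omega
  · rw [Function.update_of_ne hvx] at hv
    exact hVis v r l hv hl

theorem chain_vis_ded (hK : 0 < K) {r₂ : ℕ} (ρ : V → St U K) (x : V × U)
    (Vis : Set (V × U))
    (hVis : ∀ (v : V) (r : U) (l : Fin (4 * K)), ρ v = .inr (.inl (r, l)) →
      4 * K ≤ l.val * r₂ → (v, r) ∈ Vis) :
    ∀ (v : V) (r : U) (l : Fin (4 * K)),
      update ρ x.1 (ded hK 0) v = .inr (.inl (r, l)) →
      4 * K ≤ l.val * r₂ → (v, r) ∈ Vis := by
  intro v r l hv hl
  by_cases hvx : v = x.1
  · exfalso
    rw [hvx, Function.update_self] at hv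
    simp [ded] at hv
  · rw [Function.update_of_ne hvx] at hv
    exact hVis v r l hv hl

theorem chain_first (L : List (Term (V × U) × ℕ))
    (hL : L.Pairwise fun p q => q.2 ≤ p.2) (ρ : V → St U K) (p : Term (V × U) × ℕ)
    (hp : p ∈ L) (hn : NonFals ρ p.1) :
    ∃ q, fstV L ρ = some q ∧ q ∈ L ∧ NonFals ρ q.1 ∧ p.2 ≤ q.2 := by
  classical
  cases hf : fstV L ρ with
  | none =>
    exfalso
    unfold fstV at hf
    have := List.find?_eq_none.1 hf p hp
    simp [hn] at this
  | some q =>
    have hf' := hf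
    unfold fstV at hf'
    rw [List.find?_eq_some_iff_append] at hf'
    obtain ⟨h1, as, bs, h2, h3⟩ := hf'
    have hqn : NonFals ρ q.1 := by simpa using h1
    refine ⟨q, rfl, by rw [h2]; simp, hqn, ?_⟩
    rw [h2] at hp hL
    rw [List.mem_append, List.mem_cons] at hp
    rcases hp with hp | rfl | hp
    · exfalso
      have := h3 p hp
      simp [hn] at this
    · exact le_rfl
    · rw [List.pairwise_append] at hL
      exact (List.pairwise_cons.1 hL.2.1).1 p hp

theorem chain_aux (hK : 0 < K) {r₂ : ℕ} (L : List (Term (V × U) × ℕ))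
    (hL : L.Pairwise fun p q => q.2 ≤ p.2) (α : V × U → Bool) (z : V → Bool)
    (Vis : Set (V × U)) :
    ∀ (k a : ℕ), k ≤ a → ∀ (T : Term (V × U)) (ρ : V → St U K) (J : Set (V × U)),
      (∀ c, Phi ρ z c = false → α c = false) → (∀ c ∈ J, Phi ρ z c = false) →
      (∀ (v : V) (r : U) (l : Fin (4 * K)), ρ v = .inr (.inl (r, l)) →
        4 * K ≤ l.val * r₂ → (v, r) ∈ Vis) →
      Ch L α Vis a J → BadD hK r₂ L k T ρ
  | 0, a, _, T, ρ, J, _, _, _, _ => trivial
  | k + 1, 0, hka, T, ρ, J, _, _, _, _ => absurd hka (by omega)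
  | k + 1, a + 1, hka, T, ρ, J, ha, hb, hc, hCh => by
    have star : ∀ (T' : Term (V × U)) (x : V × U),
        (((∃ c, fstV L ρ = some (T', c)) ∧ NoLive ρ T) ∨ T' = T) → x ∈ T'.l →
        ρ x.1 = .inl x.2 → BadD hK r₂ L (k + 1) T ρ := by
      intro T' x h1 h2 h3
      refine ⟨T', x, h2, Or.inl ⟨h1, h3, z x.1, ?_⟩⟩
      have hPhi := chain_phi_star hK ρ z x h3
      refine chain_aux hK L hL α z Vis k (a + 1) (by omega) T' _ J ?_ ?_ ?_ hCh
      · rw [hPhi]; exact ha
      · rw [hPhi]; exact hb
      · exact chain_vis_star hK ρ _ x Vis hc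
    by_cases hlive : ∃ x ∈ T.l, ρ x.1 = .inl x.2
    · obtain ⟨x, hx, hx'⟩ := hlive
      exact star T x (Or.inr rfl) hx hx'
    · have hno : NoLive ρ T := fun x hx hp => hlive ⟨x, hx, pv_none.1 hp⟩
      have hCh' := hCh
      obtain ⟨J₀, hJ₀, hVJ, hChJ, F, hF1, p, hpL, hp1, hp2, hp3⟩ := hCh'
      have hnp : NonFals ρ p.1 := by
        intro c hcl hpv
        have h1 : Phi ρ z c = !(p.1.a c) := by
          unfold Phi
          rw [hpv]; rfl
        cases hac : α c with
        | true =>
          rw [hp1 c hcl, hac] at h1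
          have := ha c (by rw [h1]; rfl)
          rw [hac] at this
          exact absurd this (by simp)
        | false =>
          rw [hp1 c hcl, hac, hb c (hp2 c hcl hac)] at h1
          exact absurd h1 (by simp)
      obtain ⟨q, hq, hqL, hqn, hpq⟩ := chain_first L hL ρ p hpL hnp
      by_cases hlive' : ∃ x ∈ q.1.l, ρ x.1 = .inl x.2
      · obtain ⟨x, hx, hx'⟩ := hlive'
        exact star q.1 x (Or.inl ⟨⟨q.2, hq⟩, hno⟩) hx hx'
      · have hno' : NoLive ρ q.1 := fun x hx hp => hlive' ⟨x, hx, pv_none.1 hp⟩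
        have hval : ∀ c ∈ q.1.l, pv (ρ c.1) c.2 = some (q.1.a c) := by
          intro c hcl
          have h1 := hno' c hcl
          have h2 := hqn c hcl
          cases hpv : pv (ρ c.1) c.2 with
          | none => exact absurd hpv h1
          | some b =>
            rw [hpv] at h2
            cases b <;> cases hqa : q.1.a c <;> simp_all
        have hex : ∃ x ∈ q.1.l, q.1.a x = false ∧ x ∉ J₀ := by
          by_contra hcon
          push Not at hcon
          have hle := hF1 q hqL (fun c hcl => ⟨fun h => hcon c hcl h, fun h => by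
            have h1 := hb c (hJ₀ h)
            unfold Phi at h1
            rw [hval c hcl] at h1
            simpa using h1⟩)
          omega
        obtain ⟨x, hx, hxa, hxJ⟩ := hex
        have hpvx := hval x hx
        rw [hxa] at hpvx
        have hst : ∃ l : Fin (4 * K), ρ x.1 = .inr (.inl (x.2, l)) := by
          rcases hρ : ρ x.1 with r | ⟨r, l⟩ | l
          · rw [hρ] at hpvx
            unfold pv at hpvx
            by_cases h : x.2 = r <;> simp [h] at hpvx
          · rw [hρ] at hpvx
            unfold pv at hpvx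
            by_cases h : x.2 = r
            · exact ⟨l, by rw [h]⟩
            · simp [h] at hpvx
          · rw [hρ] at hpvx
            simp [pv] at hpvx
        obtain ⟨l, hl⟩ := hst
        have hlr : l.val * r₂ < 4 * K := by
          by_contra hcon
          exact hxJ (hVJ (hc x.1 x.2 l hl (by omega)))
        have hPhi : ∀ c : V × U, c.1 ≠ x.1 → Phi (update ρ x.1 (ded hK 0)) z c = Phi ρ z c := by
          intro c hcx
          unfold Phi
          rw [Function.update_of_ne hcx]
        have hPhi' : ∀ c : V × U, c.1 = x.1 → Phi (update ρ x.1 (ded hK 0)) z c = true := by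
          intro c hcx
          unfold Phi
          rw [hcx, Function.update_self]
          simp [ded, pv]
        refine ⟨q.1, x, hx, Or.inr ⟨⟨q.2, hq⟩, hno, hno', ⟨l, hl, hlr⟩, ?_⟩⟩
        refine chain_aux hK L hL α z Vis k a (by omega) q.1 _ J₀ ?_ ?_ ?_ hChJ
        · intro c hcf
          by_cases hcx : c.1 = x.1
          · rw [hPhi' c hcx] at hcf
            exact absurd hcf (by simp)
          · rw [hPhi c hcx] at hcf
            exact ha c hcf
        · intro c hcJ
          by_cases hcx : c.1 = x.1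
          · exfalso
            have h1 := hb c (hJ₀ hcJ)
            unfold Phi at h1
            rw [hcx, hl] at h1
            by_cases h : c.2 = x.2
            · have : c = x := Prod.ext hcx h
              rw [this] at hcJ
              exact hxJ hcJ
            · simp [pv, h] at h1
          · rw [hPhi c hcx]
            exact hb c (hJ₀ hcJ)
        · exact chain_vis_ded hK ρ x Vis hc

/-- a chain of worlds gives a long path -/
theorem badD_of_ch (hK : 0 < K) {r₂ : ℕ} (L : List (Term (V × U) × ℕ))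
    (hL : L.Pairwise fun p q => q.2 ≤ p.2) (ρ : V → St U K) (z : V → Bool) (Vis : Set (V × U))
    (hVis : ∀ (v : V) (r : U) (l : Fin (4 * K)), ρ v = .inr (.inl (r, l)) →
      4 * K ≤ l.val * r₂ → (v, r) ∈ Vis)
    (R : ℕ) (J : Set (V × U)) (hJ : ∀ c ∈ J, Phi ρ z c = false)
    (h : Ch L (Phi ρ z) Vis R J) (T₀ : Term (V × U)) : BadD hK r₂ L R T₀ ρ :=
  chain_aux hK L hL (Phi ρ z) z Vis R R le_rfl T₀ ρ J (fun _ h => h) hJ hVis h

end Pool.Agent.Lib.MP_2b5695_lc.Gv
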