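import Pool.Agent.Lib.MP_2b5695_lc.Gv.HidRun

/-!
The student succeeds if its histories are short.
-/

namespace Pool.Agent.Lib.MP_2b5695_lc.Gv

variable {Γ : Type} {H : Hid Γ} {d : Data} {X : Set (List Bool)} {x : ℕ}

theorem scan_ens {D : Set (List Bool)} {Adv : ℕ → Option ℕ → Prop}
    {good : Bool → List Bool → Prop} {J Rc : Set Γ} {f : Γ → Tree} {g : Tree} {n N : ℕ}
    (hD : D = H.fp Rc) : ∀ l : List (List Bool), (∀ v ∈ l, v.length ≤ N) →
      (∀ c ∈ l.filterMap H.cell, c ∉ J → c ∈ Rc → Tree.Ens D Adv good n (f c) []) →
      ((∀ c ∈ l.filterMap H.cell, c ∈ Rc → c ∈ J) → Tree.Ens D Adv good n g []) →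
      Tree.Ens D Adv good (n + l.length * (2 * N + 1)) (scan H J l f g) []
  | [], _, _, hg => by
    have := hg (by simp)
    simpa [scan] using this
  | v :: l, hl, hf, hg => by
    have hl' : ∀ v ∈ l, v.length ≤ N := fun w hw => hl w (by simp [hw])
    have hv : v.length ≤ N := hl v (by simp)
    unfold scan
    cases hcv : H.cell v with
    | none =>
      rw [List.filterMap_cons_none hcv] at hf hg
      refine (scan_ens hD l hl' hf hg).mono ?_
      simp only [List.length_cons]
      nlinarith
    | some c =>
      rw [List.filterMap_cons_some hcv] at hf hg
      simp only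
      by_cases hcJ : c ∈ J
      · rw [if_pos hcJ]
        refine (scan_ens hD l hl' (fun c' hc' => hf c' (List.mem_cons_of_mem _ hc'))
          (fun h => hg ?_)).mono ?_
        · intro c' hc'
          rcases List.mem_cons.1 hc' with rfl | hc'
          · exact fun _ => hcJ
          · exact h c' hc'
        · simp only [List.length_cons]
          nlinarith
      · rw [if_neg hcJ]
        have hmem : v ∈ D ↔ c ∉ Rc := by
          rw [hD]
          constructor
          · rintro (⟨h, -⟩ | ⟨c', h, h'⟩)
            · rw [hcv] at h; exact absurd h (by simp)
            · rw [hcv] at h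
              cases h
              exact h'
          · intro h
            exact Or.inr ⟨c, hcv, h⟩
        have hw : Tree.Ens D Adv good ((n + l.length * (2 * N + 1) + v.length + 1) + v.length)
            (write v (.query fun b => dropT v.length (if b = true then scan H J l f g else f c)))
            [] := by
          refine write_ens v [] ?_
          rw [List.append_nil]
          refine ⟨fun hq => ?_, fun hq => ?_⟩
          · refine dropT_ens' v rfl ?_
            rw [if_pos rfl]
            refine scan_ens hD l hl' (fun c' hc' => hf c' (List.mem_cons_of_mem _ hc'))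
              (fun h => hg ?_)
            intro c' hc'
            rcases List.mem_cons.1 hc' with rfl | hc'
            · exact fun h' => absurd h' (hmem.1 hq)
            · exact h c' hc'
          · have hc : c ∈ Rc := by
              by_contra h
              exact hq (hmem.2 h)
            refine Tree.Ens.mono ?_ (dropT_ens' v rfl (n := n) ?_)
            · omega
            · rw [if_neg (by simp)]
              exact hf c (by simp) hcJ hc
        refine hw.mono ?_
        simp only [List.length_cons]
        nlinarith

private theorem reach_facts {Vis Rc : Set Γ} {toks : List (Option ℕ)} {ws : List ℕ}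
    {o : Option ℕ} {K : List Γ} (h : Reach H d X x Vis Rc toks ws o K) :
    (∀ c ∈ K, c ∈ Rc) ∧ ∀ z, o = some z → z ≤ x := by
  induction h with
  | start => simp
  | hit _ _ _ _ h4 ih =>
    refine ⟨fun c hc => ?_, ih.2⟩
    rcases List.mem_cons.1 hc with rfl | hc
    · exact h4
    · exact ih.1 c hc
  | pres _ h2 _ ih =>
    refine ⟨ih.1, fun z' hz' => ?_⟩
    cases hz'
    exact h2
  | done _ _ ih => exact ⟨ih.1, fun z' hz' => absurd hz' (by simp)⟩

/-- the student succeeds if its histories are short -/
theorem stud_ens (hps : d.ps = []) {m F : ℕ} (hm : Small d x m) {Vis Rc : Set Γ}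
    (hVis : Vis ⊆ Rc) {C : ℕ → ℕ → Prop} {ρ : ℕ → ℕ}
    (hC : ∀ y, C x y ↔ d.feas (join X (H.fp Rc)) x y)
    (hρ : ∀ y ≤ x, d.cost (join X (H.fp Rc)) y = ρ y)
    (hF : ∀ toks ws o K, Reach H d X x Vis Rc toks ws o K → toks.length < F) :
    Tree.Ens (H.fp Rc) (Answers C ρ x) (fun _ w => Optimal C ρ x (val w))
      (F * (4 * (m + 1) * (m + 1))) (stud H d X x Vis m F none []) [] := by
  have hxm : (Nat.bits x).length < m := by
    unfold Small at hm
    omega
  set W := 4 * (m + 1) * (m + 1) with hW
  have hcount : ∀ l : ℕ, l < m → l * (2 * m + 1) + 2 * m + 2 ≤ W := by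
    intro l hl
    have : l * (2 * m + 1) ≤ m * (2 * m + 1) := Nat.mul_le_mul_right _ hl.le
    rw [hW]
    nlinarith
  have claim : ∀ (n : ℕ) (toks : List (Option ℕ)) (ws : List ℕ) (o : Option ℕ) (K : List Γ),
      Reach H d X x Vis Rc toks ws o K → toks.length + n = F →
      Tree.Ens (H.fp Rc) (Answers C ρ x) (fun _ w => Optimal C ρ x (val w))
        (n * W) (stud H d X x Vis m n o K) [] := by
    intro n
    induction n with
    | zero =>
      intro toks ws o K hR hlen
      have := hF toks ws o K hR
      omega
    | succ n ih =>
      intro toks ws o K hR hlen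
      obtain ⟨hKR, hoz⟩ := reach_facts hR
      have hJR : kn Vis K ⊆ Rc := by
        rintro c (hc | hc)
        · exact hVis hc
        · exact hKR c hc
      have hlen' : ∀ t : Option ℕ, (toks ++ [t]).length + n = F := by
        intro t
        simp only [List.length_append, List.length_cons, List.length_nil]
        omega
      cases o with
      | none =>
        set J := kn Vis K with hJ
        set y := optT H d X x J with hy
        obtain ⟨hyx, hyf, -⟩ := optT_spec (H := H) (d := d) (x := x) (X := X) (J := J)
        rw [← hy] at hyx hyf
        obtain ⟨hwl, hwn⟩ := wlist_length (H := H) (X := X) (J := J) hm hyx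
        have hylen : (Nat.bits y).length < m := lt_of_le_of_lt (bits_length_mono hyx) hxm
        have hstud : stud H d X x Vis m (n + 1) none K =
            scan H J (wlist H d X x J y) (fun c => stud H d X x Vis m n none (c :: K))
              (write (Nat.bits y) (.present (.halt true)
                (readAll m [] fun z => stud H d X x Vis m n (some (val z)) K))) := rfl
        rw [hstud]
        refine Tree.Ens.mono ?_ (scan_ens (N := m) (n := n * W + 2 * m + 1) rfl
          (wlist H d X x J y) (fun v hv => (hwl v hv).le) ?_ ?_)
        · have := hcount _ hwn
          have e : (n + 1) * W = n * W + W := by ring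
          rw [e]
          omega
        · intro c hc hcJ hcR
          obtain ⟨idx, hidx⟩ := List.getElem?_of_mem hc
          have hR' := Reach.hit hR (idx := idx) (c := c) hidx (fun h => hcJ (Or.inl h))
            (fun h => hcJ (Or.inr h)) hcR
          exact (ih _ _ _ _ hR' (hlen' _)).mono (by omega)
        · intro hno
          have hagree : ∀ c ∈ clist H d X x J y, (c ∈ J ↔ c ∈ Rc) := fun c hc =>
            ⟨fun h => hJR h, fun h => hno c hc h⟩
          obtain ⟨-, -, hfe, hco, -⟩ := run_congr hps hm hyx (X' := X) (fun w _ => Iff.rfl) hagree
          have hCy : C x y := (hC y).2 (hfe.2 hyf)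
          refine Tree.Ens.mono ?_ (write_ens (Nat.bits y) []
            (n := n * W + m + 1) ?_)
          · omega
          · rw [List.append_nil]
            refine ⟨fun hopt => ?_, fun z hz => ?_⟩
            · have e : n * W + m = (n * W + m - 1) + 1 := by omega
              rw [e]
              exact hopt
            · rw [val_bits] at hz
              obtain ⟨hzx, hB⟩ := hz
              have hzlen : (Nat.bits z).length < m := lt_of_le_of_lt (bits_length_mono hzx) hxm
              have hCz : ρ y < ρ z ∧ C x z := by
                by_contra hcon
                refine hB ⟨hCy, fun h1 h2 => hcon ⟨h1, h2⟩⟩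
              have hval : valT H d X x J (optT H d X x J) < valT H d X x Rc z := by
                rw [← hy]
                unfold valT
                rw [if_pos hyf, if_pos ((hC z).1 hCz.2), ← hco, hρ y hyx, hρ z hzx]
                omega
              have hR' := Reach.pres hR hzx hval
              have hih := ih _ _ _ _ hR' (hlen' _)
              have hread := readAll_ens (D := H.fp Rc) (Adv := Answers C ρ x)
                (good := fun _ w => Optimal C ρ x (val w))
                (f := fun z => stud H d X x Vis m n (some (val z)) K)
                (n := n * W) m (Nat.bits z) [] hzlen (by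
                  simp only [List.reverse_nil, List.nil_append, val_bits]
                  exact hih)
              exact hread.mono (by omega)
      | some z =>
        set J := kn Vis K with hJ
        have hzx := hoz z rfl
        obtain ⟨hwl, hwn⟩ := wlist_length (H := H) (X := X) (J := J) hm hzx
        have hstud : stud H d X x Vis m (n + 1) (some z) K =
            scan H J (wlist H d X x J z) (fun c => stud H d X x Vis m n (some z) (c :: K))
              (stud H d X x Vis m n none K) := rfl
        rw [hstud]
        refine Tree.Ens.mono ?_ (scan_ens (N := m) (n := n * W) rfl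
          (wlist H d X x J z) (fun v hv => (hwl v hv).le) ?_ ?_)
        · have := hcount _ hwn
          have e : (n + 1) * W = n * W + W := by ring
          rw [e]
          omega
        · intro c hc hcJ hcR
          obtain ⟨idx, hidx⟩ := List.getElem?_of_mem hc
          have hR' := Reach.hit hR (idx := idx) (c := c) hidx (fun h => hcJ (Or.inl h))
            (fun h => hcJ (Or.inr h)) hcR
          exact ih _ _ _ _ hR' (hlen' _)
        · intro hno
          have hR' := Reach.done hR hno
          exact ih _ _ _ _ hR' (hlen' _)
  have := claim F [] [] none [] Reach.start (by simp)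
  exact this

end Pool.Agent.Lib.MP_2b5695_lc.Gv
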