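import Pool.Agent.Lib.MP_2b5695_lc.Gv.WinA
import Pool.Agent.Lib.MP_2b5695_lc.Gv.StudEns

/-!
All optimization problems with a predicate in `P` are computed.
-/

namespace Pool.Agent.Lib.MP_2b5695_lc.Gv

variable {par : ℕ → SP} {cc : ℕ → ℕ}

theorem computedU (hp : ParOK par cc) (W : Wld par)
    (hgood : ∀ s j d x, Win par cc s j d x →
      ¬ GA par cc W s j d x (W s).1 ∧ ¬ GB par cc W s j d x (W s).1)
    (C : ℕ → ℕ → Prop) (ρ : ℕ → ℕ) (h : OptProblem (ora par cc W) 0 C ρ) :
    Computed (ora par cc W) 0 C ρ := by
  obtain ⟨d, hps, hC, hρ, hloc, hb⟩ := exists_data h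
  obtain ⟨j, hj⟩ := dec_surj (some d)
  have hps' : d.ps = [] := List.eq_nil_of_length_eq_zero hps
  set b := d.b with hbdef
  have hmm : ∀ w : List Bool, mm j w = b.eval w.length := by
    intro w
    unfold mm
    rw [hj]
  refine ⟨ora par cc W, driver 2 j,
    18 * ((3 * (b * b) + 9 * b + 1 + 6 * b + 1) * (4 * (b + 1) * (b + 1)) +
      ((cc j : Polynomial ℕ) + 24 * (b * b))) + 3 * Polynomial.X + (j : Polynomial ℕ) + 6,
    self_inSigma _, fun x => ?_⟩
  refine brain_run (N := tN cc) (main := tMain par cc (vs W)) (D := (HW par).fp (rl W))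
    (x := Nat.bits x) (u := [])
    (n := FF (mx j x) * (4 * (mx j x + 1) * (mx j x + 1)))
    (fun w => true_mem_join) (fun w => false_mem_join) le_rfl ?_ ?_ rfl rfl rfl
  · have hm : tMain par cc (vs W) j (Nat.bits x) []
        (cut (tN cc j (Nat.bits x) []) (brain (tN cc) (tMain par cc (vs W)))) =
          stud (HW par) d (cut (rx cc j x) (brV par cc (vs W))) x (vs W (rx cc j x)) (mx j x)
            (FF (mx j x)) none [] := by
      unfold tMain
      rw [hj]
      simp only
      rw [if_pos hps', val_bits]
      rfl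
    rw [hm]
    have hSmall : Small d x (mx j x) := by
      unfold Small mx
      rw [hmm]
      exact hb x
    have hmr : mx j x ≤ rx cc j x := by
      unfold rx tN
      have h1 : mx j x ≤ mx j x * mx j x := Nat.le_mul_self _
      show mx j x ≤ cc j + 24 * (mx j x * mx j x)
      omega
    have hX : ∀ w : List Bool, w.length < mx j x →
        (w ∈ brV par cc (vs W) ↔ w ∈ cut (rx cc j x) (brV par cc (vs W))) := by
      intro w hw
      unfold cut
      simp only [Set.mem_ofPred_eq]
      constructor
      · intro h1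
        exact ⟨h1, by omega⟩
      · intro h1
        exact h1.1
    have hrun : ∀ y ≤ x, (d.feas (join (cut (rx cc j x) (brV par cc (vs W)))
          ((HW par).fp (rl W))) x y ↔ d.feas (ora par cc W) x y) ∧
        d.cost (join (cut (rx cc j x) (brV par cc (vs W))) ((HW par).fp (rl W))) y =
          d.cost (ora par cc W) y := by
      intro y hy
      obtain ⟨-, -, h3, h4, -⟩ := run_congr (H := HW par) hps' hSmall hy hX
        (J := rl W) (J' := rl W) (fun c _ => Iff.rfl)
      exact ⟨h3, h4⟩
    refine stud_ens hps' hSmall (fun c hc => hc.1) ?_ ?_ ?_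
    · intro y
      rw [← hC]
      by_cases hy : y ≤ x
      · exact (hrun y hy).1.symm
      · unfold Data.feas
        constructor
        · rintro (h1 | ⟨h1, -⟩)
          · omega
          · exact absurd h1 hy
        · rintro (h1 | ⟨h1, -⟩)
          · omega
          · exact absurd h1 hy
    · intro y hy
      rw [(hrun y hy).2]
      exact hρ y
    · intro toks ws o K hR
      by_cases hs : ∃ s, (par s).n < mx j x ∧ rx cc j x < (par s).L
      · obtain ⟨s, h1, h2⟩ := hs
        have hw : Win par cc s j d x := ⟨hj, hps', hSmall, h1, h2⟩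
        exact win hp W hw (hgood s j d x hw).1 (hgood s j d x hw).2 hR
      · push Not at hs
        exact nowin hp W hps' hSmall hmr hs hR
  · have e1 : mx j x = b.eval (Nat.bits x).length := hmm _
    have e2 : tN cc j (Nat.bits x) [] = cc j + 24 * (mx j x * mx j x) := rfl
    rw [e2, e1]
    unfold FF TT
    simp only [Polynomial.eval_add, Polynomial.eval_mul, Polynomial.eval_X,
      Polynomial.eval_ofNat, Polynomial.eval_one, Polynomial.eval_natCast, List.length_nil,
      Nat.cast_id]
    simp

end Pool.Agent.Lib.MP_2b5695_lc.Gv
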