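import Pool.Agent.Lib.MP_2b5695_lc.Gv.Base

/-!
Counting: moving secret positions; summing over fibers.
-/

namespace Pool.Agent.Lib.MP_2b5695_lc.Gv

open Function

variable {V U : Type} [DecidableEq V] [DecidableEq U] {K : ℕ}

/-- moving the position of a state -/
private def posMv (u : U) : St U K → St U K
  | .inl _ => .inl u
  | .inr (.inl (_, l)) => .inr (.inl (u, l))
  | .inr (.inr l) => .inr (.inr l)

/-- a hard position -/
private def posHd (m : ℕ) (ρ : V → St U K) (c : V × U) : Prop :=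
  ρ c.1 = .inl c.2 ∨ ∃ l : Fin (4 * K), ρ c.1 = .inr (.inl (c.2, l)) ∧ l.val * m < 4 * K

private lemma posHd_unique {m : ℕ} {ρ : V → St U K} {c c' : V × U} (h : posHd m ρ c)
    (h' : posHd m ρ c') (he : c'.1 = c.1) : c' = c := by
  refine Prod.ext he ?_
  unfold posHd at h h'
  rw [he] at h'
  rcases h with h | ⟨l, h, _⟩ <;> rcases h' with h' | ⟨l', h', _⟩
  · rw [h] at h'; injection h' with h'; exact h'.symm
  · rw [h] at h'; injection h'
  · rw [h] at h'; injection h'
  · rw [h] at h'; injection h' with h'; injection h' with h'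
    exact (congrArg Prod.fst h').symm

private lemma posMv_vp {m : ℕ} {ρ : V → St U K} {c : V × U} (h : posHd m ρ c) (u : U) :
    vp m (update ρ c.1 (posMv u (ρ c.1))) = vp m ρ := by
  funext v
  unfold vp
  by_cases hv : v = c.1
  · subst hv
    rw [update_self]
    rcases h with h | ⟨l, h, hl⟩
    · rw [h]; rfl
    · rw [h]
      simp only [posMv]
      rw [if_neg (by omega), if_neg (by omega)]
  · rw [update_of_ne hv]

private lemma posMv_inj {m : ℕ} {ρ ρ' : V → St U K} {c : V × U} (h : posHd m ρ c)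
    (h' : posHd m ρ' c) {u u' : U}
    (he : update ρ c.1 (posMv u (ρ c.1)) = update ρ' c.1 (posMv u' (ρ' c.1))) :
    ρ = ρ' ∧ u = u' := by
  have h1 := congrFun he c.1
  rw [update_self, update_self] at h1
  have h2 : ρ c.1 = ρ' c.1 ∧ u = u' := by
    rcases h with h | ⟨l, h, hl⟩ <;> rcases h' with h' | ⟨l', h', hl'⟩ <;>
      rw [h, h'] at h1 <;> simp only [posMv] at h1
    · injection h1 with h1
      exact ⟨h.trans h'.symm, h1⟩
    · injection h1
    · injection h1
    · injection h1 with h1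
      injection h1 with h1
      injection h1 with h1 h3
      exact ⟨by rw [h, h', h3], h1⟩
  refine ⟨?_, h2.2⟩
  funext v
  by_cases hv : v = c.1
  · rw [hv]; exact h2.1
  · have := congrFun he v
    rwa [update_of_ne hv, update_of_ne hv] at this

private lemma posStep [Fintype V] [Fintype U] (m : ℕ) (vp₀ : V → Option (U × Fin (4 * K)))
    (c : V × U) (Kl : List (V × U)) (hnd : (c :: Kl).Nodup) :
    Nat.card {ρ : V → St U K // vp m ρ = vp₀ ∧ ∀ d ∈ (c :: Kl), posHd m ρ d} * Nat.card U ≤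
      Nat.card {ρ : V → St U K // vp m ρ = vp₀ ∧ ∀ d ∈ Kl, posHd m ρ d} := by
  classical
  rw [← Nat.card_prod]
  have hmem : ∀ (p : {ρ : V → St U K // vp m ρ = vp₀ ∧ ∀ d ∈ (c :: Kl), posHd m ρ d} × U),
      vp m (update p.1.1 c.1 (posMv p.2 (p.1.1 c.1))) = vp₀ ∧
        ∀ d ∈ Kl, posHd m (update p.1.1 c.1 (posMv p.2 (p.1.1 c.1))) d := by
    rintro ⟨⟨ρ, hρ, hK⟩, u⟩
    have hc : posHd m ρ c := hK c (List.mem_cons_self ..)
    refine ⟨(posMv_vp hc u).trans hρ, fun d hd => ?_⟩
    have hd' : posHd m ρ d := hK d (List.mem_cons_of_mem _ hd)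
    have hne : d.1 ≠ c.1 := by
      intro he
      have := posHd_unique hc hd' he
      subst this
      exact (List.nodup_cons.mp hnd).1 hd
    unfold posHd
    simp only [update_of_ne hne]
    exact hd'
  refine Nat.card_le_card_of_injective
    (fun p => (⟨update p.1.1 c.1 (posMv p.2 (p.1.1 c.1)), hmem p⟩ :
      {ρ : V → St U K // vp m ρ = vp₀ ∧ ∀ d ∈ Kl, posHd m ρ d})) ?_
  rintro ⟨⟨ρ, hρ, hK⟩, u⟩ ⟨⟨ρ', hρ', hK'⟩, u'⟩ he
  have he' := congrArg Subtype.val he
  obtain ⟨h1, h2⟩ := posMv_inj (hK c (List.mem_cons_self ..)) (hK' c (List.mem_cons_self ..)) he'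
  subst h1; subst h2
  rfl

/-- moving secret positions -/
theorem card_pos_fiber [Fintype V] [Fintype U] (m : ℕ) (vp₀ : V → Option (U × Fin (4 * K)))
    (Kl : List (V × U)) (hnd : Kl.Nodup) :
    Nat.card {ρ : V → St U K // vp m ρ = vp₀ ∧ ∀ c ∈ Kl, ρ c.1 = .inl c.2 ∨
        ∃ l : Fin (4 * K), ρ c.1 = .inr (.inl (c.2, l)) ∧ l.val * m < 4 * K} *
      Nat.card U ^ Kl.length ≤
    Nat.card {ρ : V → St U K // vp m ρ = vp₀} := by
  induction Kl with
  | nil => simp
  | cons c Kl ih =>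
    have h1 := posStep m vp₀ c Kl hnd
    have h2 := ih (List.nodup_cons.mp hnd).2
    refine le_trans ?_ h2
    rw [List.length_cons, pow_succ', ← mul_assoc]
    exact Nat.mul_le_mul_right _ h1

/-- summing over fibers -/
theorem card_of_fiber {Ω F : Type} [Finite Ω] (φ : Ω → F) (B : F → Ω → Prop) (a c : ℕ)
    (h : ∀ f : F, Nat.card {ω : Ω // φ ω = f ∧ B f ω} * a ≤ Nat.card {ω : Ω // φ ω = f} * c) :
    Nat.card {ω : Ω // B (φ ω) ω} * a ≤ Nat.card Ω * c := by
  classical
  haveI := Fintype.ofFinite Ω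
  have e1 : Nat.card {ω : Ω // B (φ ω) ω} =
      ∑ f ∈ Finset.univ.image φ, Nat.card {ω : Ω // φ ω = f ∧ B f ω} := by
    rw [Nat.card_eq_fintype_card, Fintype.card_subtype,
      Finset.card_eq_sum_card_fiberwise (f := φ) (t := Finset.univ.image φ)
        (fun ω _ => Finset.mem_coe.mpr (Finset.mem_image_of_mem φ (Finset.mem_univ ω)))]
    refine Finset.sum_congr rfl fun f _ => ?_
    rw [Nat.card_eq_fintype_card, Fintype.card_subtype, Finset.filter_filter]
    congr 1
    apply Finset.filter_congr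
    intro ω _
    constructor
    · rintro ⟨h1, h2⟩
      exact ⟨h2, h2 ▸ h1⟩
    · rintro ⟨h1, h2⟩
      exact ⟨h1 ▸ h2, h1⟩
  have e2 : Nat.card Ω = ∑ f ∈ Finset.univ.image φ, Nat.card {ω : Ω // φ ω = f} := by
    rw [Nat.card_eq_fintype_card, ← Finset.card_univ,
      Finset.card_eq_sum_card_fiberwise (f := φ) (t := Finset.univ.image φ)
        (fun ω _ => Finset.mem_coe.mpr (Finset.mem_image_of_mem φ (Finset.mem_univ ω)))]
    refine Finset.sum_congr rfl fun f _ => ?_
    rw [Nat.card_eq_fintype_card, Fintype.card_subtype]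
  rw [e1, e2, Finset.sum_mul, Finset.sum_mul]
  exact Finset.sum_le_sum fun f _ => h f

end Pool.Agent.Lib.MP_2b5695_lc.Gv
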