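import Pool.Agent.Lib.MP_2b5695_lc.Gv.Events
import Pool.Agent.Lib.MP_2b5695_lc.Gv.Pos

/-!
Counting the configurations whose secret positions are generated by a short history.
-/

namespace Pool.Agent.Lib.MP_2b5695_lc.Gv

variable {par : ℕ → SP} {cc : ℕ → ℕ}

/-- the event for a fixed history -/
private def gaB (par : ℕ → SP) (cc : ℕ → ℕ) (W : Wld par) (s j : ℕ) (d : Data) (x : ℕ)
    (toks : List (Option ℕ)) (ws : List ℕ)
    (f : (par s).Col → Option ((par s).U × Fin (4 * (par s).K)))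
    (ρ : (par s).Col → St (par s).U (par s).K) : Prop :=
  ∃ Kf : List (par s).Cel,
      (gen (HW par) d (XP par cc W s (rx cc j x) f) x
        (vsP par W s f (rx cc j x)) toks ws).2.1 = Kf.map (fun b => ⟨s, b⟩) ∧
      TT (mx j x) ≤ Kf.length ∧ Kf.Nodup ∧
      ∀ b ∈ Kf, ρ b.1 = .inl b.2 ∨ ∃ l : Fin (4 * (par s).K),
        ρ b.1 = .inr (.inl (b.2, l)) ∧ l.val * rx cc j x < 4 * (par s).K

private theorem gaU_nonempty (σ : SP) : Nonempty (SP.U' σ) := by
  have : Nonempty (Fin σ.w) := ⟨⟨0, σ.hw⟩⟩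
  have : Nonempty (Fin σ.g) := ⟨⟨0, σ.hg⟩⟩
  have h : ∀ k, Nonempty (Ut (Fin σ.w) (Fin σ.g) k) := by
    intro k
    induction k with
    | zero => exact inferInstanceAs (Nonempty (Fin σ.w))
    | succ k ih => exact inferInstanceAs (Nonempty (Ut (Fin σ.w) (Fin σ.g) k × Fin σ.g))
  exact h _

private theorem gaU_card (σ : SP) : σ.g ≤ Nat.card σ.U := by
  have := gaU_nonempty σ
  have : Finite (SP.U' σ) := Ut.finite _ _ _
  have h1 : Nat.card σ.U = Nat.card (SP.U' σ) * Nat.card (Fin σ.g) := Nat.card_prod _ _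
  have h2 : 1 ≤ Nat.card (SP.U' σ) := Nat.card_pos
  rw [h1, Nat.card_eq_fintype_card (α := Fin σ.g), Fintype.card_fin]
  nlinarith

private theorem gaB_card (par : ℕ → SP) (cc : ℕ → ℕ) (W : Wld par) (s j : ℕ) (d : Data) (x : ℕ)
    (toks : List (Option ℕ)) (ws : List ℕ) :
    Nat.card {ρ : (par s).Col → St (par s).U (par s).K //
        gaB par cc W s j d x toks ws (vp (rx cc j x) ρ) ρ} *
      Nat.card (par s).U ^ TT (mx j x) ≤ Nat.card ((par s).Col → St (par s).U (par s).K) := by
  classical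
  have : Finite (SP.U' (par s)) := Ut.finite _ _ _
  have : Fintype (par s).U := Fintype.ofFinite _
  have : Fintype (par s).Col := Fintype.ofFinite _
  have hU : 0 < Nat.card (par s).U := lt_of_lt_of_le (par s).hg (gaU_card _)
  have key := card_of_fiber (Ω := (par s).Col → St (par s).U (par s).K) (vp (rx cc j x))
    (gaB par cc W s j d x toks ws) (Nat.card (par s).U ^ TT (mx j x)) 1 ?_
  · rwa [mul_one] at key
  intro f
  rw [mul_one]
  by_cases h : ∃ Kf : List (par s).Cel,
      (gen (HW par) d (XP par cc W s (rx cc j x) f) x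
        (vsP par W s f (rx cc j x)) toks ws).2.1 = Kf.map (fun b => ⟨s, b⟩) ∧
      TT (mx j x) ≤ Kf.length ∧ Kf.Nodup
  · obtain ⟨Kf, h1, h2, h3⟩ := h
    have hp := card_pos_fiber (rx cc j x) f Kf h3
    refine le_trans (Nat.mul_le_mul ?_ (Nat.pow_le_pow_right hU h2)) hp
    have hin : ∀ ω : {ω : (par s).Col → St (par s).U (par s).K //
        vp (rx cc j x) ω = f ∧ gaB par cc W s j d x toks ws f ω},
        vp (rx cc j x) ω.1 = f ∧ ∀ c ∈ Kf, ω.1 c.1 = .inl c.2 ∨
        ∃ l : Fin (4 * (par s).K), ω.1 c.1 = .inr (.inl (c.2, l)) ∧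
          l.val * rx cc j x < 4 * (par s).K := by
      rintro ⟨ω, h4, Kf', h5, -, -, h6⟩
      have h7 : Kf' = Kf := by
        have hinj : Function.Injective (List.map (fun b : (par s).Cel => (⟨s, b⟩ : Gam par))) :=
          List.map_injective_iff.2 (sigma_mk_injective (β := fun t => (par t).Cel))
        exact hinj (h5.symm.trans h1)
      subst h7
      exact ⟨h4, h6⟩
    refine Nat.card_le_card_of_injective (fun ω => ⟨ω.1, hin ω⟩) ?_
    intro a b hab
    have h' := congrArg Subtype.val hab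
    exact Subtype.ext h'
  · have : IsEmpty {ω : (par s).Col → St (par s).U (par s).K //
        vp (rx cc j x) ω = f ∧ gaB par cc W s j d x toks ws f ω} := by
      refine ⟨?_⟩
      rintro ⟨ω, -, Kf, h1, h2, h3, -⟩
      exact h ⟨Kf, h1, h2, h3⟩
    rw [Nat.card_of_isEmpty, zero_mul]
    exact Nat.zero_le _

private theorem ga_union {Ω I : Type} [Finite Ω] [Fintype I] (B : I → Ω → Prop) (a : ℕ)
    (h : ∀ i, Nat.card {ω // B i ω} * a ≤ Nat.card Ω) :
    Nat.card {ω // ∃ i, B i ω} * a ≤ Fintype.card I * Nat.card Ω := by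
  classical
  have h1 : Nat.card {ω // ∃ i, B i ω} ≤ Nat.card (Σ i, {ω // B i ω}) := by
    refine Nat.card_le_card_of_injective
      (fun ω => (⟨ω.2.choose, ω.1, ω.2.choose_spec⟩ : Σ i, {ω // B i ω})) ?_
    intro p q hpq
    apply Subtype.ext
    exact congrArg (fun t : Σ i, {ω // B i ω} => (t.2.1 : Ω)) hpq
  rw [Nat.card_sigma] at h1
  calc Nat.card {ω // ∃ i, B i ω} * a ≤ (∑ i, Nat.card {ω // B i ω}) * a :=
        Nat.mul_le_mul_right _ h1
    _ = ∑ i, Nat.card {ω // B i ω} * a := by rw [Finset.sum_mul]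
    _ ≤ ∑ _i : I, Nat.card Ω := Finset.sum_le_sum fun i _ => h i
    _ = Fintype.card I * Nat.card Ω := by
        rw [Finset.sum_const, smul_eq_mul, Finset.card_univ]

private theorem ga_arith {m x u : ℕ} (hx : x + 1 ≤ 2 ^ m) (hu : 2 * (m + 1) ^ 2 ≤ u) :
    (m + 1) ^ FF m * (x + 1) ^ (3 * m) * 2 ^ (3 * m) ≤ u ^ TT m := by
  have h1 : (x + 1) ^ (3 * m) ≤ 2 ^ (3 * (m * m)) := by
    calc (x + 1) ^ (3 * m) ≤ (2 ^ m) ^ (3 * m) := Nat.pow_le_pow_left hx _
      _ = 2 ^ (3 * (m * m)) := by rw [← pow_mul]; ring_nf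
  have h2 : 2 ^ (3 * (m * m)) * 2 ^ (3 * m) ≤ 2 ^ TT m := by
    rw [← pow_add]
    refine Nat.pow_le_pow_right (by norm_num) ?_
    unfold TT
    omega
  have h3 : (m + 1) ^ FF m ≤ (m + 1) ^ (2 * TT m) := by
    refine Nat.pow_le_pow_right (by omega) ?_
    unfold FF TT
    omega
  calc (m + 1) ^ FF m * (x + 1) ^ (3 * m) * 2 ^ (3 * m)
      ≤ (m + 1) ^ (2 * TT m) * 2 ^ (3 * (m * m)) * 2 ^ (3 * m) :=
        Nat.mul_le_mul_right _ (Nat.mul_le_mul h3 h1)
    _ = (m + 1) ^ (2 * TT m) * (2 ^ (3 * (m * m)) * 2 ^ (3 * m)) := by rw [mul_assoc]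
    _ ≤ (m + 1) ^ (2 * TT m) * 2 ^ TT m := Nat.mul_le_mul_left _ h2
    _ = (2 * (m + 1) ^ 2) ^ TT m := by rw [mul_pow, ← pow_mul, mul_comm]
    _ ≤ u ^ TT m := Nat.pow_le_pow_left hu _

theorem card_GA (hp : ParOK par cc) (W : Wld par) {s j : ℕ} {d : Data} {x : ℕ}
    (hw : Win par cc s j d x) :
    Nat.card {ρ : (par s).Col → St (par s).U (par s).K // GA par cc W s j d x ρ} *
      2 ^ (3 * mx j x) ≤ Nat.card ((par s).Col → St (par s).U (par s).K) := by
  classical
  have : Finite (SP.U' (par s)) := Ut.finite _ _ _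
  have hm := hw.small
  have hr2 := hw.h2
  have hmL : mx j x < (par s).L := by
    have h1 : rx cc j x = cc j + 24 * (mx j x * mx j x) := rfl
    have h2 : mx j x ≤ mx j x * mx j x := Nat.le_mul_self _
    omega
  have hx : x + 1 ≤ 2 ^ mx j x := by
    have h1 : (Nat.bits x).length < mx j x := by
      unfold Small at hm
      omega
    have h2 : x < 2 ^ (Nat.bits x).length := by
      rw [Nat.size_eq_bits_len]
      exact Nat.lt_size_self x
    exact (Nat.succ_le_of_lt h2).trans (Nat.pow_le_pow_right (by norm_num) h1.le)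
  have hu : 2 * (mx j x + 1) ^ 2 ≤ Nat.card (par s).U := by
    have h1 := gaU_card (par s)
    have h2 := hp.Kg s
    have h3 := hp.LK s
    have h4 : (mx j x + 1) ^ 2 ≤ (par s).L * (par s).L := by
      rw [pow_two]
      exact Nat.mul_le_mul hmL hmL
    have h5 : (par s).L * (par s).L ≤ (par s).L * (par s).L * (par s).L :=
      Nat.le_mul_of_pos_right _ (by omega)
    omega
  -- the histories
  let I : Type := (Fin (FF (mx j x)) → Option (Fin (mx j x))) × (Fin (3 * mx j x) → Fin (x + 1))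
  let tk : I → List (Option ℕ) := fun i => List.ofFn fun a => (i.1 a).map Fin.val
  let wk : I → List ℕ := fun i => List.ofFn fun a => (i.2 a).val
  have hun := ga_union (Ω := (par s).Col → St (par s).U (par s).K) (I := I)
    (fun i ρ => gaB par cc W s j d x (tk i) (wk i) (vp (rx cc j x) ρ) ρ)
    (Nat.card (par s).U ^ TT (mx j x)) (fun i => gaB_card par cc W s j d x (tk i) (wk i))
  have hI : Fintype.card I = (mx j x + 1) ^ FF (mx j x) * (x + 1) ^ (3 * mx j x) := by
    simp only [I, Fintype.card_prod, Fintype.card_fun, Fintype.card_option, Fintype.card_fin]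
  have hle : Nat.card {ρ : (par s).Col → St (par s).U (par s).K // GA par cc W s j d x ρ} ≤
      Nat.card {ρ : (par s).Col → St (par s).U (par s).K //
        ∃ i : I, gaB par cc W s j d x (tk i) (wk i) (vp (rx cc j x) ρ) ρ} := by
    refine Nat.card_le_card_of_injective (fun ρ => ⟨ρ.1, ?_⟩) (fun a b hab => by
      have h' := congrArg Subtype.val hab
      exact Subtype.ext h')
    obtain ⟨ρ, toks, ws, h1, h2, h3, h4, h5⟩ := ρ
    refine ⟨(fun a => (toks[a.val]'(by rw [h1]; exact a.2)).bind fun n =>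
        if h : n < mx j x then some ⟨n, h⟩ else none,
      fun a => ⟨ws[a.val]'(by rw [h3]; exact a.2),
        Nat.lt_succ_of_le (h4 _ (List.getElem_mem _))⟩), ?_⟩
    have e1 : tk (fun a => (toks[a.val]'(by rw [h1]; exact a.2)).bind fun n =>
        if h : n < mx j x then some ⟨n, h⟩ else none,
      fun a => ⟨ws[a.val]'(by rw [h3]; exact a.2),
        Nat.lt_succ_of_le (h4 _ (List.getElem_mem _))⟩) = toks := by
      apply List.ext_getElem
      · simp only [tk, List.length_ofFn]
        exact h1.symm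
      · intro n hn1 hn2
        simp only [tk, List.getElem_ofFn]
        have hmem : toks[n] ∈ toks := List.getElem_mem _
        rcases ht : toks[n] with _ | idx
        · rfl
        · have := h2 idx (ht ▸ hmem)
          simp [this]
    have e2 : wk (fun a => (toks[a.val]'(by rw [h1]; exact a.2)).bind fun n =>
        if h : n < mx j x then some ⟨n, h⟩ else none,
      fun a => ⟨ws[a.val]'(by rw [h3]; exact a.2),
        Nat.lt_succ_of_le (h4 _ (List.getElem_mem _))⟩) = ws := by
      apply List.ext_getElem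
      · simp only [wk, List.length_ofFn]
        exact h3.symm
      · intro n hn1 hn2
        simp only [wk, List.getElem_ofFn]
    rw [e1, e2]
    exact h5
  rw [hI] at hun
  have har := ga_arith (m := mx j x) hx hu
  have hU : 0 < Nat.card (par s).U ^ TT (mx j x) := by
    apply Nat.pow_pos
    exact lt_of_lt_of_le (par s).hg (gaU_card _)
  refine Nat.le_of_mul_le_mul_right ?_ hU
  calc Nat.card {ρ : (par s).Col → St (par s).U (par s).K // GA par cc W s j d x ρ} *
        2 ^ (3 * mx j x) * Nat.card (par s).U ^ TT (mx j x)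
      = Nat.card {ρ : (par s).Col → St (par s).U (par s).K // GA par cc W s j d x ρ} *
        Nat.card (par s).U ^ TT (mx j x) * 2 ^ (3 * mx j x) := by ring
    _ ≤ ((mx j x + 1) ^ FF (mx j x) * (x + 1) ^ (3 * mx j x) *
        Nat.card ((par s).Col → St (par s).U (par s).K)) * 2 ^ (3 * mx j x) :=
        Nat.mul_le_mul_right _ ((Nat.mul_le_mul_right _ hle).trans hun)
    _ = Nat.card ((par s).Col → St (par s).U (par s).K) *
        ((mx j x + 1) ^ FF (mx j x) * (x + 1) ^ (3 * mx j x) * 2 ^ (3 * mx j x)) := by ring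
    _ ≤ Nat.card ((par s).Col → St (par s).U (par s).K) *
        Nat.card (par s).U ^ TT (mx j x) := Nat.mul_le_mul_left _ har

end Pool.Agent.Lib.MP_2b5695_lc.Gv
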