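import Pool.Agent.Lib.MP_2b5695_lc.Gv.Base

/-!
Counting the restrictions with a long path, by encoding.
-/

namespace Pool.Agent.Lib.MP_2b5695_lc.Gv

open Function

variable {V U : Type} [DecidableEq V] [DecidableEq U] {K : ℕ}

private theorem enc_pv_frc (hK : 0 < K) (r u : U) (l : ℕ) :
    pv (frc hK r l : St U K) u = some (if u = r then false else true) := by
  by_cases h : u = r <;> simp [frc, pv, h]

private theorem enc_pv_sgn (hK : 0 < K) (b : Bool) (r u : U) (l : ℕ) :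
    pv (sgn hK b r l : St U K) u = some (if u = r then b else true) := by
  cases b
  · by_cases h : u = r <;> simp [sgn, frc, pv, h]
  · simp [sgn, ded, pv]

private theorem enc_sgn_ne_inl (hK : 0 < K) {b : Bool} {r u : U} {l : ℕ} :
    (sgn hK b r l : St U K) ≠ .inl u := by
  cases b <;> simp [sgn, frc, ded]

private theorem enc_frc_inj (hK : 0 < K) {r : U} {l l' : ℕ} (h1 : l < 4 * K) (h2 : l' < 4 * K)
    (h : (frc hK r l : St U K) = frc hK r l') : l = l' := by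
  simp only [frc, Sum.inr.injEq, Sum.inl.injEq, Prod.mk.injEq, true_and, Fin.mk.injEq] at h
  rwa [Nat.mod_eq_of_lt h1, Nat.mod_eq_of_lt h2] at h

private theorem enc_sgn_inj (hK : 0 < K) {b : Bool} {r : U} {l l' : ℕ} (h1 : l < K) (h2 : l' < K)
    (h : (sgn hK b r l : St U K) = sgn hK b r l') : l = l' := by
  cases b
  · simp only [sgn, Bool.false_eq_true, if_false] at h
    exact enc_frc_inj hK (by omega) (by omega) h
  · simp only [sgn, if_true, ded, Sum.inr.injEq, Fin.mk.injEq] at h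
    rwa [Nat.mod_eq_of_lt h1, Nat.mod_eq_of_lt h2] at h

private theorem enc_divmod {κ l l2 m m2 : ℕ} (h1 : l2 < κ) (h2 : m2 < κ)
    (h : l * κ + l2 = m * κ + m2) : l = m ∧ l2 = m2 := by
  have hκ : 0 < κ := by omega
  have e1 : (l * κ + l2) / κ = l := by
    rw [mul_comm, Nat.mul_add_div hκ, Nat.div_eq_of_lt h1, add_zero]
  have e2 : (m * κ + m2) / κ = m := by
    rw [mul_comm, Nat.mul_add_div hκ, Nat.div_eq_of_lt h2, add_zero]
  have e3 : l = m := by rw [← e1, ← e2, h]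
  subst e3
  exact ⟨rfl, by omega⟩

private theorem enc_fstV_some {L : List (Term (V × U) × ℕ)} {ρ : V → St U K}
    {T : Term (V × U)} {c : ℕ} (h : fstV L ρ = some (T, c)) : (T, c) ∈ L ∧ NonFals ρ T :=
  ⟨List.mem_of_find?_eq_some h, by simpa using List.find?_some h⟩

private theorem enc_fstV_ext {L : List (Term (V × U) × ℕ)} {ρ ρ' : V → St U K}
    {T : Term (V × U)} {c : ℕ} (h : fstV L ρ = some (T, c)) (hT : NonFals ρ' T)
    (hρ : ∀ T', ¬ NonFals ρ T' → ¬ NonFals ρ' T') : fstV L ρ' = some (T, c) := by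
  unfold fstV at h ⊢
  rw [List.find?_eq_some_iff_append] at h ⊢
  obtain ⟨h1, as, bs, h2, h3⟩ := h
  refine ⟨by simpa using hT, as, bs, h2, fun a ha => ?_⟩
  have h4 := h3 a ha
  simp only [Bool.not_eq_eq_eq_not, Bool.not_true, decide_eq_false_iff_not] at h4 ⊢
  exact hρ _ h4

/-- the encoding relation -/
private def EncD (hK : 0 < K) (r₂ : ℕ) (L : List (Term (V × U) × ℕ)) {s κ : ℕ} :
    List (Bool × Fin s × Option Bool) → Term (V × U) → (V → St U K) → (V → St U K) →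
    List (Fin κ) → Prop
  | [], _, ρ, ρ', ls => ls = [] ∧ ρ' = ρ
  | (nw, i, some π) :: c, T, ρ, ρ', ls => ∃ (l : Fin κ) (ls' : List (Fin κ)) (T' : Term (V × U))
      (x : V × U) (ρ'' : V → St U K) (l2 : ℕ), ls = l :: ls' ∧
      ((nw = true ∧ (∃ v, fstV L ρ = some (T', v)) ∧ NoLive ρ T) ∨ (nw = false ∧ T' = T)) ∧
      T'.l[i.val]? = some x ∧ ρ x.1 = .inl x.2 ∧
      EncD hK r₂ L c T' (update ρ x.1 (sgn hK (!π) x.2 0)) ρ'' ls' ∧
      l2 < κ ∧ ρ'' x.1 = sgn hK (!π) x.2 l2 ∧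
      ρ' = update ρ'' x.1 (sgn hK (T'.a x) x.2 (l.val * κ + l2))
  | (_, i, none) :: c, T, ρ, ρ', ls => ∃ (l : Fin κ) (ls' : List (Fin κ)) (T' : Term (V × U))
      (x : V × U) (ρ'' : V → St U K) (l1 : Fin (4 * K)), ls = l :: ls' ∧
      (∃ v, fstV L ρ = some (T', v)) ∧ NoLive ρ T ∧ NoLive ρ T' ∧
      T'.l[i.val]? = some x ∧ ρ x.1 = .inr (.inl (x.2, l1)) ∧ l1.val * r₂ < 4 * K ∧
      EncD hK r₂ L c T' (update ρ x.1 (ded hK 0)) ρ'' ls' ∧
      ρ' = update ρ'' x.1 (frc hK x.2 (l1.val * κ + l.val))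

variable {hK : 0 < K} {r₂ : ℕ} {L : List (Term (V × U) × ℕ)}

private theorem EncD.ext {s κ : ℕ} : ∀ {c : List (Bool × Fin s × Option Bool)}
    {T : Term (V × U)} {ρ ρ' : V → St U K} {ls : List (Fin κ)}, EncD hK r₂ L c T ρ ρ' ls →
    ∀ v, ρ' v = ρ v ∨ (∃ r b l, l < κ * κ ∧ ρ v = .inl r ∧ ρ' v = sgn hK b r l) ∨
      ∃ (r : U) (l1 : Fin (4 * K)) (l : ℕ), l < κ ∧ ρ v = .inr (.inl (r, l1)) ∧
        l1.val * r₂ < 4 * K ∧ ρ' v = frc hK r (l1.val * κ + l)
  | [], T, ρ, ρ', ls, h, v => by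
    obtain ⟨-, rfl⟩ := h
    exact Or.inl rfl
  | (nw, i, some π) :: c, T, ρ, ρ', ls, h, v => by
    obtain ⟨l, ls', T', x, ρ'', l2, -, -, -, hx, hE, hl2, -, rfl⟩ := h
    by_cases hv : v = x.1
    · subst hv
      refine Or.inr (Or.inl ⟨x.2, _, l.val * κ + l2, ?_, hx, by rw [Function.update_self]⟩)
      have h1 : (l.val + 1) * κ ≤ κ * κ := Nat.mul_le_mul_right κ l.isLt
      rw [Nat.add_mul, one_mul] at h1
      omega
    · rw [Function.update_of_ne hv]
      have := EncD.ext hE v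
      rw [Function.update_of_ne hv] at this
      exact this
  | (nw, i, none) :: c, T, ρ, ρ', ls, h, v => by
    obtain ⟨l, ls', T', x, ρ'', l1, -, -, -, -, -, hx, hl1, hE, rfl⟩ := h
    by_cases hv : v = x.1
    · subst hv
      exact Or.inr (Or.inr ⟨x.2, l1, l.val, l.isLt, hx, hl1, by rw [Function.update_self]⟩)
    · rw [Function.update_of_ne hv]
      have := EncD.ext hE v
      rw [Function.update_of_ne hv] at this
      exact this

private theorem EncD.pv_some {s κ : ℕ} {c : List (Bool × Fin s × Option Bool)}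
    {T : Term (V × U)} {ρ ρ' : V → St U K} {ls : List (Fin κ)}
    (h : EncD hK r₂ L c T ρ ρ' ls) {v : V} {u : U}
    {b : Bool} (hb : pv (ρ v) u = some b) : pv (ρ' v) u = some b := by
  rcases h.ext v with h1 | ⟨r, b', l, -, h1, h2⟩ | ⟨r, l1, l, -, h1, -, h2⟩
  · rw [h1, hb]
  · rw [h2, enc_pv_sgn]
    rw [h1] at hb
    unfold pv at hb
    by_cases hur : u = r
    · simp [hur] at hb
    · simpa [hur] using hb
  · rw [h2, enc_pv_frc]
    rw [h1] at hb
    unfold pv at hb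
    by_cases hur : u = r
    · simpa [hur] using hb
    · simpa [hur] using hb

private theorem EncD.fals {s κ : ℕ} {c : List (Bool × Fin s × Option Bool)}
    {T : Term (V × U)} {ρ ρ' : V → St U K} {ls : List (Fin κ)}
    (h : EncD hK r₂ L c T ρ ρ' ls) (T' : Term (V × U))
    (hT : ¬ NonFals ρ T') : ¬ NonFals ρ' T' := by
  unfold NonFals at hT ⊢
  push Not at hT ⊢
  obtain ⟨x, hx, h1⟩ := hT
  exact ⟨x, hx, h.pv_some h1⟩

private theorem EncD.live {s κ : ℕ} : ∀ {c : List (Bool × Fin s × Option Bool)}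
    {T : Term (V × U)} {ρ ρ' : V → St U K} {ls : List (Fin κ)}, EncD hK r₂ L c T ρ ρ' ls →
    ∀ x ∈ T.l, ρ x.1 = .inl x.2 → ρ' x.1 = .inl x.2 ∨ ∃ l, ρ' x.1 = sgn hK (T.a x) x.2 l
  | [], T, ρ, ρ', ls, h, x, _, hx => by
    obtain ⟨-, rfl⟩ := h
    exact Or.inl hx
  | (nw, i, some π) :: c, T, ρ, ρ', ls, h, x, hxT, hx => by
    obtain ⟨l, ls', T', y, ρ'', l2, -, h1, -, hy, hE, -, -, rfl⟩ := h
    rcases h1 with ⟨-, -, h1⟩ | ⟨-, rfl⟩
    · exact absurd (pv_none.2 hx) (h1 x hxT)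
    · by_cases hv : x.1 = y.1
      · have h2 : x.2 = y.2 := by
          rw [hv, hy] at hx
          simpa using hx.symm
        have h3 : x = y := Prod.ext hv h2
        subst h3
        exact Or.inr ⟨_, by rw [Function.update_self]⟩
      · rw [Function.update_of_ne hv]
        refine EncD.live hE x hxT ?_
        rw [Function.update_of_ne hv]
        exact hx
  | (nw, i, none) :: c, T, ρ, ρ', ls, h, x, hxT, hx => by
    obtain ⟨l, ls', T', y, ρ'', l1, -, -, h1, -, -, -, -, -, -⟩ := h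
    exact absurd (pv_none.2 hx) (h1 x hxT)

private theorem EncD.nonFals {s κ : ℕ} {c : List (Bool × Fin s × Option Bool)}
    {T : Term (V × U)} {ρ ρ' : V → St U K} {ls : List (Fin κ)}
    (h : EncD hK r₂ L c T ρ ρ' ls) (hT : NonFals ρ T) : NonFals ρ' T := by
  intro x hx
  cases hp : pv (ρ x.1) x.2 with
  | some b => rw [h.pv_some hp, ← hp]; exact hT x hx
  | none =>
    rcases h.live x hx (pv_none.1 hp) with h1 | ⟨l, h1⟩
    · rw [pv_none.2 h1]; simp
    · rw [h1, enc_pv_sgn, if_pos rfl]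
      simp

private theorem EncD.nonFals' {s κ : ℕ} {c : List (Bool × Fin s × Option Bool)}
    {T T' : Term (V × U)} {ρ ρ' : V → St U K} {ls : List (Fin κ)}
    (h : EncD hK r₂ L c T ρ ρ' ls) (hT : NonFals ρ T') (hN : NoLive ρ T') : NonFals ρ' T' := by
  intro x hx
  cases hp : pv (ρ x.1) x.2 with
  | some b => rw [h.pv_some hp, ← hp]; exact hT x hx
  | none => exact absurd hp (hN x hx)

/-- the state of the column read in a star step -/
private theorem EncD.self {s κ : ℕ} (hκ : 0 < κ) {c : List (Bool × Fin s × Option Bool)}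
    {T : Term (V × U)} {ρ ρ' : V → St U K} {ls : List (Fin κ)}
    (h : EncD hK r₂ L c T ρ ρ' ls) {v : V} {b : Bool} {r : U} (hv : ρ v = sgn hK b r 0) :
    ∃ l < κ, ρ' v = sgn hK b r l := by
  rcases h.ext v with h1 | ⟨r', b', l, -, h1, -⟩ | ⟨r', l1, l, hl, h1, -, h2⟩
  · exact ⟨0, hκ, by rw [h1, hv]⟩
  · rw [hv] at h1
    exact absurd h1 (enc_sgn_ne_inl hK)
  · rw [hv] at h1
    cases b
    · simp only [sgn, Bool.false_eq_true, if_false, frc, Nat.zero_mod, Sum.inr.injEq,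
        Sum.inl.injEq, Prod.mk.injEq] at h1
      obtain ⟨h3, h4⟩ := h1
      subst h3
      refine ⟨l, hl, ?_⟩
      rw [h2, ← h4]
      simp [sgn]
    · simp [sgn, ded] at h1

private theorem EncD.self_ded {s κ : ℕ} {c : List (Bool × Fin s × Option Bool)}
    {T : Term (V × U)} {ρ ρ' : V → St U K} {ls : List (Fin κ)}
    (h : EncD hK r₂ L c T ρ ρ' ls) {v : V} (hv : ρ v = ded hK 0) : ρ' v = ded hK 0 := by
  rcases h.ext v with h1 | ⟨r', b', l, -, h1, -⟩ | ⟨r', l1, l, hl, h1, -, h2⟩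
  · rw [h1, hv]
  · rw [hv] at h1; simp [ded] at h1
  · rw [hv] at h1; simp [ded] at h1

private theorem enc_bd {m κ l1 l : ℕ} (hm : 0 < m) (h3 : 2 * κ * m ≤ r₂)
    (h4 : 2 * κ * m ≤ 4 * K) (hl1 : l1 * r₂ < 4 * K) (hl : l < κ) :
    (l1 * κ + l) * m < 4 * K ∧ l1 * κ + l < 4 * K := by
  have e1 : l1 * (2 * κ * m) ≤ l1 * r₂ := Nat.mul_le_mul_left _ h3
  have e2 : l1 * (2 * κ * m) = 2 * (l1 * κ * m) := by ring
  have e3 : (l + 1) * m ≤ κ * m := Nat.mul_le_mul_right m hl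
  have e4 : 2 * κ * m = 2 * (κ * m) := by ring
  have e5 : (l + 1) * m = l * m + m := by ring
  have e6 : (l1 * κ + l) * m = l1 * κ * m + l * m := by ring
  have e7 : l1 * κ + l ≤ (l1 * κ + l) * m := Nat.le_mul_of_pos_right _ hm
  constructor <;> omega

private theorem EncD.inj {s κ m : ℕ} (hm : 0 < m) (hκ : 0 < κ) (h1 : κ * κ ≤ K)
    (h3 : 2 * κ * m ≤ r₂) (h4 : 2 * κ * m ≤ 4 * K) :
    ∀ {c : List (Bool × Fin s × Option Bool)} {T : Term (V × U)}
    {ρ₁ ρ₂ ρ' : V → St U K} {ls₁ ls₂ : List (Fin κ)}, EncD hK r₂ L c T ρ₁ ρ' ls₁ →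
    EncD hK r₂ L c T ρ₂ ρ' ls₂ → ρ₁ = ρ₂ ∧ ls₁ = ls₂
  | [], T, ρ₁, ρ₂, ρ', ls₁, ls₂, h₁, h₂ => by
    obtain ⟨rfl, rfl⟩ := h₁
    obtain ⟨rfl, rfl⟩ := h₂
    exact ⟨rfl, rfl⟩
  | (nw, i, some π) :: c, T, ρ₁, ρ₂, ρ', ls₁, ls₂, h₁, h₂ => by
    have key : ∀ {ρ : V → St U K} {ls : List (Fin κ)} {l : Fin κ} {ls' : List (Fin κ)}
        {T' : Term (V × U)} {x : V × U} {ρ'' : V → St U K} {l2 v : ℕ}, ls = l :: ls' →
        fstV L ρ = some (T', v) → T'.l[i.val]? = some x → ρ x.1 = .inl x.2 →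
        EncD hK r₂ L c T' (Function.update ρ x.1 (sgn hK (!π) x.2 0)) ρ'' ls' →
        l2 < κ → ρ'' x.1 = sgn hK (!π) x.2 l2 →
        ρ' = Function.update ρ'' x.1 (sgn hK (T'.a x) x.2 (l.val * κ + l2)) →
        fstV L ρ' = some (T', v) := by
      intro ρ ls l ls' T' x ρ'' l2 v e1 e2 e3 e4 e5 e6 e7 e8
      have hE : EncD hK r₂ L ((false, i, some π) :: c) T' ρ ρ' ls :=
        ⟨l, ls', T', x, ρ'', l2, e1, Or.inr ⟨rfl, rfl⟩, e3, e4, e5, e6, e7, e8⟩
      exact enc_fstV_ext e2 (hE.nonFals (enc_fstV_some e2).2) fun T' hT' => hE.fals T' hT'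
    obtain ⟨l, ls', T', x, ρ'', l2, a1, a2, a3, a4, a5, a6, a7, a8⟩ := h₁
    obtain ⟨n, ms', S', y, σ'', n2, b1, b2, b3, b4, b5, b6, b7, b8⟩ := h₂
    have hTS : T' = S' := by
      rcases a2 with ⟨rfl, ⟨v, a2⟩, -⟩ | ⟨rfl, rfl⟩
      · rcases b2 with ⟨-, ⟨v', b2⟩, -⟩ | ⟨h, -⟩
        · have h1 := key a1 a2 a3 a4 a5 a6 a7 a8
          have h2 := key b1 b2 b3 b4 b5 b6 b7 b8
          rw [h1] at h2
          simp only [Option.some.injEq, Prod.mk.injEq] at h2
          exact h2.1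
        · exact absurd h (by simp)
      · rcases b2 with ⟨h, -⟩ | ⟨-, rfl⟩
        · exact absurd h (by simp)
        · rfl
    subst hTS
    have hxy : x = y := by
      rw [a3] at b3
      simpa using b3
    subst hxy
    have hlt : ∀ (l : Fin κ) (l2 : ℕ), l2 < κ → l.val * κ + l2 < K := by
      intro l l2 hl2
      have e1 : (l.val + 1) * κ ≤ κ * κ := Nat.mul_le_mul_right κ l.isLt
      rw [Nat.add_mul, one_mul] at e1
      omega
    have hl : l = n ∧ l2 = n2 := by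
      have := congrFun (a8.symm.trans b8) x.1
      rw [Function.update_self, Function.update_self] at this
      have e1 := enc_sgn_inj hK (hlt l l2 a6) (hlt n n2 b6) this
      obtain ⟨e2, e3⟩ := enc_divmod a6 b6 e1
      exact ⟨Fin.ext e2, e3⟩
    obtain ⟨rfl, rfl⟩ := hl
    have h2 : ρ'' = σ'' := by
      funext v
      by_cases hv : v = x.1
      · subst hv
        rw [a7, b7]
      · have := congrFun (a8.symm.trans b8) v
        rwa [Function.update_of_ne hv, Function.update_of_ne hv] at this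
    subst h2
    obtain ⟨h3', h4'⟩ := EncD.inj hm hκ h1 h3 h4 a5 b5
    refine ⟨?_, by rw [a1, b1, h4']⟩
    funext v
    by_cases hv : v = x.1
    · subst hv
      rw [a4, b4]
    · have := congrFun h3' v
      rwa [Function.update_of_ne hv, Function.update_of_ne hv] at this
  | (nw, i, none) :: c, T, ρ₁, ρ₂, ρ', ls₁, ls₂, h₁, h₂ => by
    have key : ∀ {ρ : V → St U K} {ls : List (Fin κ)} {T' : Term (V × U)} {v : ℕ},
        EncD hK r₂ L ((nw, i, none) :: c) T ρ ρ' ls →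
        fstV L ρ = some (T', v) → NoLive ρ T' →
        fstV L ρ' = some (T', v) := by
      intro ρ ls T' v hE e2 e3
      exact enc_fstV_ext e2 (hE.nonFals' (enc_fstV_some e2).2 e3) fun T' hT' => hE.fals T' hT'
    obtain ⟨l, ls', T', x, ρ'', l1, a1, ⟨v, a2⟩, a3, a4, a5, a6, a7, a8, a9⟩ := id h₁
    obtain ⟨n, ms', S', y, σ'', n1, b1, ⟨v', b2⟩, b3, b4, b5, b6, b7, b8, b9⟩ := id h₂
    have hTS : T' = S' := by
      have e1 := key h₁ a2 a4
      have e2 := key h₂ b2 b4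
      rw [e1] at e2
      simp only [Option.some.injEq, Prod.mk.injEq] at e2
      exact e2.1
    subst hTS
    have hxy : x = y := by
      rw [a5] at b5
      simpa using b5
    subst hxy
    have hl : l1 = n1 ∧ l = n := by
      have := congrFun (a9.symm.trans b9) x.1
      rw [Function.update_self, Function.update_self] at this
      have e1 := enc_frc_inj hK (enc_bd hm h3 h4 a7 l.isLt).2 (enc_bd hm h3 h4 b7 n.isLt).2 this
      obtain ⟨e2, e3⟩ := enc_divmod l.isLt n.isLt e1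
      exact ⟨Fin.ext e2, Fin.ext e3⟩
    obtain ⟨rfl, rfl⟩ := hl
    have h2 : ρ'' = σ'' := by
      funext v
      by_cases hv : v = x.1
      · subst hv
        rw [a8.self_ded (Function.update_self ..), b8.self_ded (Function.update_self ..)]
      · have := congrFun (a9.symm.trans b9) v
        rwa [Function.update_of_ne hv, Function.update_of_ne hv] at this
    subst h2
    obtain ⟨h3', h4'⟩ := EncD.inj hm hκ h1 h3 h4 a8 b8
    refine ⟨?_, by rw [a1, b1, h4']⟩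
    funext v
    by_cases hv : v = x.1
    · subst hv
      rw [a6, b6]
    · have := congrFun h3' v
      rwa [Function.update_of_ne hv, Function.update_of_ne hv] at this

private theorem exists_encD {s κ : ℕ} (hκ : 0 < κ) (hs : ∀ p ∈ L, p.1.l.length ≤ s) :
    ∀ (k : ℕ) (T : Term (V × U)) (ρ : V → St U K) (ls : List (Fin κ)), T.l.length ≤ s →
      ls.length = k → BadD hK r₂ L k T ρ →
      ∃ (c : List (Bool × Fin s × Option Bool)) (ρ' : V → St U K), c.length = k ∧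
        EncD hK r₂ L c T ρ ρ' ls
  | 0, T, ρ, ls, _, hls, _ => by
    rw [List.length_eq_zero_iff] at hls
    subst hls
    exact ⟨[], ρ, rfl, rfl, rfl⟩
  | k + 1, T, ρ, [], _, hls, _ => by simp at hls
  | k + 1, T, ρ, l :: ls, hT, hls, h => by
    obtain ⟨T', x, h2, h⟩ := h
    obtain ⟨i, hi, hx⟩ := List.getElem_of_mem h2
    have hx' : T'.l[i]? = some x := by rw [List.getElem?_eq_getElem hi, hx]
    rcases h with ⟨h1, h3, π, h4⟩ | ⟨⟨v, h1⟩, h3, h4, ⟨l1, h5, h6⟩, h7⟩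
    · have hT' : T'.l.length ≤ s := by
        rcases h1 with ⟨⟨v, h1⟩, -⟩ | rfl
        · exact hs _ (enc_fstV_some h1).1
        · exact hT
      obtain ⟨c, ρ'', hc, hE⟩ := exists_encD hκ hs k T' _ ls hT' (by simpa using hls) h4
      obtain ⟨l2, hl2, hl2'⟩ := hE.self hκ (Function.update_self ..)
      rcases h1 with ⟨h1, h1'⟩ | h1
      · exact ⟨(true, ⟨i, by omega⟩, some π) :: c, _, by simp [hc], l, ls, T', x, ρ'', l2, rfl,
          Or.inl ⟨rfl, h1, h1'⟩, hx', h3, hE, hl2, hl2', rfl⟩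
      · exact ⟨(false, ⟨i, by omega⟩, some π) :: c, _, by simp [hc], l, ls, T', x, ρ'', l2, rfl,
          Or.inr ⟨rfl, h1⟩, hx', h3, hE, hl2, hl2', rfl⟩
    · have hT' : T'.l.length ≤ s := hs _ (enc_fstV_some h1).1
      obtain ⟨c, ρ'', hc, hE⟩ := exists_encD hκ hs k T' _ ls hT' (by simpa using hls) h7
      exact ⟨(true, ⟨i, by omega⟩, none) :: c, _, by simp [hc], l, ls, T', x, ρ'', l1, rfl,
        ⟨v, h1⟩, h3, h4, hx', h5, h6, hE, rfl⟩

private theorem EncD.vp {s κ m : ℕ} (hm : 0 < m) (hκ : 0 < κ) (h1 : κ * κ ≤ K)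
    (h2 : κ * κ * m < 4 * K) (h3 : 2 * κ * m ≤ r₂) (h4 : 2 * κ * m ≤ 4 * K)
    {c : List (Bool × Fin s × Option Bool)} {T : Term (V × U)}
    {ρ ρ' : V → St U K} {ls : List (Fin κ)} (h : EncD hK r₂ L c T ρ ρ' ls) :
    Gv.vp m ρ' = Gv.vp m ρ := by
  funext v
  rcases h.ext v with e1 | ⟨r, b, l, hl, e1, e2⟩ | ⟨r, l1, l, hl, e1, e2, e3⟩
  · simp only [Gv.vp, e1]
  · simp only [Gv.vp, e1, e2]
    cases b
    · simp only [sgn, Bool.false_eq_true, if_false, frc]
      rw [if_neg]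
      rw [Nat.mod_eq_of_lt (by omega)]
      have : l * m ≤ κ * κ * m := Nat.mul_le_mul_right m hl.le
      omega
    · simp [sgn, ded]
  · simp only [Gv.vp, e1, e3, frc]
    obtain ⟨f1, f2⟩ := enc_bd hm h3 h4 e2 hl
    rw [if_neg, if_neg]
    · have g1 : m ≤ 2 * κ * m := Nat.le_mul_of_pos_left m (by omega)
      have g2 : l1.val * m ≤ l1.val * r₂ := Nat.mul_le_mul_left _ (g1.trans h3)
      omega
    · rw [Nat.mod_eq_of_lt f2]
      omega

/-- counting by encoding -/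
theorem card_badD [Fintype V] [Fintype U] (hK : 0 < K) {m r₂ κ s : ℕ} (hm : 0 < m) (hκ : 0 < κ)
    (h1 : κ * κ ≤ K) (h2 : κ * κ * m < 4 * K) (h3 : 2 * κ * m ≤ r₂) (h4 : 2 * κ * m ≤ 4 * K)
    (L : List (Term (V × U) × ℕ)) (hs : ∀ p ∈ L, p.1.l.length ≤ s)
    (T₀ : Term (V × U)) (hT₀ : T₀.l.length ≤ s) (k : ℕ) (vp₀ : V → Option (U × Fin (4 * K))) :
    Nat.card {ρ : V → St U K // vp m ρ = vp₀ ∧ BadD hK r₂ L k T₀ ρ} * κ ^ k ≤
      Nat.card {ρ : V → St U K // vp m ρ = vp₀} * (6 * s) ^ k := by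
  classical
  have hex : ∀ (ρ : {ρ : V → St U K // vp m ρ = vp₀ ∧ BadD hK r₂ L k T₀ ρ})
      (ls : List.Vector (Fin κ) k),
      ∃ (c : List.Vector (Bool × Fin s × Option Bool) k) (ρ' : {ρ : V → St U K // vp m ρ = vp₀}),
        EncD hK r₂ L c.1 T₀ ρ.1 ρ'.1 ls.1 := by
    intro ρ ls
    obtain ⟨c, ρ', e1, e2⟩ := exists_encD hκ hs k T₀ ρ.1 ls.1 hT₀ ls.2 ρ.2.2
    exact ⟨⟨c, e1⟩, ⟨ρ', (e2.vp hm hκ h1 h2 h3 h4).trans ρ.2.1⟩, e2⟩
  choose c ρ' hE using hex
  have hinj : Function.Injective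
      (fun p : {ρ : V → St U K // vp m ρ = vp₀ ∧ BadD hK r₂ L k T₀ ρ} × List.Vector (Fin κ) k =>
        (ρ' p.1 p.2, c p.1 p.2)) := by
    rintro ⟨ρ₁, ls₁⟩ ⟨ρ₂, ls₂⟩ h
    simp only [Prod.mk.injEq] at h
    have e1 := hE ρ₁ ls₁
    have e2 := hE ρ₂ ls₂
    rw [h.1, h.2] at e1
    obtain ⟨e3, e4⟩ := EncD.inj hm hκ h1 h3 h4 e1 e2
    exact Prod.ext (Subtype.ext e3) (Subtype.ext e4)
  have hcard := Nat.card_le_card_of_injective _ hinj
  rw [Nat.card_prod, Nat.card_prod] at hcard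
  have e1 : Nat.card (List.Vector (Fin κ) k) = κ ^ k := by
    rw [Nat.card_eq_fintype_card, card_vector, Fintype.card_fin]
  have e2 : Nat.card (List.Vector (Bool × Fin s × Option Bool) k) = (6 * s) ^ k := by
    rw [Nat.card_eq_fintype_card, card_vector, Fintype.card_prod, Fintype.card_prod,
      Fintype.card_fin, Fintype.card_option, Fintype.card_bool]
    congr 1
    ring
  rw [e1, e2] at hcard
  exact hcard

end Pool.Agent.Lib.MP_2b5695_lc.Gv
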