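import Pool.Agent.Lib.MP_2b5695_lc.Gv.Hid

/-!
Locality of the computations.
-/

namespace Pool.Agent.Lib.MP_2b5695_lc.Gv

/-- the list of the queries depends only on the answers to them -/
theorem qrs_congr {P : Prog} {A A' : Set (List Bool)} :
    ∀ (t pc : ℕ) (stk : ℕ → List Bool), (∀ q ∈ qrs P A t pc stk, (q ∈ A ↔ q ∈ A')) →
      qrs P A' t pc stk = qrs P A t pc stk
  | 0, pc, stk, _ => rfl
  | t + 1, pc, stk, h => by
    have ih := fun pc stk => qrs_congr (P := P) (A := A) (A' := A') t pc stk
    unfold qrs
    unfold qrs at h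
    cases hP : P[pc]? with
    | none => rfl
    | some ins =>
      rw [hP] at h
      cases ins with
      | push s b l => exact ih _ _ h
      | pop s l₀ l₁ e =>
        dsimp only at h ⊢
        cases hs : stk s with
        | nil => rw [hs] at h; exact ih _ _ h
        | cons b w =>
          rw [hs] at h
          cases b
          · exact ih _ _ h
          · exact ih _ _ h
      | query s y n =>
        dsimp only at h ⊢
        have h1 := h (stk s) (by simp)
        by_cases hA : stk s ∈ A
        · rw [if_pos hA, if_pos (h1.1 hA)]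
          exact congrArg (List.cons (stk s)) (ih _ _ fun q hq => h q (by simp [hA, hq]))
        · rw [if_neg hA, if_neg (fun hh => hA (h1.2 hh))]
          exact congrArg (List.cons (stk s)) (ih _ _ fun q hq => h q (by simp [hA, hq]))
      | present s y n => exact ih _ _ h
      | halt b => rfl

variable {Γ : Type} {H : Hid Γ} {d : Data} {x : ℕ}

/-- the bounds for the two runs -/
theorem small_bnd {m y : ℕ} (hm : Small d x m) (hy : y ≤ x) :
    size [Nat.bits x, Nat.bits y] + d.q.eval (size [Nat.bits x, Nat.bits y]) < m ∧
      size [Nat.bits y] + d.r.eval (Nat.bits y).length < m ∧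
      d.q.eval (size [Nat.bits x, Nat.bits y]) + d.r.eval (Nat.bits y).length < m := by
  have hyl := bits_length_mono hy
  have e1 : size [Nat.bits x, Nat.bits y] ≤ (Nat.bits x).length + (Nat.bits x).length := by
    simp [size]; omega
  have e2 := eval_mono d.q e1
  have e3 := eval_mono d.r hyl
  have e4 : size [Nat.bits y] = (Nat.bits y).length := by simp [size]
  unfold Small at hm
  refine ⟨by omega, by omega, by omega⟩

/-- a run does not change if the worlds agree on the cells asked for -/
theorem run_agree {X X' : Set (List Bool)} {J J' : Set Γ} {m : ℕ}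
    (hX : ∀ w : List Bool, w.length < m → (w ∈ X ↔ w ∈ X'))
    {P : Prog} {t : ℕ} {v : List (List Bool)} (ht : size v + t < m)
    (h : ∀ w ∈ falsePart (qrs P (join X (H.fp J)) t 0 (load v)), ∀ c, H.cell w = some c →
      (c ∈ J ↔ c ∈ J')) :
    out P (join X' (H.fp J')) t 0 (load v) = out P (join X (H.fp J)) t 0 (load v) ∧
      qrs P (join X' (H.fp J')) t 0 (load v) = qrs P (join X (H.fp J)) t 0 (load v) := by
  have key : ∀ q ∈ qrs P (join X (H.fp J)) t 0 (load v),
      (q ∈ join X (H.fp J) ↔ q ∈ join X' (H.fp J')) := by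
    intro q hq
    have hql := qrs_mem_length t 0 (load v) (size v) (load_length_le v) q hq
    rcases q with _ | ⟨a, w⟩
    · simp
    · simp only [List.length_cons] at hql
      cases a
      · rw [false_mem_join, false_mem_join]
        have hw := h w (mem_falsePart.2 hq)
        unfold Hid.fp
        simp only [Set.mem_ofPred_eq]
        refine or_congr Iff.rfl (exists_congr fun c => ?_)
        constructor
        · rintro ⟨h1, h2⟩
          exact ⟨h1, fun h3 => h2 ((hw c h1).2 h3)⟩
        · rintro ⟨h1, h2⟩
          exact ⟨h1, fun h3 => h2 ((hw c h1).1 h3)⟩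
      · rw [true_mem_join, true_mem_join]
        exact hX w (by omega)
  exact ⟨out_congr _ _ _ key, qrs_congr _ _ _ key⟩

/-- the computations for `y` do not change if the world changes only at cells that are not asked
for, and `X` only at long words -/
theorem run_congr (hps : d.ps = []) {X X' : Set (List Bool)} {J J' : Set Γ} {m y : ℕ}
    (hm : Small d x m) (hy : y ≤ x) (hX : ∀ w : List Bool, w.length < m → (w ∈ X ↔ w ∈ X'))
    (h : ∀ c ∈ clist H d X x J y, (c ∈ J ↔ c ∈ J')) :
    wlist H d X' x J' y = wlist H d X x J y ∧ clist H d X' x J' y = clist H d X x J y ∧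
      (d.feas (join X' (H.fp J')) x y ↔ d.feas (join X (H.fp J)) x y) ∧
      d.cost (join X' (H.fp J')) y = d.cost (join X (H.fp J)) y ∧
      valT H d X' x J' y = valT H d X x J y := by
  obtain ⟨b1, b2, -⟩ := small_bnd hm hy
  obtain ⟨o1, q1⟩ := run_agree (H := H) (J := J) (J' := J') hX (P := d.Q) b1
    (fun w hw c hc => h c (List.mem_filterMap.2 ⟨w, by unfold wlist; simp [hw], hc⟩))
  obtain ⟨o2, q2⟩ := run_agree (H := H) (J := J) (J' := J') hX (P := d.R) b2
    (fun w hw c hc => h c (List.mem_filterMap.2 ⟨w, by unfold wlist; simp [hw], hc⟩))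
  have hw : wlist H d X' x J' y = wlist H d X x J y := by
    unfold wlist
    rw [q1, q2]
  have hf : d.feas (join X' (H.fp J')) x y ↔ d.feas (join X (H.fp J)) x y := by
    unfold Data.feas
    rw [hps]
    unfold sigE
    rw [o1]
  have hc : d.cost (join X' (H.fp J')) y = d.cost (join X (H.fp J)) y := by
    unfold Data.cost
    rw [o2]
  refine ⟨hw, by unfold clist; rw [hw], hf, hc, ?_⟩
  unfold valT
  by_cases hh : d.feas (join X (H.fp J)) x y
  · rw [if_pos hh, if_pos (hf.2 hh), hc]
  · rw [if_neg hh, if_neg (fun h => hh (hf.1 h))]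

/-- the words asked are short and few -/
theorem wlist_length {X : Set (List Bool)} {J : Set Γ} {m y : ℕ}
    (hm : Small d x m) (hy : y ≤ x) :
    (∀ v ∈ wlist H d X x J y, v.length < m) ∧ (wlist H d X x J y).length < m := by
  obtain ⟨b1, b2, b3⟩ := small_bnd hm hy
  constructor
  · intro v hv
    have key : ∀ {P : Prog} {t : ℕ} {u : List (List Bool)}, size u + t < m →
        v ∈ falsePart (qrs P (join X (H.fp J)) t 0 (load u)) → v.length < m := by
      intro P t u hlt hq
      rw [mem_falsePart] at hq
      have := qrs_mem_length t 0 (load u) (size u) (load_length_le u) _ hq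
      simp at this
      omega
    unfold wlist at hv
    rw [List.mem_append] at hv
    rcases hv with hv | hv
    · exact key b1 hv
    · exact key b2 hv
  · unfold wlist
    rw [List.length_append]
    have k1 := (length_falsePart_le (qrs d.Q (join X (H.fp J))
      (d.q.eval (size [Nat.bits x, Nat.bits y])) 0
      (load [Nat.bits x, Nat.bits y]))).trans (qrs_length_le _ _ _)
    have k2 := (length_falsePart_le (qrs d.R (join X (H.fp J)) (d.r.eval (Nat.bits y).length) 0
      (load [Nat.bits y]))).trans (qrs_length_le _ _ _)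
    omega

/-- `optT` is optimal -/
theorem optT_spec {X : Set (List Bool)} {J : Set Γ} :
    optT H d X x J ≤ x ∧ d.feas (join X (H.fp J)) x (optT H d X x J) ∧
      ∀ y, valT H d X x J y ≤ valT H d X x J (optT H d X x J) := by
  unfold optT
  obtain ⟨h1, h2⟩ := d.opt_spec (join X (H.fp J)) x
  refine ⟨d.opt_le _ _, h1, fun y => ?_⟩
  unfold valT
  rw [if_pos h1]
  by_cases hh : d.feas (join X (H.fp J)) x y
  · rw [if_pos hh]
    exact Nat.add_le_add_right (h2 y hh) 1
  · rw [if_neg hh]
    exact Nat.zero_le _

end Pool.Agent.Lib.MP_2b5695_lc.Gv
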