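import Pool.Agent.Lib.MP_2b5695_lc.Gv.Events
import Pool.Agent.Lib.MP_2b5695_lc.Gv.HidRun
import Pool.Agent.Lib.MP_2b5695_lc.Gv.Enc
import Pool.Agent.Lib.MP_2b5695_lc.Gv.Pos

/-!
Counting the configurations with a long path.
-/

namespace Pool.Agent.Lib.MP_2b5695_lc.Gv

variable {par : ℕ → SP} {cc : ℕ → ℕ}

private lemma gb_num {m r L K c : ℕ} (hm : 0 < m) (hr : r = c + 24 * (m * m)) (hrL : r < L)
    (hLK : 256 * (L * L * L) ≤ K) :
    (12 * m) * (12 * m) ≤ K ∧ (12 * m) * (12 * m) * m < 4 * K ∧ 2 * (12 * m) * m ≤ r ∧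
      2 * (12 * m) * m ≤ 4 * K := by
  have h1 : 24 * (m * m) < L := by omega
  have h2 : m ≤ m * m := Nat.le_mul_self m
  have h3 : m < L := by omega
  have hL : 0 < L := by omega
  have h4 : L ≤ L * L := Nat.le_mul_self L
  have h5 : L * L ≤ L * L * L := Nat.le_mul_of_pos_right _ hL
  have h6 : m * m * m ≤ L * L := Nat.mul_le_mul (by omega) h3.le
  have h7 : 0 < L * L * L := by positivity
  refine ⟨?_, ?_, ?_, ?_⟩
  · have : (12 * m) * (12 * m) = 144 * (m * m) := by ring
    omega
  · have : (12 * m) * (12 * m) * m = 144 * (m * m * m) := by ring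
    omega
  · have : 2 * (12 * m) * m = 24 * (m * m) := by ring
    omega
  · have : 2 * (12 * m) * m = 24 * (m * m) := by ring
    omega

theorem card_GB (hp : ParOK par cc) (W : Wld par) {s j : ℕ} {d : Data} {x : ℕ}
    (hw : Win par cc s j d x) :
    Nat.card {ρ : (par s).Col → St (par s).U (par s).K // GB par cc W s j d x ρ} *
      2 ^ (3 * mx j x) ≤ Nat.card ((par s).Col → St (par s).U (par s).K) := by
  classical
  have hm : 0 < mx j x := lt_of_le_of_lt (Nat.zero_le _) hw.h1
  obtain ⟨n1, n2, n3, n4⟩ := gb_num (r := rx cc j x) (c := cc j) hm rfl hw.h2 (hp.LK s)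
  have : Finite (par s).Col := instFinCol (par s)
  have : Finite (par s).U := inferInstance
  have : Fintype (par s).Col := Fintype.ofFinite _
  have : Fintype (par s).U := Fintype.ofFinite _
  have : Finite (St (par s).U (par s).K) := by unfold St; infer_instance
  have key := card_of_fiber
    (Ω := (par s).Col → St (par s).U (par s).K)
    (F := (par s).Col → Option ((par s).U × Fin (4 * (par s).K)))
    (vp (mx j x))
    (fun v₀ ρ => BadD (par s).hK (rx cc j x) (lst par W s d (XP par cc W s (mx j x) v₀) x)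
      (3 * mx j x) ⟨[], fun _ => false⟩ ρ)
    ((12 * mx j x) ^ (3 * mx j x)) ((6 * mx j x) ^ (3 * mx j x))
    (by
      intro v₀
      refine card_badD (par s).hK hm (by omega) n1 n2 n3 n4 _ ?_ _ (Nat.zero_le _) _ v₀
      intro p hp
      obtain ⟨y, hy, β, rfl⟩ := (mem_lst par).1 hp
      have h1 := (wlist_length (H := HW par) (d := d)
        (X := XP par cc W s (mx j x) v₀) (J := Jst par W s β) hw.small hy).2
      have h2 : (toSt par s (clist (HW par) d (XP par cc W s (mx j x) v₀) x (Jst par W s β) y)).length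
          ≤ (wlist (HW par) d (XP par cc W s (mx j x) v₀) x (Jst par W s β) y).length := by
        unfold toSt clist
        exact (List.length_filterMap_le _ _).trans (List.length_filterMap_le _ _)
      exact (h2.trans h1.le))
  have e : (12 * mx j x) ^ (3 * mx j x) = 2 ^ (3 * mx j x) * (6 * mx j x) ^ (3 * mx j x) := by
    rw [← mul_pow]
    congr 1
    ring
  rw [e, ← mul_assoc] at key
  exact Nat.le_of_mul_le_mul_right key (by positivity)

end Pool.Agent.Lib.MP_2b5695_lc.Gv
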