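import Pool.Agent.Lib.MP_2b5695_lc.Gv.World

/-!
Every group contains a star; some members of the groups have no dead child.
-/

namespace Pool.Agent.Lib.MP_2b5695_lc.Gv

/-- every group contains a star -/
def ST (σ : SP) (ρ : σ.Col → St σ.U σ.K) : Prop :=
  ∀ (p : Nd σ.U σ.k) (u' : σ.U'), ∃ (g : Fin σ.g) (r : σ.U), ρ (p, (u', g)) = .inl r

/-- no column is dead (`k = 0`); every group of parents contains one without a dead child -/
def NDk (w g K : ℕ) : (k : ℕ) →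
    (Nd (Ut (Fin w) (Fin g) (k - 1) × Fin g) (k + 1) →
      St (Ut (Fin w) (Fin g) (k - 1) × Fin g) K) → Prop
  | 0, ρ => ∀ v l, ρ v ≠ .inr (.inr l)
  | k + 1, ρ => ∀ (p : Nd (Ut (Fin w) (Fin g) k × Fin g) k) (u' : Ut (Fin w) (Fin g) k),
      ∃ g₁ : Fin g, ∀ u l, ρ ((p, (u', g₁)), u) ≠ .inr (.inr l)

/-- see `NDk` -/
def ND (σ : SP) (ρ : σ.Col → St σ.U σ.K) : Prop := NDk σ.w σ.g σ.K σ.k ρ

private theorem CST_ub {Ω I : Type} [Finite Ω] (M : ℕ) (s : Finset I) (B : I → Ω → Prop) (a c : ℕ)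
    (ha : 0 < a) (h : ∀ i ∈ s, Nat.card {ω // B i ω} * a ≤ Nat.card Ω * c)
    (hm : M * s.card * c ≤ a) : M * Nat.card {ω // ∃ i ∈ s, B i ω} ≤ Nat.card Ω := by
  classical
  have := Fintype.ofFinite Ω
  have h1 : Nat.card {ω // ∃ i ∈ s, B i ω} ≤ ∑ i ∈ s, Nat.card {ω // B i ω} := by
    simp only [Nat.card_eq_fintype_card, Fintype.card_subtype]
    refine le_trans (Finset.card_le_card ?_) Finset.card_biUnion_le
    intro ω hω
    rw [Finset.mem_filter] at hω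
    obtain ⟨-, i, hi, hB⟩ := hω
    rw [Finset.mem_biUnion]
    exact ⟨i, hi, by rw [Finset.mem_filter]; exact ⟨Finset.mem_univ _, hB⟩⟩
  have h2 : (∑ i ∈ s, Nat.card {ω // B i ω}) * a ≤ s.card * (Nat.card Ω * c) := by
    rw [Finset.sum_mul]
    refine (Finset.sum_le_sum h).trans ?_
    rw [Finset.sum_const, smul_eq_mul]
  refine Nat.le_of_mul_le_mul_right ?_ ha
  calc M * Nat.card {ω // ∃ i ∈ s, B i ω} * a
      ≤ M * (∑ i ∈ s, Nat.card {ω // B i ω}) * a := by gcongr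
    _ = M * ((∑ i ∈ s, Nat.card {ω // B i ω}) * a) := by ring
    _ ≤ M * (s.card * (Nat.card Ω * c)) := by gcongr
    _ = (M * s.card * c) * Nat.card Ω := by ring
    _ ≤ a * Nat.card Ω := by gcongr
    _ = Nat.card Ω * a := by ring

private theorem CST_ub' {Ω I : Type} [Finite Ω] [Finite I] (M : ℕ) (B : I → Ω → Prop) (a c : ℕ)
    (ha : 0 < a) (h : ∀ i, Nat.card {ω // B i ω} * a ≤ Nat.card Ω * c)
    (hm : M * Nat.card I * c ≤ a) : M * Nat.card {ω // ∃ i, B i ω} ≤ Nat.card Ω := by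
  classical
  have := Fintype.ofFinite I
  have h1 := CST_ub M (Finset.univ : Finset I) B a c ha (fun i _ => h i)
    (by rw [Finset.card_univ, ← Nat.card_eq_fintype_card]; exact hm)
  simpa using h1

private theorem CST_st {P U' G : Type} [Finite P] [Finite U'] [Finite G] {K : ℕ} (hK : 0 < K)
    (M : ℕ) (hm : M * Nat.card (P × U') * (Nat.card (U' × G) * (4 * K) + K) ^ Nat.card G ≤
      Nat.card (St (U' × G) K) ^ Nat.card G) :
    M * Nat.card {ρ : P × (U' × G) → St (U' × G) K // ∃ i : P × U',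
      ∀ g r, ρ (i.1, (i.2, g)) ≠ .inl r} ≤ Nat.card (P × (U' × G) → St (U' × G) K) := by
  classical
  have := Fintype.ofFinite U'
  have := Fintype.ofFinite G
  have hS : 0 < Nat.card (St (U' × G) K) ^ Nat.card G := by
    have : Nonempty (St (U' × G) K) := ⟨.inr (.inr ⟨0, hK⟩)⟩
    exact pow_pos Nat.card_pos _
  refine CST_ub' M (fun (i : P × U') (ρ : P × (U' × G) → St (U' × G) K) =>
    ∀ g r, ρ (i.1, (i.2, g)) ≠ .inl r) (Nat.card (St (U' × G) K) ^ Nat.card G)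
    ((Nat.card (U' × G) * (4 * K) + K) ^ Nat.card G) hS (fun i => ?_) hm
  have := card_places (V := P × (U' × G)) (S := St (U' × G) K) (G := G)
    (C := Unit) (fun _ g => (i.1, (i.2, g))) (fun _ g g' h => by simpa using h)
    (Set.range (Sum.inr : ((U' × G) × Fin (4 * K)) ⊕ Fin K → St (U' × G) K))
  have eA : Nat.card (Set.range (Sum.inr : ((U' × G) × Fin (4 * K)) ⊕ Fin K →
      St (U' × G) K)) = Nat.card (U' × G) * (4 * K) + K := by
    rw [Nat.card_range_of_injective Sum.inr_injective, Nat.card_sum,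
      Nat.card_prod (U' × G), Nat.card_fin, Nat.card_fin]
  have eU : Nat.card Unit = 1 := Nat.card_unique
  rw [eA, eU, one_mul] at this
  refine le_trans (Nat.mul_le_mul_right _ ?_) this
  refine Nat.card_mono (Set.toFinite {ρ : P × (U' × G) → St (U' × G) K | ∃ _ : Unit,
    ∀ g, ρ (i.1, (i.2, g)) ∈
    Set.range (Sum.inr : ((U' × G) × Fin (4 * K)) ⊕ Fin K → St (U' × G) K)}) ?_
  intro ρ hρ
  refine ⟨(), fun g => ?_⟩
  have h4 := hρ g
  cases h5 : ρ (i.1, (i.2, g)) with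
  | inl r => exact absurd h5 (h4 r)
  | inr y => exact ⟨y, rfl⟩

private theorem CST_nd {P U' G : Type} [Finite P] [Finite U'] [Finite G] {K : ℕ} (hK : 0 < K)
    (M : ℕ) (hm : M * Nat.card (P × U') * (Nat.card (U' × G) * K) ^ Nat.card G ≤
      Nat.card (St (U' × G) K) ^ Nat.card G) :
    M * Nat.card {ρ : (P × (U' × G)) × (U' × G) → St (U' × G) K // ∃ i : P × U',
      ∀ g, ∃ u l, ρ ((i.1, (i.2, g)), u) = .inr (.inr l)} ≤
      Nat.card ((P × (U' × G)) × (U' × G) → St (U' × G) K) := by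
  classical
  have := Fintype.ofFinite U'
  have := Fintype.ofFinite G
  have hS : 0 < Nat.card (St (U' × G) K) ^ Nat.card G := by
    have : Nonempty (St (U' × G) K) := ⟨.inr (.inr ⟨0, hK⟩)⟩
    exact pow_pos Nat.card_pos _
  refine CST_ub' M (fun (i : P × U') (ρ : (P × (U' × G)) × (U' × G) → St (U' × G) K) =>
    ∀ g, ∃ u l, ρ ((i.1, (i.2, g)), u) = .inr (.inr l)) (Nat.card (St (U' × G) K) ^ Nat.card G)
    ((Nat.card (U' × G) * K) ^ Nat.card G) hS (fun i => ?_) hm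
  have := card_places (V := (P × (U' × G)) × (U' × G)) (S := St (U' × G) K) (G := G)
    (C := G → U' × G) (fun c g => ((i.1, (i.2, g)), c g))
    (fun _ g g' h => by
      simp only [Prod.mk.injEq, true_and] at h
      exact h.1)
    (Set.range (fun l : Fin K => (Sum.inr (Sum.inr l) : St (U' × G) K)))
  have eA : Nat.card (Set.range (fun l : Fin K =>
      (Sum.inr (Sum.inr l) : St (U' × G) K))) = K := by
    rw [Nat.card_range_of_injective (fun a b h => by simpa using h), Nat.card_fin]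
  have eC : Nat.card (G → U' × G) = Nat.card (U' × G) ^ Nat.card G := Nat.card_fun
  rw [eA, eC, ← mul_pow] at this
  refine le_trans (Nat.mul_le_mul_right _ ?_) this
  refine Nat.card_mono (Set.toFinite {ρ : (P × (U' × G)) × (U' × G) → St (U' × G) K |
    ∃ c : G → U' × G, ∀ g, ρ ((i.1, (i.2, g)), c g) ∈
    Set.range (fun l : Fin K => (Sum.inr (Sum.inr l) : St (U' × G) K))}) ?_
  intro ρ hρ
  choose c l hc using hρ
  exact ⟨c, fun g => ⟨l g, (hc g).symm⟩⟩

private theorem CST_one {V U : Type} [Finite V] [Finite U] {K : ℕ} (hK : 0 < K)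
    (M : ℕ) (hm : M * Nat.card V * K ≤ Nat.card (St U K)) :
    M * Nat.card {ρ : V → St U K // ∃ v, ∃ l, ρ v = .inr (.inr l)} ≤
      Nat.card (V → St U K) := by
  classical
  have := Fintype.ofFinite U
  have hS : 0 < Nat.card (St U K) := by
    have : Nonempty (St U K) := ⟨.inr (.inr ⟨0, hK⟩)⟩
    exact Nat.card_pos
  refine CST_ub' M (fun (v : V) (ρ : V → St U K) => ∃ l, ρ v = .inr (.inr l))
    (Nat.card (St U K)) K hS (fun v => ?_) hm
  have := card_places (V := V) (S := St U K) (G := Unit)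
    (C := Unit) (fun _ _ => v) (fun _ g g' _ => rfl)
    (Set.range (fun l : Fin K => (Sum.inr (Sum.inr l) : St U K)))
  have eA : Nat.card (Set.range (fun l : Fin K =>
      (Sum.inr (Sum.inr l) : St U K))) = K := by
    rw [Nat.card_range_of_injective (fun a b h => by simpa using h), Nat.card_fin]
  have eU : Nat.card Unit = 1 := Nat.card_unique
  rw [eA, eU, pow_one, pow_one, one_mul] at this
  refine le_trans (Nat.mul_le_mul_right _ ?_) this
  refine Nat.card_mono (Set.toFinite {ρ : V → St U K | ∃ _ : Unit, ∀ _ : Unit, ρ v ∈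
    Set.range (fun l : Fin K => (Sum.inr (Sum.inr l) : St U K))}) ?_
  rintro ρ ⟨l, hl⟩
  exact ⟨(), fun _ => ⟨l, hl.symm⟩⟩

private theorem CST_U (w g k : ℕ) (hw : 0 < w) (hg : 0 < g) :
    1 ≤ Nat.card (Ut (Fin w) (Fin g) k × Fin g) := by
  have := Ut.finite (Fin w) (Fin g) k
  rw [Nat.card_prod, card_Ut, Nat.card_fin, Nat.card_fin]
  exact Nat.mul_pos (Nat.mul_pos hw (pow_pos hg _)) hg

theorem card_ST (σ : SP) {h : ℕ} (hg : σ.g = (5 * σ.K + 1) * h)
    (hh : 8 * Nat.card (Nd σ.U σ.k × σ.U') ≤ 2 ^ h) :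
    8 * Nat.card {ρ : σ.Col → St σ.U σ.K // ¬ ST σ ρ} ≤ Nat.card (σ.Col → St σ.U σ.K) := by
  have := Ut.finite (Fin σ.w) (Fin σ.g) (σ.k - 1)
  have : Finite σ.U := inferInstance
  have := Nd.finite σ.U σ.k
  have := Fintype.ofFinite σ.U
  have hu : 1 ≤ Nat.card σ.U := CST_U σ.w σ.g (σ.k - 1) σ.hw σ.hg
  have hn := (numeric (K := σ.K) hu hg (a := 2 * Nat.card (Nd σ.U σ.k × σ.U'))
    (by omega)).1
  have h1 := CST_st (P := Nd σ.U σ.k) (U' := σ.U') (G := Fin σ.g) σ.hK 8 (by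
    rw [card_St, Nat.card_fin]
    refine le_trans (le_of_eq ?_) hn
    ring)
  refine le_trans (Nat.mul_le_mul_left _ (Nat.card_mono (Set.toFinite
    {ρ : σ.Col → St σ.U σ.K | ∃ i : Nd σ.U σ.k × σ.U',
      ∀ (g : Fin σ.g) (r : σ.U), ρ (i.1, (i.2, g)) ≠ .inl r}) ?_)) h1
  intro ρ hρ
  have hρ' : ¬ ST σ ρ := hρ
  unfold ST at hρ'
  push Not at hρ'
  obtain ⟨p, u', h2⟩ := hρ'
  exact ⟨(p, u'), h2⟩

private theorem CST_NDk (w g K : ℕ) (hw : 0 < w) (hg0 : 0 < g) (hK : 0 < K) {h : ℕ}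
    (hg : g = (5 * K + 1) * h) : ∀ k : ℕ,
    8 * Nat.card (Nd (Ut (Fin w) (Fin g) (k - 1) × Fin g) k × Ut (Fin w) (Fin g) (k - 1)) ≤
      2 ^ h →
    4 * Nat.card {ρ : Nd (Ut (Fin w) (Fin g) (k - 1) × Fin g) (k + 1) →
      St (Ut (Fin w) (Fin g) (k - 1) × Fin g) K // ¬ NDk w g K k ρ} ≤
      Nat.card (Nd (Ut (Fin w) (Fin g) (k - 1) × Fin g) (k + 1) →
        St (Ut (Fin w) (Fin g) (k - 1) × Fin g) K)
  | 0, _ => by
    have := Ut.finite (Fin w) (Fin g) (0 - 1)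
    have := Fintype.ofFinite (Ut (Fin w) (Fin g) (0 - 1) × Fin g)
    have := Nd.finite (Ut (Fin w) (Fin g) (0 - 1) × Fin g) (0 + 1)
    have h1 := CST_one (V := Nd (Ut (Fin w) (Fin g) (0 - 1) × Fin g) (0 + 1))
      (U := Ut (Fin w) (Fin g) (0 - 1) × Fin g) hK 4 (by
        rw [card_St, card_Nd, zero_add, pow_one]
        nlinarith)
    refine le_trans (Nat.mul_le_mul_left _ (Nat.card_mono (Set.toFinite
      {ρ : Nd (Ut (Fin w) (Fin g) (0 - 1) × Fin g) (0 + 1) →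
      St (Ut (Fin w) (Fin g) (0 - 1) × Fin g) K | ∃ v, ∃ l, ρ v = .inr (.inr l)}) ?_)) h1
    intro ρ hρ
    have hρ' : ¬ NDk w g K 0 ρ := hρ
    unfold NDk at hρ'
    push Not at hρ'
    exact hρ'
  | k + 1, hh => by
    have := Ut.finite (Fin w) (Fin g) k
    have := Fintype.ofFinite (Ut (Fin w) (Fin g) k × Fin g)
    have := Nd.finite (Ut (Fin w) (Fin g) k × Fin g) k
    have hu : 1 ≤ Nat.card (Ut (Fin w) (Fin g) k × Fin g) := CST_U w g k hw hg0
    have hle : 4 * Nat.card (Nd (Ut (Fin w) (Fin g) k × Fin g) k × Ut (Fin w) (Fin g) k) ≤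
        2 ^ h := by
      refine le_trans ?_ hh
      change 4 * Nat.card (Nd (Ut (Fin w) (Fin g) k × Fin g) k × Ut (Fin w) (Fin g) k) ≤
        8 * Nat.card (Nd (Ut (Fin w) (Fin g) k × Fin g) (k + 1) × Ut (Fin w) (Fin g) k)
      rw [Nat.card_prod, Nat.card_prod, card_Nd, card_Nd, pow_succ]
      have h2 : Nat.card (Ut (Fin w) (Fin g) k × Fin g) ^ k * 1 ≤
          Nat.card (Ut (Fin w) (Fin g) k × Fin g) ^ k *
            Nat.card (Ut (Fin w) (Fin g) k × Fin g) := Nat.mul_le_mul_left _ hu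
      have h3 := Nat.mul_le_mul_right (Nat.card (Ut (Fin w) (Fin g) k)) h2
      rw [mul_one] at h3
      omega
    have hn := (numeric (K := K) hu hg hle).2
    have h1 := CST_nd (P := Nd (Ut (Fin w) (Fin g) k × Fin g) k) (U' := Ut (Fin w) (Fin g) k)
      (G := Fin g) hK 4 (by
      rw [card_St, Nat.card_fin]
      exact hn)
    refine le_trans (Nat.mul_le_mul_left _ (Nat.card_mono (Set.toFinite
      {ρ : (Nd (Ut (Fin w) (Fin g) k × Fin g) k × (Ut (Fin w) (Fin g) k × Fin g)) ×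
        (Ut (Fin w) (Fin g) k × Fin g) → St (Ut (Fin w) (Fin g) k × Fin g) K |
        ∃ i : Nd (Ut (Fin w) (Fin g) k × Fin g) k × Ut (Fin w) (Fin g) k,
        ∀ g, ∃ u l, ρ ((i.1, (i.2, g)), u) = .inr (.inr l)}) ?_)) h1
    intro ρ hρ
    have hρ' : ¬ NDk w g K (k + 1) ρ := hρ
    unfold NDk at hρ'
    push Not at hρ'
    obtain ⟨p, u', h2⟩ := hρ'
    exact ⟨(p, u'), h2⟩

theorem card_ND (σ : SP) {h : ℕ} (hg : σ.g = (5 * σ.K + 1) * h)
    (hh : 8 * Nat.card (Nd σ.U σ.k × σ.U') ≤ 2 ^ h) :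
    4 * Nat.card {ρ : σ.Col → St σ.U σ.K // ¬ ND σ ρ} ≤ Nat.card (σ.Col → St σ.U σ.K) :=
  CST_NDk σ.w σ.g σ.K σ.hw σ.hg σ.hK hg σ.k hh

end Pool.Agent.Lib.MP_2b5695_lc.Gv
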