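import Pool.Agent.Lib.MP_2b5695_lc.Gv.SwF
import Pool.Agent.Lib.MP_2b5695_lc.Gv.Pos

/-!
The switching lemma for functions that depend on the visible part.
-/

namespace Pool.Agent.Lib.MP_2b5695_lc.Gv

variable {V U : Type} [DecidableEq V] [DecidableEq U] {K : ℕ}

theorem card_SW [Finite V] [Finite U] (hK : 0 < K) {L t : ℕ} (hL : 0 < L) (ht : 0 < t)
    (h1 : 144 * (t * t) * L < 4 * K) (h2 : 144 * (t * t) ≤ K) (h3 : 24 * t * L ≤ 4 * K)
    (f : (V → Option (U × Fin (4 * K))) → (V × U → Bool) → Prop)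
    (hf : ∀ v₀, Cert1 t (f v₀)) :
    Nat.card {ρ : V → St U K // ¬ Cert t fun z => f (vp L ρ) (Phi ρ z)} * 2 ^ t ≤
      Nat.card (V → St U K) := by
  haveI := Fintype.ofFinite V
  haveI := Fintype.ofFinite U
  have key := card_of_fiber (Ω := V → St U K) (vp L)
    (fun v₀ ρ => ¬ Cert t fun z => f v₀ (Phi ρ z)) ((12 * t) ^ t) ((6 * t) ^ t)
    (fun v₀ => switching_fiber hK (m := L) (κ := 12 * t) (s := t) (t := t) hL (by omega)
      (by
        have e : 12 * t * (12 * t) = 144 * (t * t) := by ring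
        rw [e]; exact h2)
      (by
        have e : 12 * t * (12 * t) * L = 144 * (t * t) * L := by ring
        rw [e]; exact h1)
      (by
        have e : 2 * (12 * t) * L = 24 * t * L := by ring
        rw [e]; exact h3) (hf v₀) v₀)
  have e : (12 * t) ^ t = 2 ^ t * (6 * t) ^ t := by
    rw [← mul_pow]
    congr 1
    ring
  rw [e, ← mul_assoc] at key
  exact Nat.le_of_mul_le_mul_right key (Nat.pow_pos (by omega))

end Pool.Agent.Lib.MP_2b5695_lc.Gv
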