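import Pool.Agent.Lib.MP_2b5695_lc.Gv.World

/-!
The events to be avoided, and the conditions on the parameters.
-/

namespace Pool.Agent.Lib.MP_2b5695_lc.Gv

section

variable (par : ℕ → SP) (cc : ℕ → ℕ)

/-- conditions on the parameters -/
structure ParOK : Prop where
  sn : ∀ s, s + 4 ≤ (par s).n
  nL : ∀ s, (par s).n < (par s).L
  Ln : ∀ s, (par s).L ≤ (par (s + 1)).n
  cL : ∀ s j, s < j → (par s).L ≤ cc j
  LK : ∀ s, 256 * ((par s).L * (par s).L * (par s).L) ≤ (par s).K
  Kg : ∀ s, (par s).K ≤ (par s).g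
  wg : ∀ s, (par s).w * (par s).g ^ ((par s).k - 1 + 1) < 2 ^ (par s).n

theorem exists_lst (W : Wld par) (s : ℕ) (d : Data) (X : Set (List Bool)) (x : ℕ) :
    ∃ L : List (Term ((par s).Col × (par s).U) × ℕ),
      (∀ p, p ∈ L ↔ ∃ y ≤ x, ∃ β, p = trm par W s d X x y β) ∧
      L.Pairwise fun p q => q.2 ≤ p.2 := by
  obtain ⟨L, h1, h2⟩ := exists_sorted (Set.univ : Set (Fin (x + 1) × ((par s).Cel → Bool)))
    fun a => (trm par W s d X x a.1 a.2).2
  refine ⟨L.map fun a => trm par W s d X x a.1 a.2, fun p => ?_, ?_⟩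
  · rw [List.mem_map]
    constructor
    · rintro ⟨a, -, rfl⟩
      exact ⟨a.1, by omega, a.2, rfl⟩
    · rintro ⟨y, hy, β, rfl⟩
      exact ⟨(⟨y, by omega⟩, β), (h1 _).2 trivial, rfl⟩
  · rw [List.pairwise_map]
    exact h2

/-- the terms of all computations on input `x` in the worlds of stage `s`, sorted by value -/
noncomputable def lst (W : Wld par) (s : ℕ) (d : Data) (X : Set (List Bool)) (x : ℕ) :
    List (Term ((par s).Col × (par s).U) × ℕ) :=
  (exists_lst par W s d X x).choose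

theorem mem_lst {W : Wld par} {s : ℕ} {d : Data} {X : Set (List Bool)} {x : ℕ}
    {p : Term ((par s).Col × (par s).U) × ℕ} :
    p ∈ lst par W s d X x ↔ ∃ y ≤ x, ∃ β, p = trm par W s d X x y β :=
  (exists_lst par W s d X x).choose_spec.1 p

theorem lst_sorted {W : Wld par} {s : ℕ} {d : Data} {X : Set (List Bool)} {x : ℕ} :
    (lst par W s d X x).Pairwise fun p q => q.2 ≤ p.2 :=
  (exists_lst par W s d X x).choose_spec.2

/-- the bound `m` for task `j` on input `x` -/
noncomputable abbrev mx (j x : ℕ) : ℕ := mm j (Nat.bits x)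

/-- the visibility `r` of task `j` on input `x` -/
noncomputable abbrev rx (j x : ℕ) : ℕ := tN cc j (Nat.bits x) []

/-- the restriction has a long path for task `j` on input `x` -/
def GB (W : Wld par) (s j : ℕ) (d : Data) (x : ℕ) (ρ : (par s).Col → St (par s).U (par s).K) :
    Prop :=
  BadD (par s).hK (rx cc j x) (lst par W s d (XP par cc W s (mx j x) (vp (mx j x) ρ)) x)
    (3 * mx j x) ⟨[], fun _ => false⟩ ρ

/-- many secret positions are generated by a short history, for task `j` on input `x` -/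
def GA (W : Wld par) (s j : ℕ) (d : Data) (x : ℕ) (ρ : (par s).Col → St (par s).U (par s).K) :
    Prop :=
  ∃ (toks : List (Option ℕ)) (ws : List ℕ), toks.length = FF (mx j x) ∧
    (∀ idx, some idx ∈ toks → idx < mx j x) ∧ ws.length = 3 * mx j x ∧ (∀ z ∈ ws, z ≤ x) ∧
    ∃ Kf : List (par s).Cel,
      (gen (HW par) d (XP par cc W s (rx cc j x) (vp (rx cc j x) ρ)) x
        (vsP par W s (vp (rx cc j x) ρ) (rx cc j x)) toks ws).2.1 = Kf.map (fun b => ⟨s, b⟩) ∧
      TT (mx j x) ≤ Kf.length ∧ Kf.Nodup ∧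
      ∀ b ∈ Kf, ρ b.1 = .inl b.2 ∨ ∃ l : Fin (4 * (par s).K),
        ρ b.1 = .inr (.inl (b.2, l)) ∧ l.val * rx cc j x < 4 * (par s).K

/-- task `j` on input `x` lies in the window of stage `s` -/
structure Win (s j : ℕ) (d : Data) (x : ℕ) : Prop where
  hj : dec j = some d
  hps : d.ps = []
  small : Small d x (mx j x)
  h1 : (par s).n < mx j x
  h2 : rx cc j x < (par s).L

end

end Pool.Agent.Lib.MP_2b5695_lc.Gv
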