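import Pool.Agent.Lib.MP_2b5695_lc.Gv.Req

/-!
The parameters exist; construction of a world by stages.
-/

namespace Pool.Agent.Lib.MP_2b5695_lc.Gv

open Polynomial in
/-- polynomial for `rT` -/
noncomputable def qT (R : Rq) : Polynomial ℕ := R.p.comp (X + 1)

theorem qT_eval (R : Rq) (n : ℕ) : (qT R).eval n = rT R n := by
  simp [qT, rT]

/-- polynomial for `rS` -/
noncomputable def qS (R : Rq) : Polynomial ℕ := bdP R.ps (Polynomial.X + 1 + qT R)

theorem qS_eval (R : Rq) (n : ℕ) : (qS R).eval n = rS R n := by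
  rw [qS, eval_bdP, Polynomial.eval_add, Polynomial.eval_add, Polynomial.eval_X,
    Polynomial.eval_one, qT_eval]
  rfl

/-- polynomial for `rt` -/
noncomputable def qt (R : Rq) : Polynomial ℕ :=
  R.q.comp (qS R) + (qS R + 1) * ((R.ps.length + 1 : ℕ) : Polynomial ℕ) + 3

theorem qt_eval (R : Rq) (n : ℕ) : (qt R).eval n = rt R n := by
  rw [qt, rt, Polynomial.eval_add, Polynomial.eval_add, Polynomial.eval_mul, Polynomial.eval_comp,
    Polynomial.eval_add, qS_eval, Polynomial.eval_one, Polynomial.eval_natCast,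
    Polynomial.eval_ofNat]
  rfl

/-- one stage -/
theorem exists_par (R : Rq) (hR : R.ps ≠ []) (b : ℕ) :
    ∃ σ : SP, b ≤ σ.n ∧ SPOK σ R ∧ σ.n < σ.L ∧ 256 * (σ.L * σ.L * σ.L) ≤ σ.K ∧ σ.K ≤ σ.g ∧
      σ.w * σ.g ^ (σ.k - 1 + 1) < 2 ^ σ.n := by
  have hlen : 0 < R.ps.length := List.length_pos_iff.2 hR
  obtain ⟨k, hk⟩ : ∃ k, R.ps.length = k + 1 := ⟨R.ps.length - 1, by omega⟩
  obtain ⟨pL, hpL⟩ : ∃ p : Polynomial ℕ, ∀ n, p.eval n =
      rS R n + R.q.eval (rS R n) + rt R n + 2 :=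
    ⟨qS R + R.q.comp (qS R) + qt R + 2, fun n => by
      rw [Polynomial.eval_add, Polynomial.eval_add, Polynomial.eval_add, Polynomial.eval_comp,
        qS_eval, qt_eval, Polynomial.eval_ofNat]⟩
  obtain ⟨pK, hpK⟩ : ∃ p : Polynomial ℕ, ∀ n, p.eval n =
      256 * (pL.eval n * pL.eval n * pL.eval n) :=
    ⟨256 * (pL * pL * pL), fun n => by
      rw [Polynomial.eval_mul, Polynomial.eval_mul, Polynomial.eval_mul, Polynomial.eval_ofNat]⟩
  obtain ⟨pg, hpg⟩ : ∃ p : Polynomial ℕ, ∀ n, p.eval n =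
      (5 * pK.eval n + 1) * (n * (k + 2) + 3) :=
    ⟨(5 * pK + 1) * (Polynomial.X * ((k + 2 : ℕ) : Polynomial ℕ) + 3), fun n => by
      simp only [Polynomial.eval_mul, Polynomial.eval_add, Polynomial.eval_X,
        Polynomial.eval_natCast, Polynomial.eval_ofNat, Polynomial.eval_one, Nat.cast_id]⟩
  obtain ⟨pw, hpw⟩ : ∃ p : Polynomial ℕ, ∀ n, p.eval n =
      (rT R n + 1) * (rT R n * (rt R n + 1) + 1) + rt R n + 1 :=
    ⟨(qT R + 1) * (qT R * (qt R + 1) + 1) + qt R + 1, fun n => by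
      simp only [Polynomial.eval_mul, Polynomial.eval_add, Polynomial.eval_one, qT_eval, qt_eval]⟩
  obtain ⟨n, hn, hlt⟩ := exists_pow_gt (pw * pg ^ (k - 1 + 1)) b
  rw [Polynomial.eval_mul, Polynomial.eval_pow] at hlt
  have hL0 : n < pL.eval n := by
    have h1 : rLam R n ≤ rS R n := le_bdl _ _
    have h2 : n + 1 + rT R n = rLam R n := rfl
    rw [hpL]; omega
  have hL1 : 0 < pL.eval n := by omega
  have hK0 : 0 < pK.eval n := by
    rw [hpK]; positivity
  have hg0 : 0 < pg.eval n := by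
    rw [hpg]; positivity
  have hw0 : 0 < pw.eval n := by
    rw [hpw]; omega
  refine ⟨⟨k, n, pw.eval n, pg.eval n, pK.eval n, pL.eval n, hw0, hg0, hK0⟩, hn,
    ⟨hk, (hpL n).ge, hpg n, (hpw n).ge⟩, hL0, (hpK n).ge, ?_, hlt⟩
  change pK.eval n ≤ pg.eval n
  rw [hpg]
  calc pK.eval n ≤ 5 * pK.eval n + 1 := by omega
    _ = (5 * pK.eval n + 1) * 1 := (mul_one _).symm
    _ ≤ (5 * pK.eval n + 1) * (n * (k + 2) + 3) := Nat.mul_le_mul_left _ (by omega)

theorem exists_params (rq : ℕ → Rq) (hrq : ∀ s, (rq s).ps ≠ []) :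
    ∃ (par : ℕ → SP) (cc : ℕ → ℕ), ParOK par cc ∧ ∀ s, SPOK (par s) (rq s) := by
  choose f hf using fun s b => exists_par (rq s) (hrq s) b
  obtain ⟨par, h0, hS⟩ : ∃ par : ℕ → SP, par 0 = f 0 4 ∧
      ∀ s, par (s + 1) = f (s + 1) (max (par s).L (s + 5)) :=
    ⟨fun s => Nat.rec (f 0 4) (fun s σ => f (s + 1) (max σ.L (s + 5))) s, rfl, fun s => rfl⟩
  have hall : ∀ s, ∃ b, par s = f s b := by
    intro s
    cases s with
    | zero => exact ⟨_, h0⟩
    | succ s => exact ⟨_, hS s⟩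
  refine ⟨par, fun j => ∑ s ∈ Finset.range j, (par s).L, ⟨?_, ?_, ?_, ?_, ?_, ?_, ?_⟩, ?_⟩
  · intro s
    cases s with
    | zero => rw [h0]; exact (hf 0 4).1
    | succ s =>
      rw [hS s]
      have := (hf (s + 1) (max (par s).L (s + 5))).1
      omega
  · intro s
    obtain ⟨b, hb⟩ := hall s
    rw [hb]; exact (hf s b).2.2.1
  · intro s
    rw [hS s]
    have := (hf (s + 1) (max (par s).L (s + 5))).1
    omega
  · intro s j hsj
    exact Finset.single_le_sum (f := fun s => (par s).L) (fun i _ => Nat.zero_le _)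
      (Finset.mem_range.2 hsj)
  · intro s
    obtain ⟨b, hb⟩ := hall s
    rw [hb]; exact (hf s b).2.2.2.1
  · intro s
    obtain ⟨b, hb⟩ := hall s
    rw [hb]; exact (hf s b).2.2.2.2.1
  · intro s
    obtain ⟨b, hb⟩ := hall s
    rw [hb]; exact (hf s b).2.2.2.2.2
  · intro s
    obtain ⟨b, hb⟩ := hall s
    rw [hb]; exact (hf s b).2.1

/-- construction by stages -/
theorem exists_stages {F : ℕ → Type} [∀ s, Nonempty (F s)]
    (G : (W : ∀ s, F s) → ℕ → Prop)
    (hloc : ∀ (W W' : ∀ s, F s) (s : ℕ), (∀ s' ≤ s, W s' = W' s') → (G W s ↔ G W' s))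
    (step : ∀ (W : ∀ s, F s) (s : ℕ), ∃ c : F s, G (Function.update W s c) s) :
    ∃ W : ∀ s, F s, ∀ s, G W s := by
  classical
  choose c hc using step
  obtain ⟨V, hV⟩ : ∃ V : ℕ → ∀ s, F s, ∀ s, V (s + 1) = Function.update (V s) s (c (V s) s) :=
    ⟨fun s => Nat.rec (fun s => Classical.arbitrary (F s))
      (fun s V => Function.update V s (c V s)) s, fun s => rfl⟩
  -- later stages do not change the earlier values
  have hst : ∀ s t s', s' < s → V (s + t) s' = V s s' := by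
    intro s t
    induction t with
    | zero => intro s' _; rfl
    | succ t ih =>
      intro s' hs'
      rw [← ih s' hs', show s + (t + 1) = s + t + 1 from rfl, hV (s + t)]
      exact Function.update_of_ne (by omega) _ _
  refine ⟨fun s => V (s + 1) s, fun s => ?_⟩
  refine (hloc _ (V (s + 1)) s ?_).2 ?_
  · intro s' hs'
    obtain ⟨t, rfl⟩ : ∃ t, s = s' + t := ⟨s - s', by omega⟩
    have := hst (s' + 1) t s' (by omega)
    rw [show s' + t + 1 = s' + 1 + t by omega]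
    exact this.symm
  · rw [hV s]; exact hc (V s) s

end Pool.Agent.Lib.MP_2b5695_lc.Gv
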