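import Pool.Agent.Lib.MP_2b5695_lc.Gv.OneVarU
import Pool.Agent.Lib.MP_2b5695_lc.Gv.CountGA
import Pool.Agent.Lib.MP_2b5695_lc.Gv.CountGB
import Pool.Agent.Lib.MP_2b5695_lc.Gv.CountSW

/-!
A good restriction exists.
-/

namespace Pool.Agent.Lib.MP_2b5695_lc.Gv

variable {par : ℕ → SP} {cc : ℕ → ℕ}

theorem Select_card_mono {Ω : Type} [Finite Ω] {P Q : Ω → Prop} (h : ∀ ω, P ω → Q ω) :
    Nat.card {ω // P ω} ≤ Nat.card {ω // Q ω} :=
  Nat.card_le_card_of_injective (fun ω : {ω // P ω} => (⟨ω.1, h _ ω.2⟩ : {ω // Q ω}))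
    (fun _ _ hab => Subtype.ext (congrArg (fun z : {ω // Q ω} => z.1) hab))

/-- union bound with weights -/
theorem union_weights {Ω I : Type} [Finite Ω] (s : Finset I) (B : I → Ω → Prop) (a : I → ℕ)
    (ha : ∀ i ∈ s, 0 < a i) (h : ∀ i ∈ s, Nat.card {ω // B i ω} * a i ≤ Nat.card Ω)
    (hs : ∑ i ∈ s, (1 : ℚ) / a i ≤ 1 / 8) :
    8 * Nat.card {ω // ∃ i ∈ s, B i ω} ≤ Nat.card Ω := by
  classical
  have := Fintype.ofFinite Ω
  have h1 : Nat.card {ω // ∃ i ∈ s, B i ω} ≤ ∑ i ∈ s, Nat.card {ω // B i ω} := by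
    simp only [Nat.card_eq_fintype_card, Fintype.card_subtype]
    refine le_trans (Finset.card_le_card (t := s.biUnion fun i => Finset.univ.filter (B i))
      fun ω hω => ?_) Finset.card_biUnion_le
    simpa using hω
  have h2 : (8 * Nat.card {ω // ∃ i ∈ s, B i ω} : ℚ) ≤ Nat.card Ω := by
    have h3 : (Nat.card {ω // ∃ i ∈ s, B i ω} : ℚ) ≤ ∑ i ∈ s, (Nat.card {ω // B i ω} : ℚ) := by
      exact_mod_cast h1
    have h4 : ∑ i ∈ s, (Nat.card {ω // B i ω} : ℚ) ≤ ∑ i ∈ s, (Nat.card Ω : ℚ) * (1 / a i) :=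
      Finset.sum_le_sum fun i hi => by
        have := ha i hi
        rw [mul_one_div, le_div_iff₀ (by exact_mod_cast this)]
        exact_mod_cast h i hi
    rw [← Finset.mul_sum] at h4
    have h5 : (Nat.card Ω : ℚ) * ∑ i ∈ s, 1 / (a i : ℚ) ≤ Nat.card Ω * (1 / 8) :=
      mul_le_mul_of_nonneg_left hs (by positivity)
    linarith
  exact_mod_cast h2

theorem Select_sum1 (N : ℕ) : ∑ x ∈ Finset.range (2 ^ N),
    (1 : ℚ) / (2 : ℚ) ^ (2 * ((Nat.bits x).length + 1)) ≤ 1 - 1 / 2 ^ (N + 1) := by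
  induction N with
  | zero => norm_num
  | succ N ih =>
    have e : (2 : ℕ) ^ (N + 1) = 2 ^ N + 2 ^ N := by ring
    rw [e, Finset.sum_range_add]
    have h1 : ∀ x ∈ Finset.range (2 ^ N),
        (1 : ℚ) / (2 : ℚ) ^ (2 * ((Nat.bits (2 ^ N + x)).length + 1)) =
          1 / 2 ^ (2 * (N + 2)) := by
      intro x hx
      rw [Finset.mem_range] at hx
      have h2 : (Nat.bits (2 ^ N + x)).length = N + 1 := by
        rw [Nat.size_eq_bits_len]
        apply le_antisymm
        · rw [Nat.size_le]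
          rw [e]
          omega
        · rw [Nat.succ_le_iff, Nat.lt_size]
          omega
      rw [h2]
    rw [Finset.sum_congr rfl h1, Finset.sum_const, Finset.card_range, nsmul_eq_mul]
    have h3 : ((2 ^ N : ℕ) : ℚ) * (1 / 2 ^ (2 * (N + 2))) = 1 / 2 ^ (N + 4) := by
      push_cast
      rw [mul_one_div, div_eq_div_iff (by positivity) (by positivity)]
      ring
    rw [h3]
    have h4 : (1 : ℚ) / 2 ^ (N + 4) ≤ 1 / 2 ^ (N + 2) :=
      one_div_le_one_div_of_le (by positivity) (pow_le_pow_right₀ (by norm_num) (by omega))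
    have h5 : (1 : ℚ) / 2 ^ (N + 1) = 1 / 2 ^ (N + 2) + 1 / 2 ^ (N + 2) := by
      rw [pow_succ 2 (N + 1)]
      field_simp
      norm_num
    have h6 : N + 1 + 1 = N + 2 := rfl
    rw [h6]
    linarith

/-- the sum of the weights of the inputs -/
theorem sum_weights (S N : ℕ) :
    ∑ p ∈ Finset.range S ×ˢ Finset.range (2 ^ N),
      (1 : ℚ) / (2 : ℚ) ^ (2 * ((Nat.bits p.2).length + 1)) ≤ S := by
  rw [Finset.sum_product]
  simp only [Finset.sum_const, Finset.card_range, nsmul_eq_mul]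
  have h := Select_sum1 N
  have h2 : (0 : ℚ) ≤ 1 / 2 ^ (N + 1) := by positivity
  calc (S : ℚ) * _ ≤ S * 1 := mul_le_mul_of_nonneg_left (by linarith) (by positivity)
    _ = S := mul_one _

theorem Select_win (hp : ParOK par cc) {s j : ℕ} {d : Data} {x : ℕ} (hw : Win par cc s j d x) :
    j < s + 1 ∧ x < 2 ^ (par s).L ∧
      2 ^ ((par s).n + 1) * 2 ^ (2 * ((Nat.bits x).length + 1)) ≤ 2 ^ (3 * mx j x) := by
  have h1 := hw.h1
  have h2 := hw.h2
  have h3 := hw.small
  unfold Small at h3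
  have e : rx cc j x = cc j + 24 * (mx j x * mx j x) := rfl
  have h4 : mx j x ≤ mx j x * mx j x := Nat.le_mul_self _
  refine ⟨?_, ?_, ?_⟩
  · by_contra h
    have := hp.cL s j (by omega)
    omega
  · have h5 : x < 2 ^ (Nat.bits x).length := by
      rw [Nat.size_eq_bits_len]
      exact Nat.lt_size_self x
    refine h5.trans_le (Nat.pow_le_pow_right (by norm_num) ?_)
    omega
  · rw [← pow_add]
    exact Nat.pow_le_pow_right (by norm_num) (by omega)

theorem Select_G (hp : ParOK par cc) (s : ℕ)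
    (G : ℕ → Data → ℕ → ((par s).Col → St (par s).U (par s).K) → Prop)
    (hG : ∀ j d x, Win par cc s j d x →
      Nat.card {ρ : (par s).Col → St (par s).U (par s).K // G j d x ρ} *
        2 ^ (3 * mx j x) ≤ Nat.card ((par s).Col → St (par s).U (par s).K)) :
    8 * Nat.card {ρ : (par s).Col → St (par s).U (par s).K //
      ∃ j d x, Win par cc s j d x ∧ G j d x ρ} ≤
      Nat.card ((par s).Col → St (par s).U (par s).K) := by
  have key := union_weights (Ω := (par s).Col → St (par s).U (par s).K)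
    (Finset.range (s + 1) ×ˢ Finset.range (2 ^ (par s).L))
    (fun p ρ => ∃ d, Win par cc s p.1 d p.2 ∧ G p.1 d p.2 ρ)
    (fun p => 2 ^ ((par s).n + 1) * 2 ^ (2 * ((Nat.bits p.2).length + 1)))
    (fun p _ => by positivity)
    (fun p _ => by
      by_cases hd : ∃ d, Win par cc s p.1 d p.2
      · obtain ⟨d, hd⟩ := hd
        refine le_trans (Nat.mul_le_mul (Select_card_mono (Q := fun ρ => G p.1 d p.2 ρ) ?_)
          (Select_win hp hd).2.2) (hG _ _ _ hd)
        rintro ρ ⟨d', hd', h⟩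
        have h2 : some d = some d' := by rw [← hd.hj, ← hd'.hj]
        cases h2
        exact h
      · have h1 : Nat.card {ρ : (par s).Col → St (par s).U (par s).K //
            ∃ d, Win par cc s p.1 d p.2 ∧ G p.1 d p.2 ρ} = 0 := by
          have : IsEmpty {ρ : (par s).Col → St (par s).U (par s).K //
            ∃ d, Win par cc s p.1 d p.2 ∧ G p.1 d p.2 ρ} :=
            ⟨fun ρ => hd ⟨ρ.2.choose, ρ.2.choose_spec.1⟩⟩
          exact Nat.card_of_isEmpty
        rw [h1, Nat.zero_mul]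
        exact Nat.zero_le _)
    (by
      have h1 : ∀ p ∈ Finset.range (s + 1) ×ˢ Finset.range (2 ^ (par s).L),
          (1 : ℚ) / ((2 ^ ((par s).n + 1) * 2 ^ (2 * ((Nat.bits p.2).length + 1)) : ℕ) : ℚ) =
            1 / 2 ^ ((par s).n + 1) * (1 / 2 ^ (2 * ((Nat.bits p.2).length + 1))) := by
        intro p _
        push_cast
        rw [one_div_mul_one_div]
      rw [Finset.sum_congr rfl h1, ← Finset.mul_sum]
      have h2 := sum_weights (s + 1) (par s).L
      have h3 : (1 : ℚ) / 2 ^ ((par s).n + 1) * (∑ p ∈ Finset.range (s + 1) ×ˢ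
          Finset.range (2 ^ (par s).L), (1 : ℚ) / 2 ^ (2 * ((Nat.bits p.2).length + 1))) ≤
          1 / 2 ^ ((par s).n + 1) * ((s + 1 : ℕ) : ℚ) :=
        mul_le_mul_of_nonneg_left h2 (by positivity)
      refine h3.trans ?_
      rw [one_div_mul_eq_div, div_le_div_iff₀ (by positivity) (by norm_num)]
      have h4 : (s + 1) * 8 ≤ 1 * 2 ^ ((par s).n + 1) := by
        have h5 : s + 1 < 2 ^ (s + 1) := Nat.lt_two_pow_self
        have h6 : 2 ^ (s + 5) ≤ 2 ^ ((par s).n + 1) :=
          Nat.pow_le_pow_right (by norm_num) (by have := hp.sn s; omega)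
        have h7 : 2 ^ (s + 5) = 16 * 2 ^ (s + 1) := by ring
        omega
      exact_mod_cast h4)
  refine le_trans (Nat.mul_le_mul_left _ (Select_card_mono ?_)) key
  rintro ρ ⟨j, d, x, hw, h⟩
  have h1 := Select_win hp hw
  exact ⟨(j, x), Finset.mem_product.2 ⟨Finset.mem_range.2 h1.1, Finset.mem_range.2 h1.2.1⟩,
    d, hw, h⟩

theorem Select_SW (hp : ParOK par cc) (W : Wld par) (s : ℕ) (R : Rq) (hR : SPOK (par s) R) :
    8 * Nat.card {ρ : (par s).Col → St (par s).U (par s).K // ¬ SW par cc W s R ρ} ≤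
      Nat.card ((par s).Col → St (par s).U (par s).K) := by
  have hL := hR.L
  have hLK := hp.LK s
  have hK := (par s).hK
  have ht3 : (rS R (par s).n + 1) * (R.ps.length + 1) + 3 ≤ rt R (par s).n := by
    unfold rt
    omega
  have ht0 : 0 < rt R (par s).n := by omega
  have htL : rt R (par s).n ≤ (par s).L := by omega
  have hL0 : 0 < (par s).L := by omega
  have hcard : (nds R.ps (rLam R (par s).n) 1).card ≤
      2 ^ ((rS R (par s).n + 1) * (R.ps.length + 1)) := card_nds _ _ _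
  have h1 : rt R (par s).n * rt R (par s).n ≤ (par s).L * (par s).L := Nat.mul_le_mul htL htL
  have h2 : rt R (par s).n * rt R (par s).n * (par s).L ≤ (par s).L * (par s).L * (par s).L :=
    Nat.mul_le_mul_right _ h1
  have h3 : rt R (par s).n * (par s).L ≤ (par s).L * (par s).L := Nat.mul_le_mul_right _ htL
  have h4 : (par s).L * (par s).L ≤ (par s).L * (par s).L * (par s).L :=
    Nat.le_mul_of_pos_right _ hL0
  have key := union_weights (Ω := (par s).Col → St (par s).U (par s).K)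
    (nds R.ps (rLam R (par s).n) 1)
    (fun v ρ => ¬ Cert (rt R (par s).n) fun z : (par s).Col → Bool =>
      famG (OW par cc W s (vp (par s).L ρ)) R.Q R.q R.ps 1 v (Phi ρ z))
    (fun _ => 2 ^ rt R (par s).n) (fun _ _ => by positivity)
    (fun v hv => card_SW hK hL0 ht0
      (by rw [mul_assoc]; omega) (by omega) (by rw [mul_assoc]; omega)
      (fun v₀ => famG (OW par cc W s v₀) R.Q R.q R.ps 1 v)
      (fun v₀ => cert1_fam W s R hR v₀ v hv))
    (by
      rw [Finset.sum_const, nsmul_eq_mul, mul_one_div, div_le_div_iff₀ (by positivity)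
        (by norm_num)]
      have h5 : (nds R.ps (rLam R (par s).n) 1).card * 8 ≤ 1 * 2 ^ rt R (par s).n := by
        have h6 : 2 ^ ((rS R (par s).n + 1) * (R.ps.length + 1) + 3) ≤ 2 ^ rt R (par s).n :=
          Nat.pow_le_pow_right (by norm_num) ht3
        have h7 : 2 ^ ((rS R (par s).n + 1) * (R.ps.length + 1) + 3) =
          2 ^ ((rS R (par s).n + 1) * (R.ps.length + 1)) * 8 := by rw [pow_add]; norm_num
        omega
      exact_mod_cast h5)
  refine le_trans (Nat.mul_le_mul_left _ (Select_card_mono ?_)) key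
  intro ρ h
  unfold SW at h
  push Not at h
  exact h

theorem Select_card (σ : SP) (hw : σ.w * σ.g ^ (σ.k - 1 + 1) < 2 ^ σ.n) :
    8 * Nat.card (Nd σ.U σ.k × σ.U') ≤ 2 ^ (σ.n * (σ.k + 2) + 3) := by
  have h1 : Nat.card σ.U' = σ.w * σ.g ^ (σ.k - 1) := by
    rw [card_Ut, Nat.card_fin, Nat.card_fin]
  have h2 : Nat.card σ.U = σ.w * σ.g ^ (σ.k - 1 + 1) := by
    rw [Nat.card_prod, h1, Nat.card_fin, pow_succ, mul_assoc]
  have h3 : Nat.card σ.U ≤ 2 ^ σ.n := by omega
  have h4 : Nat.card σ.U' ≤ 2 ^ σ.n := by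
    refine le_trans ?_ h3
    rw [Nat.card_prod, Nat.card_fin]
    exact Nat.le_mul_of_pos_right _ σ.hg
  have : Finite σ.U := inferInstance
  rw [Nat.card_prod, card_Nd]
  calc 8 * (Nat.card σ.U ^ σ.k * Nat.card σ.U') ≤ 8 * ((2 ^ σ.n) ^ σ.k * 2 ^ σ.n) :=
        Nat.mul_le_mul_left _ (Nat.mul_le_mul (Nat.pow_le_pow_left h3 _) h4)
    _ = 2 ^ (σ.n * (σ.k + 1) + 3) := by rw [← pow_mul]; ring
    _ ≤ 2 ^ (σ.n * (σ.k + 2) + 3) := Nat.pow_le_pow_right (by norm_num)
        (Nat.add_le_add_right (Nat.mul_le_mul_left _ (by omega)) _)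

theorem Select_or {Ω : Type} [Finite Ω] (P Q : Ω → Prop) :
    Nat.card {ω // P ω ∨ Q ω} ≤ Nat.card {ω // P ω} + Nat.card {ω // Q ω} := by
  classical
  have := Fintype.ofFinite Ω
  simp only [Nat.card_eq_fintype_card]
  exact Fintype.card_subtype_or P Q

theorem exists_good (hp : ParOK par cc) (W : Wld par) (s : ℕ) (R : Rq)
    (hR : SPOK (par s) R) : ∃ ρ : (par s).Col → St (par s).U (par s).K,
      SW par cc W s R ρ ∧ ST (par s) ρ ∧ ND (par s) ρ ∧
      ∀ j d x, Win par cc s j d x → ¬ GA par cc W s j d x ρ ∧ ¬ GB par cc W s j d x ρ := by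
  by_contra hno
  have hh := Select_card (par s) (hp.wg s)
  have hST := card_ST (par s) hR.g hh
  have hND := card_ND (par s) hR.g hh
  have hSW := Select_SW hp W s R hR
  have hGA := Select_G hp s (fun j d x ρ => GA par cc W s j d x ρ)
    (fun j d x hw => card_GA hp W hw)
  have hGB := Select_G hp s (fun j d x ρ => GB par cc W s j d x ρ)
    (fun j d x hw => card_GB hp W hw)
  have hpos : 0 < Nat.card ((par s).Col → St (par s).U (par s).K) := by
    have : Nonempty ((par s).Col → St (par s).U (par s).K) :=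
      ⟨fun _ => .inr (.inr ⟨0, (par s).hK⟩)⟩
    exact Nat.card_pos
  have hall : Nat.card ((par s).Col → St (par s).U (par s).K) ≤
      Nat.card {ρ : (par s).Col → St (par s).U (par s).K // ¬ SW par cc W s R ρ ∨
        (¬ ST (par s) ρ ∨ (¬ ND (par s) ρ ∨
        ((∃ j d x, Win par cc s j d x ∧ GA par cc W s j d x ρ) ∨
        (∃ j d x, Win par cc s j d x ∧ GB par cc W s j d x ρ))))} := by
    refine Nat.card_le_card_of_injective (fun ρ => ⟨ρ, ?_⟩) (fun a b hab =>
      congrArg (fun z : {ρ : (par s).Col → St (par s).U (par s).K // ¬ SW par cc W s R ρ ∨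
        (¬ ST (par s) ρ ∨ (¬ ND (par s) ρ ∨
        ((∃ j d x, Win par cc s j d x ∧ GA par cc W s j d x ρ) ∨
        (∃ j d x, Win par cc s j d x ∧ GB par cc W s j d x ρ))))} => z.1) hab)
    by_contra hc
    push Not at hc
    obtain ⟨h1, h2, h3, h4, h5⟩ := hc
    exact hno ⟨ρ, h1, h2, h3, fun j d x hw => ⟨h4 j d x hw, h5 j d x hw⟩⟩
  have h1 := Select_or (Ω := (par s).Col → St (par s).U (par s).K)
    (fun ρ => ¬ SW par cc W s R ρ) (fun ρ => ¬ ST (par s) ρ ∨ (¬ ND (par s) ρ ∨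
        ((∃ j d x, Win par cc s j d x ∧ GA par cc W s j d x ρ) ∨
        (∃ j d x, Win par cc s j d x ∧ GB par cc W s j d x ρ))))
  have h2 := Select_or (Ω := (par s).Col → St (par s).U (par s).K)
    (fun ρ => ¬ ST (par s) ρ) (fun ρ => (¬ ND (par s) ρ ∨
        ((∃ j d x, Win par cc s j d x ∧ GA par cc W s j d x ρ) ∨
        (∃ j d x, Win par cc s j d x ∧ GB par cc W s j d x ρ))))
  have h3 := Select_or (Ω := (par s).Col → St (par s).U (par s).K)
    (fun ρ => ¬ ND (par s) ρ) (fun ρ =>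
        ((∃ j d x, Win par cc s j d x ∧ GA par cc W s j d x ρ) ∨
        (∃ j d x, Win par cc s j d x ∧ GB par cc W s j d x ρ)))
  have h4 := Select_or (Ω := (par s).Col → St (par s).U (par s).K)
    (fun ρ => (∃ j d x, Win par cc s j d x ∧ GA par cc W s j d x ρ))
    (fun ρ => (∃ j d x, Win par cc s j d x ∧ GB par cc W s j d x ρ))
  omega

end Pool.Agent.Lib.MP_2b5695_lc.Gv
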