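import Pool.Agent.Lib.MP_2b5695_lc.Gv.Req
import Pool.Agent.Lib.MP_2b5695_lc.LvMain

/-!
The stage for level one, in abstract form.
-/

namespace Pool.Agent.Lib.MP_2b5695_lc.Gv

/-- the stage for level one, with the assignment as an abstract function -/
theorem stage_abs_zero_core (σ : SP) (hk : σ.k = 0) (R : Rq) (hR : SPOK σ R)
    (hwg : σ.w * σ.g ^ (σ.k - 1 + 1) < 2 ^ σ.n)
    (Wd : (σ.Cel → Bool) → Set (List Bool)) (CC : (σ.Cel → Bool) → ℕ → ℕ → Prop)
    (hC0 : ∀ α, CC α (2 ^ σ.n) 0) (hCle : ∀ α y, CC α (2 ^ σ.n) y → y ≤ 2 ^ σ.n)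
    (hC : ∀ α y, y ≠ 0 → y ≤ 2 ^ σ.n →
      (CC α (2 ^ σ.n) y ↔ rv (U := σ.U) (σ.k + 1) α (σ.τ (y - 1)) = false))
    (ρ : σ.Col → St σ.U σ.K) (PH : (σ.Col → Bool) → (σ.Cel → Bool))
    (p1 : ∀ z v r, ρ v = .inl r → PH z (v, r) = !(z v))
    (p2 : ∀ z v r u, ρ v = .inl r → u ≠ r → PH z (v, u) = true)
    (p3 : ∀ z v r l, ρ v = .inr (.inl (r, l)) → PH z (v, r) = false)
    (hSW : ∀ v ∈ nds R.ps (rLam R σ.n) 1, Cert (rt R σ.n) fun z : σ.Col → Bool =>
      famG Wd R.Q R.q R.ps 1 v (PH z))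
    (hST : ST σ ρ) (hND : ND σ ρ) :
    ∃ z : σ.Col → Bool, ¬ Ensures R.P {v | sigE (Wd (PH z)) R.Q R.q R.ps [v]}
      (Answers (CC (PH z)) id (2 ^ σ.n))
      (fun _ v => Optimal (CC (PH z)) id (2 ^ σ.n) (val v)) (rT R σ.n) 0
      (load [Nat.bits (2 ^ σ.n)]) := by
  classical
  obtain ⟨k, n, w, g, K, L, hw, hg, hK⟩ := σ
  dsimp only at hk
  subst hk
  let σ : SP := ⟨0, n, w, g, K, L, hw, hg, hK⟩
  have hps : R.ps.length = 1 := hR.k
  have hwR := hR.w
  -- rows
  let row : σ.U → Fin w := fun u => Ut.base (0 - 1 + 1) u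
  let ZZ : (Fin w → Bool) → (σ.Col → Bool) := fun z v => z (row v.2)
  have hstar : ∀ r : Fin w, ∃ u : σ.U, row u = r ∧ ∃ r', ρ ((), u) = .inl r' := by
    intro r
    obtain ⟨g', r', h⟩ := hST () r
    exact ⟨(r, g'), rfl, r', h⟩
  have hdead : ∀ v l, ρ v ≠ .inr (.inr l) := hND
  have hfeas : ∀ (z : Fin w → Bool) (u : σ.U),
      rv (U := σ.U) 1 (PH (ZZ z)) u = false ↔ (∃ r', ρ ((), u) = .inl r') ∧ z (row u) = false := by
    intro z u
    show col (P := Nd σ.U 1) (U := σ.U) (PH (ZZ z)) ((), u) = false ↔ _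
    rw [col_false]
    rcases hv : ρ ((), u) with r | ⟨r, l⟩ | l
    · constructor
      · intro h
        refine ⟨⟨r, rfl⟩, ?_⟩
        have h1 := h r
        rw [p1 _ _ _ hv] at h1
        simpa using h1
      · rintro ⟨-, h⟩ u'
        by_cases hu : u' = r
        · subst hu
          rw [p1 _ _ _ hv]
          show (!(z (row u))) = true
          rw [h]
          rfl
        · exact p2 _ _ _ _ hv hu
    · constructor
      · intro h
        have h1 := h r
        rw [p3 _ _ _ _ hv] at h1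
        cases h1
      · rintro ⟨⟨r', h⟩, -⟩
        cases h
    · exact absurd hv (hdead _ _)
  let D : GameData Bool w :=
    { fe := fun b => b = false
      r1 := false
      r0 := true
      C := fun z => CC (PH (ZZ z))
      x := 2 ^ n
      κ := fun y => if y ≤ 2 ^ n ∧ (∃ r', ρ ((), σ.τ (y - 1)) = .inl r') then
        some (row (σ.τ (y - 1))) else none
      O := fun z => {v | sigE (Wd (PH (ZZ z))) R.Q R.q R.ps [v]}
      Λ := rLam R n
      τ := rt R n
      hr1 := rfl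
      hr0 := by simp
      hC0 := fun z => hC0 _
      hC := by
        intro z y hy
        by_cases hyx : y ≤ 2 ^ n
        · have h1 : CC (PH (ZZ z)) (2 ^ n) y ↔
              (∃ r', ρ ((), σ.τ (y - 1)) = .inl r') ∧ z (row (σ.τ (y - 1))) = false :=
            (hC _ y hy hyx).trans (hfeas z _)
          rw [h1]
          constructor
          · rintro ⟨h4, h5⟩
            exact ⟨_, if_pos ⟨hyx, h4⟩, h5⟩
          · rintro ⟨r, h4, h5⟩
            by_cases h6 : y ≤ 2 ^ n ∧ (∃ r', ρ ((), σ.τ (y - 1)) = .inl r')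
            · rw [if_pos h6] at h4
              obtain rfl := Option.some.inj h4
              exact ⟨h6.2, h5⟩
            · rw [if_neg h6] at h4
              cases h4
        · constructor
          · intro h
            exact absurd (hCle _ _ h) hyx
          · rintro ⟨r, h4, -⟩
            rw [if_neg (fun h => hyx h.1)] at h4
            cases h4
      hmono := by
        intro y y' r r' h1 h2 h3
        by_cases h4 : y ≤ 2 ^ n ∧ (∃ r', ρ ((), σ.τ (y - 1)) = .inl r')
        · by_cases h5 : y' ≤ 2 ^ n ∧ (∃ r', ρ ((), σ.τ (y' - 1)) = .inl r')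
          · rw [if_pos h4] at h1
            rw [if_pos h5] at h2
            by_contra hcon
            have h6 : y' - 1 ≤ y - 1 := by omega
            have h7 := base_dcd_mono hw hg (0 - 1 + 1) h6
            rw [← Option.some.inj h1, ← Option.some.inj h2] at h3
            exact absurd h3 (not_lt.2 h7)
          · rw [if_neg h5] at h2
            cases h2
        · rw [if_neg h4] at h1
          cases h1
      hsurj := by
        intro r
        obtain ⟨u, hu, hst⟩ := hstar r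
        obtain ⟨m, hm, hmu⟩ := dcd_surj hw hg (0 - 1 + 1) u
        have h1 : σ.τ (m + 1 - 1) = u := hmu
        have h2 : w * g ^ (0 - 1 + 1) < 2 ^ n := hwg
        refine ⟨m + 1, by omega, by omega, ?_⟩
        rw [h1, if_pos ⟨by omega, hst⟩, hu]
      hO := by
        intro v hv S₀ z₀
        have hmem : [v] ∈ nds R.ps (rLam R n) 1 := by
          rw [← hps]
          exact mem_nds_top R.ps _ hv
        have hcert := hSW [v] hmem
        have hOz : ∀ z, v ∈ {v | sigE (Wd (PH (ZZ z))) R.Q R.q R.ps [v]} ↔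
            famG Wd R.Q R.q R.ps 1 [v] (PH (ZZ z)) := by
          intro z
          have h1 := famG_top Wd R.Q R.q R.ps (PH (ZZ z)) [v]
          rw [hps] at h1
          exact h1.symm
        obtain ⟨X, hX, hXc⟩ := hcert (ZZ fun r => if r ∈ S₀ then z₀ r else true)
        refine ⟨S₀ ∪ X.image (fun v => row v.2), fun r => if r ∈ S₀ then z₀ r else true,
          Finset.subset_union_left, ?_, fun r hr => if_pos hr, fun r _ hr' => ?_,
          fun z hz => ?_⟩
        · refine (Finset.card_union_le _ _).trans (Nat.add_le_add_left ?_ _)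
          exact Finset.card_image_le.trans hX
        · simp [hr']
        · refine (hOz z).trans (Iff.trans ?_
            (hOz fun r => if r ∈ S₀ then z₀ r else true).symm)
          refine hXc (ZZ z) fun u hu => ?_
          exact hz (row u.2) (Finset.mem_union_right _ (Finset.mem_image_of_mem
            (fun v : σ.Col => row v.2) hu)) }
  obtain ⟨z, hz⟩ := D.lose R.P (T := rT R n) (B := rT R n * (rt R n + 1)) rfl (by
    show (rT R n + 1) * (rT R n * (rt R n + 1) + 1) ≤ w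
    have : (rT R n + 1) * (rT R n * (rt R n + 1) + 1) + rt R n + 1 ≤ w := hwR
    omega) (by
    show (Nat.bits (2 ^ n)).length + rT R n ≤ rLam R n
    rw [bits_two_pow]
    unfold rLam
    omega)
  exact ⟨ZZ z, hz⟩

theorem stage_abs_zero (σ : SP) (hk : σ.k = 0) (R : Rq) (hR : SPOK σ R)
    (hwg : σ.w * σ.g ^ (σ.k - 1 + 1) < 2 ^ σ.n)
    (Wd : (σ.Cel → Bool) → Set (List Bool)) (CC : (σ.Cel → Bool) → ℕ → ℕ → Prop)
    (hC0 : ∀ α, CC α (2 ^ σ.n) 0) (hCle : ∀ α y, CC α (2 ^ σ.n) y → y ≤ 2 ^ σ.n)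
    (hC : ∀ α y, y ≠ 0 → y ≤ 2 ^ σ.n →
      (CC α (2 ^ σ.n) y ↔ rv (U := σ.U) (σ.k + 1) α (σ.τ (y - 1)) = false))
    (ρ : σ.Col → St σ.U σ.K)
    (hSW : ∀ v ∈ nds R.ps (rLam R σ.n) 1, Cert (rt R σ.n) fun z : σ.Col → Bool =>
      famG Wd R.Q R.q R.ps 1 v (Phi ρ z))
    (hST : ST σ ρ) (hND : ND σ ρ) :
    ∃ z : σ.Col → Bool, ¬ Ensures R.P {v | sigE (Wd (Phi ρ z)) R.Q R.q R.ps [v]}
      (Answers (CC (Phi ρ z)) id (2 ^ σ.n))
      (fun _ v => Optimal (CC (Phi ρ z)) id (2 ^ σ.n) (val v)) (rT R σ.n) 0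
      (load [Nat.bits (2 ^ σ.n)]) := by
  refine stage_abs_zero_core σ hk R hR hwg Wd CC hC0 hCle hC ρ (Phi ρ) (fun z v r h => ?_)
    (fun z v r u h hu => ?_) (fun z v r l h => ?_) hSW hST hND
  · simp [Phi, pv, h]
  · simp [Phi, pv, h, hu]
  · simp [Phi, pv, h]

end Pool.Agent.Lib.MP_2b5695_lc.Gv
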