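import Pool.Agent.Lib.MP_2b5695_lc.LvTree

/-!
The effect of a given restriction on the values of the rows.
-/

namespace Pool.Agent.Lib.MP_2b5695_lc.Gv

theorem pre_round {U' G : Type} [Finite U'] [Finite G] [Nonempty G] {K j : ℕ}
    [DecidableEq (U' × G)]
    (ρ : Nd (U' × G) (j + 2) → St (U' × G) K)
    (r2 : ∀ (p : Nd (U' × G) (j + 1)) (u' : U'), ∃ g r, ρ (p, (u', g)) = .inl r)
    (r3 : ∀ (p : Nd (U' × G) j) (u' : U'), ∃ g, ∀ u l, ρ ((p, (u', g)), u) ≠ .inr (.inr l)) :
    ∃ alive : U' × G → Prop,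
      (∀ (z : Nd U' (j + 2) → Bool) (y : U' × G),
        rv (U := U' × G) (j + 2) (Phi ρ (fun v => z (Nd.proj (j + 2) v))) y = true ↔
          (alive y → rv (j + 1) z y.1 = true)) ∧
      ∀ u', ∃ g, alive (u', g) := by
  let Φ : (Nd U' (j + 2) → Bool) → (Nd (U' × G) (j + 3) → Bool) :=
    fun z => Phi ρ (fun v => z (Nd.proj (j + 2) v))
  -- the first layer
  have e1 : ∀ (z : Nd U' (j + 2) → Bool) (v : Nd (U' × G) (j + 2)),
      col (P := Nd (U' × G) (j + 2)) (U := U' × G) (Φ z) v = false ↔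
        (∃ l, ρ v = .inr (.inr l)) ∨ (z (Nd.proj (j + 2) v) = false ∧ ∃ r, ρ v = .inl r) := by
    intro z v
    rw [col_false]
    have : ∀ u, Φ z (v, u) = (pv (ρ v) u).getD (!(z (Nd.proj (j + 2) v))) := fun u => rfl
    simp only [this]
    rcases hv : ρ v with r | ⟨r, l⟩ | l
    · simp only [reduceCtorEq, exists_false, false_or, Sum.inl.injEq, exists_eq', and_true]
      constructor
      · intro h
        have := h r
        simpa [pv] using this
      · intro h u
        by_cases hu : u = r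
        · simp [pv, hu, h]
        · simp [pv, hu]
    · simp only [reduceCtorEq, exists_false, and_false, or_false, Sum.inr.injEq]
      constructor
      · intro h
        have := h r
        simp [pv] at this
      · rintro ⟨l, h⟩
    · simp [pv]
  -- the second layer
  have e2 : ∀ (z : Nd U' (j + 2) → Bool) (p : Nd (U' × G) (j + 1)),
      col (P := Nd (U' × G) (j + 1)) (U := U' × G)
        (col (P := Nd (U' × G) (j + 2)) (U := U' × G) (Φ z)) p = true ↔
      ((∀ u l, ρ (p, u) ≠ .inr (.inr l)) →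
        col (P := Nd U' (j + 1)) (U := U') z (Nd.proj (j + 1) p) = true) := by
    intro z p
    rw [col_true, col_true]
    constructor
    · rintro ⟨u, hu⟩ ha
      rcases (e1 z (p, u)).1 hu with ⟨l, hl⟩ | ⟨h, -⟩
      · exact absurd hl (ha u l)
      · exact ⟨u.1, h⟩
    · intro h
      by_cases ha : ∀ u l, ρ (p, u) ≠ .inr (.inr l)
      · obtain ⟨u', hu'⟩ := h ha
        obtain ⟨g, r, hr⟩ := r2 p u'
        exact ⟨(u', g), (e1 z (p, (u', g))).2 (Or.inr ⟨hu', r, hr⟩)⟩
      · push Not at ha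
        obtain ⟨u, l, hl⟩ := ha
        exact ⟨u, (e1 z (p, u)).2 (Or.inl ⟨l, hl⟩)⟩
  rcases j with _ | j
  · refine ⟨fun y => ∀ u l, ρ (((), y), u) ≠ .inr (.inr l), fun z y => ?_, fun u' => ?_⟩
    · show col (P := Nd (U' × G) 1) (U := U' × G)
        (col (P := Nd (U' × G) 2) (U := U' × G) (Φ z)) ((), y) = true ↔ _
      rw [e2]
      rfl
    · obtain ⟨g, hg⟩ := r3 () u'
      exact ⟨g, hg⟩
  · refine ⟨fun _ => True, fun z y => ?_, fun u' => ⟨Classical.arbitrary G, trivial⟩⟩
    rw [forall_const]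
    have e3 : col (P := Nd (U' × G) (j + 1)) (U := U' × G)
        (col (P := Nd (U' × G) (j + 2)) (U := U' × G)
          (col (P := Nd (U' × G) (j + 3)) (U := U' × G) (Φ z))) =
        fun x => col (P := Nd U' (j + 1)) (U := U')
          (col (P := Nd U' (j + 2)) (U := U') z) (Nd.proj (j + 1) x) := by
      funext q
      rw [Bool.eq_iff_iff, col_true, col_true]
      constructor
      · rintro ⟨u, hu⟩
        refine ⟨u.1, ?_⟩
        rw [← Bool.not_eq_true] at hu ⊢
        exact fun hc => hu ((e2 z (q, u)).2 fun _ => hc)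
      · rintro ⟨u', hu'⟩
        obtain ⟨g, hg⟩ := r3 q u'
        refine ⟨(u', g), ?_⟩
        rw [← Bool.not_eq_true] at hu' ⊢
        exact fun hc => hu' ((e2 z (q, (u', g))).1 hc hg)
    show rv j (col (P := Nd (U' × G) (j + 1)) (U := U' × G)
        (col (P := Nd (U' × G) (j + 2)) (U := U' × G)
          (col (P := Nd (U' × G) (j + 3)) (U := U' × G) (Φ z)))) y = true ↔ _
    rw [e3, rv_proj]
    rfl

end Pool.Agent.Lib.MP_2b5695_lc.Gv
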