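import Pool.Agent.Lib.MP_2b5695_lc.Gv.Req
import Pool.Agent.Lib.MP_2b5695_lc.Gv.PreRound
import Pool.Agent.Lib.MP_2b5695_lc.LvMain

/-!
The stage for the levels above one, in abstract form.
-/

namespace Pool.Agent.Lib.MP_2b5695_lc.Gv

theorem stage_abs_succ (σ : SP) (k' : ℕ) (hk : σ.k = k' + 1) (R : Rq) (hR : SPOK σ R)
    (hwg : σ.w * σ.g ^ (σ.k - 1 + 1) < 2 ^ σ.n) (hK : 8 * rt R σ.n ≤ σ.K)
    (Wd : (σ.Cel → Bool) → Set (List Bool)) (CC : (σ.Cel → Bool) → ℕ → ℕ → Prop)
    (hC0 : ∀ α, CC α (2 ^ σ.n) 0) (hCle : ∀ α y, CC α (2 ^ σ.n) y → y ≤ 2 ^ σ.n)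
    (hC : ∀ α y, y ≠ 0 → y ≤ 2 ^ σ.n →
      (CC α (2 ^ σ.n) y ↔ rv (U := σ.U) (σ.k + 1) α (σ.τ (y - 1)) = false))
    (ρ : σ.Col → St σ.U σ.K)
    (hSW : ∀ v ∈ nds R.ps (rLam R σ.n) 1, Cert (rt R σ.n) fun z : σ.Col → Bool =>
      famG Wd R.Q R.q R.ps 1 v (Phi ρ z))
    (hST : ST σ ρ) (hND : ND σ ρ) :
    ∃ z : σ.Col → Bool, ¬ Ensures R.P {v | sigE (Wd (Phi ρ z)) R.Q R.q R.ps [v]}
      (Answers (CC (Phi ρ z)) id (2 ^ σ.n))
      (fun _ v => Optimal (CC (Phi ρ z)) id (2 ^ σ.n) (val v)) (rT R σ.n) 0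
      (load [Nat.bits (2 ^ σ.n)]) := by
  classical
  obtain ⟨PR, hPR⟩ : ∃ PR : (σ.Col → Bool) → (σ.Cel → Bool), PR = fun z => Phi ρ z := ⟨_, rfl⟩
  have hP : ∀ z, Phi ρ z = PR z := fun z => by rw [hPR]
  simp only [hP] at hSW ⊢
  clear hPR
  obtain ⟨k, n, w, g, K, L, hw0, hg0, hK0⟩ := σ
  dsimp only at hk
  subst hk
  obtain ⟨hRk, hRL, hRg, hRw⟩ := hR
  dsimp only at hRk hRL hRg hRw hwg hK hC0 hCle hC hSW hP ⊢
  have : Nonempty (Fin w) := ⟨⟨0, hw0⟩⟩
  have : Nonempty (Fin g) := ⟨⟨0, hg0⟩⟩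
  -- the first layer
  obtain ⟨alive1, a1, a2⟩ := @pre_round (Ut (Fin w) (Fin g) k') (Fin g) _ _ _ K k'
    (instDecU ⟨k' + 1, n, w, g, K, L, hw0, hg0, hK0⟩) ρ hST hND
  have b1 : ∀ (z : Nd (Ut (Fin w) (Fin g) k') (k' + 2) → Bool)
      (y : Ut (Fin w) (Fin g) k' × Fin g),
      rv (U := Ut (Fin w) (Fin g) k' × Fin g) (k' + 2)
        (PR fun v => z (Nd.proj (k' + 2) v)) y = true ↔
        (alive1 y → rv (k' + 1) z y.1 = true) := by
    intro z y
    rw [← hP]
    exact a1 z y
  obtain ⟨t, ht⟩ : ∃ t, t = rt R n := ⟨_, rfl⟩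
  obtain ⟨S, hS⟩ : ∃ S, S = rS R n := ⟨_, rfl⟩
  have ht' : t = R.q.eval S + (S + 1) * (R.ps.length + 1) + 3 := by
    rw [ht, hS]
    rfl
  rw [← ht] at hSW hK hRw hRL
  have hwg' : w * g ^ (k' + 1) < 2 ^ n := hwg
  have hwk : w * g ^ k' < 2 ^ n := by
    refine lt_of_le_of_lt (Nat.mul_le_mul_left _ ?_) hwg'
    exact Nat.pow_le_pow_right hg0 (Nat.le_succ _)
  have hwt : t < w := by omega
  -- the rounds
  obtain ⟨Φ, alive2, r1, r2, r3⟩ := rounds (W := Fin w) (G := Fin g) (K := K) (t := t)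
    (h := n * (k' + 3) + 3) (M := 2 ^ ((S + 1) * (R.ps.length + 1))) hK0 (by omega)
    (by rw [Nat.card_eq_fintype_card, Fintype.card_fin, hRg])
    (by
      have h1 : 2 ^ t * (4 * t) ^ t ≤ K ^ t := by
        rw [← mul_pow]
        refine Nat.pow_le_pow_left ?_ t
        calc 2 * (4 * t) = 8 * t := by ring
          _ ≤ K := hK
      refine le_trans (Nat.mul_le_mul_right _ ?_) h1
      calc 4 * 2 ^ ((S + 1) * (R.ps.length + 1)) = 2 ^ ((S + 1) * (R.ps.length + 1) + 2) := by
            ring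
        _ ≤ 2 ^ t := Nat.pow_le_pow_right (by norm_num) (by omega))
    k'
    (by
      rw [card_Ut, Nat.card_eq_fintype_card, Nat.card_eq_fintype_card, Fintype.card_fin,
        Fintype.card_fin]
      calc 4 * (w * g ^ k') ^ (k' + 2) ≤ 4 * (2 ^ n) ^ (k' + 2) := by gcongr
        _ = 2 ^ (n * (k' + 2) + 2) := by rw [← pow_mul]; ring
        _ ≤ 2 ^ (n * (k' + 3) + 3) := Nat.pow_le_pow_right (by norm_num) (by nlinarith))
    (fun m v z => famG Wd R.Q R.q R.ps (m + 1) v (PR fun c => z (Nd.proj (k' + 2) c)))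
    (fun m => nds R.ps (rLam R n) (m + 1))
    (fun m => by
      rw [hS]
      exact card_nds R.ps (rLam R n) (m + 1))
    (fun v hv => (hSW v hv).comp_map (Nd.proj (k' + 2)))
    (fun m hm v hv => by
      obtain ⟨S', hS1, hS2⟩ := famG_succ Wd R.Q R.q R.ps (rLam R n) (m + 1) (by omega) v hv
      exact ⟨S', hS1, fun α => hS2 _⟩)
  -- the game
  obtain ⟨x, hx⟩ : ∃ x, x = 2 ^ n := ⟨_, rfl⟩
  obtain ⟨τ, hτ⟩ : ∃ τ : ℕ → Ut (Fin w) (Fin g) k' × Fin g, τ = dcd hw0 hg0 (k' + 1) := ⟨_, rfl⟩
  have hxb : (Nat.bits x).length = n + 1 := by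
    rw [hx]
    exact bits_two_pow n
  rw [← hx] at hC0 hCle hC ⊢
  let zz : (Fin w → Fin w → Bool) → (Nd (Fin w) 2 → Bool) := fun z v => z v.1.2 v.2
  let ZC : (Fin w → Fin w → Bool) → (Nd (Ut (Fin w) (Fin g) k' × Fin g) (k' + 2) → Bool) :=
    fun z c => Φ (zz z) (Nd.proj (k' + 2) c)
  have hrow : ∀ (z : Fin w → Fin w → Bool) (y : Ut (Fin w) (Fin g) k' × Fin g),
      rv (U := Ut (Fin w) (Fin g) k' × Fin g) (k' + 2) (PR (ZC z)) y = false ↔
        (alive1 y ∧ alive2 y.1 ∧ ∀ u, z (Ut.base k' y.1) u = true) := by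
    intro z y
    have h1 := b1 (Φ (zz z)) y
    have h2 := r2 (zz z) y.1
    have h3 : rv 1 (zz z) (Ut.base k' y.1) = false ↔ ∀ u, z (Ut.base k' y.1) u = true := by
      show col (P := Nd (Fin w) 1) (U := Fin w) (zz z) ((), _) = false ↔ _
      rw [col_false]
    rw [← h3, ← Bool.not_eq_true, ← Bool.not_eq_true]
    show ¬ (rv (U := Ut (Fin w) (Fin g) k' × Fin g) (k' + 2)
      (PR fun v => Φ (zz z) (Nd.proj (k' + 2) v)) y = true) ↔ _
    rw [h1, h2]
    push Not
    rfl
  let D : GameData (Fin w → Bool) w :=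
    { fe := fun r => ∀ u, r u = true
      r1 := fun _ => true
      r0 := fun _ => false
      C := fun z => CC (PR (ZC z))
      x := x
      κ := fun y => if y ≤ x ∧ alive1 (τ (y - 1)) ∧ alive2 (τ (y - 1)).1 then
        some (Ut.base k' (τ (y - 1)).1) else none
      O := fun z => {v | sigE (Wd (PR (ZC z))) R.Q R.q R.ps [v]}
      Λ := rLam R n
      τ := t
      hr1 := fun _ => rfl
      hr0 := fun h => by simpa using h ⟨0, hw0⟩
      hC0 := fun z => hC0 _
      hC := by
        intro z y hy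
        by_cases hyx : y ≤ x
        · have h1 : CC (PR (ZC z)) x y ↔ rv (U := Ut (Fin w) (Fin g) k' × Fin g) (k' + 2)
              (PR (ZC z)) (τ (y - 1)) = false := by
            rw [hτ]
            exact hC (PR (ZC z)) y hy hyx
          rw [h1, hrow]
          constructor
          · rintro ⟨h4, h5, h6⟩
            exact ⟨_, if_pos ⟨hyx, h4, h5⟩, h6⟩
          · rintro ⟨r, h4, h5⟩
            by_cases h6 : y ≤ x ∧ alive1 (τ (y - 1)) ∧ alive2 (τ (y - 1)).1
            · rw [if_pos h6] at h4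
              obtain rfl := Option.some.inj h4
              exact ⟨h6.2.1, h6.2.2, h5⟩
            · rw [if_neg h6] at h4
              cases h4
        · constructor
          · intro h
            exact absurd (hCle _ _ h) hyx
          · rintro ⟨r, h4, -⟩
            rw [if_neg (fun h => hyx h.1)] at h4
            cases h4
      hmono := by
        intro y y' r r' h1 h2 h3
        by_cases h4 : y ≤ x ∧ alive1 (τ (y - 1)) ∧ alive2 (τ (y - 1)).1
        · by_cases h5 : y' ≤ x ∧ alive1 (τ (y' - 1)) ∧ alive2 (τ (y' - 1)).1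
          · rw [if_pos h4] at h1
            rw [if_pos h5] at h2
            by_contra hcon
            have h6 : y' - 1 ≤ y - 1 := by omega
            have h7 := base_dcd_mono hw0 hg0 (k' + 1) h6
            rw [← hτ] at h7
            rw [← Option.some.inj h1, ← Option.some.inj h2] at h3
            exact absurd h3 (not_lt.2 h7)
          · rw [if_neg h5] at h2
            cases h2
        · rw [if_neg h4] at h1
          cases h1
      hsurj := by
        intro r
        obtain ⟨y₀, hy₀, hal⟩ := r3 r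
        obtain ⟨g₀, hg₀⟩ := a2 y₀
        obtain ⟨m, hm, hmu⟩ := dcd_surj hw0 hg0 (k' + 1) (y₀, g₀)
        refine ⟨m + 1, by omega, by omega, ?_⟩
        have h1 : τ (m + 1 - 1) = (y₀, g₀) := by
          rw [hτ]
          exact hmu
        rw [h1, if_pos ⟨by omega, hg₀, hal⟩, hy₀]
      hO := by
        intro v hv S₀ z₀
        have hcert := r1 [v] (by
          have h1 := mem_nds_top R.ps (rLam R n) hv
          rw [hRk] at h1
          exact h1)
        have hOz : ∀ z, v ∈ {v | sigE (Wd (PR (ZC z))) R.Q R.q R.ps [v]} ↔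
            famG Wd R.Q R.q R.ps (k' + 1 + 1) [v] (PR fun c => Φ (zz z) (Nd.proj (k' + 2) c)) := by
          intro z
          have h1 := famG_top Wd R.Q R.q R.ps (PR (ZC z)) [v]
          rw [hRk] at h1
          exact h1.symm
        by_cases hex : ∃ z : Fin w → Fin w → Bool, (∀ r ∈ S₀, z r = z₀ r) ∧
            famG Wd R.Q R.q R.ps (k' + 1 + 1) [v] (PR fun c => Φ (zz z) (Nd.proj (k' + 2) c))
        · obtain ⟨z, hz, hzO⟩ := hex
          obtain ⟨X, hX, hXc⟩ := hcert (zz z) hzO
          have htrue : ∀ z'' : Fin w → Fin w → Bool,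
              (∀ r ∈ S₀ ∪ X.image (fun x => x.1.2), z'' r =
                (if r ∈ S₀ then z₀ r else fun u => if (((), r), u) ∈ X then z r u else false)) →
              v ∈ {v | sigE (Wd (PR (ZC z''))) R.Q R.q R.ps [v]} := by
            intro z'' hz''
            rw [hOz]
            refine hXc (zz z'') fun y hy => ?_
            have h1 := hz'' y.1.2 (Finset.mem_union_right _ (Finset.mem_image_of_mem _ hy))
            show z'' y.1.2 y.2 = z y.1.2 y.2
            rw [h1]
            by_cases h2 : y.1.2 ∈ S₀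
            · rw [if_pos h2, hz _ h2]
            · rw [if_neg h2]
              have h3 : (((), y.1.2), y.2) ∈ X := hy
              simp only [h3, if_true]
          refine ⟨S₀ ∪ X.image (fun x => x.1.2), fun r => if r ∈ S₀ then z₀ r else
            fun u => if (((), r), u) ∈ X then z r u else false, Finset.subset_union_left,
            ?_, fun r hr => by simp only [hr, if_true], fun r hr hr' hfe => ?_,
            fun z'' hz'' => iff_of_true (htrue z'' hz'') (htrue _ fun r _ => rfl)⟩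
          · refine (Finset.card_union_le _ _).trans (Nat.add_le_add_left ?_ _)
            exact Finset.card_image_le.trans hX
          · simp only [hr', if_false] at hfe
            have hcard : (X.image fun x => x.2).card < Fintype.card (Fin w) := by
              rw [Fintype.card_fin]
              exact (Finset.card_image_le.trans hX).trans_lt hwt
            obtain ⟨u, hu⟩ : ∃ u : Fin w, u ∉ X.image fun x => x.2 := by
              by_contra hcon
              push Not at hcon
              have : (X.image fun x => x.2) = Finset.univ :=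
                Finset.eq_univ_iff_forall.2 hcon
              rw [this, Finset.card_univ] at hcard
              exact lt_irrefl _ hcard
            have h4 := hfe u
            have h5 : (((), r), u) ∉ X := fun hc => hu (Finset.mem_image.2 ⟨_, hc, rfl⟩)
            simp only [h5, if_false] at h4
            cases h4
        · push Not at hex
          refine ⟨S₀, z₀, Finset.Subset.refl _, Nat.le_add_right _ _, fun _ _ => rfl,
            fun r hr hr' => absurd hr hr', fun z hz => iff_of_false ?_ ?_⟩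
          · rw [hOz]; exact hex z hz
          · rw [hOz]; exact hex z₀ fun _ _ => rfl }
  obtain ⟨z, hz⟩ := D.lose R.P (T := rT R n) (B := rT R n * (t + 1)) rfl (by
    show (rT R n + 1) * (rT R n * (t + 1) + 1) ≤ w
    omega) (by
    show (Nat.bits x).length + rT R n ≤ rLam R n
    rw [hxb]
    exact le_rfl)
  exact ⟨ZC z, hz⟩

end Pool.Agent.Lib.MP_2b5695_lc.Gv
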