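import Pool.Agent.Lib.MP_2b5695_lc.Gv.OneVarU
import Pool.Agent.Lib.MP_2b5695_lc.Gv.StageAbs0
import Pool.Agent.Lib.MP_2b5695_lc.Gv.StageAbs1

/-!
The stages.
-/

namespace Pool.Agent.Lib.MP_2b5695_lc.Gv

variable {par : ℕ → SP} {cc : ℕ → ℕ}

/-- membership of the cells of stage `s` in the world of `α` -/
theorem mem_Jst_self (W : Wld par) (s : ℕ) (α : (par s).Cel → Bool) (b : (par s).Cel) :
    (⟨s, b⟩ : Gam par) ∈ Jst par W s α ↔ α b = false := by
  constructor
  · rintro (⟨h, -⟩ | ⟨b', hb', h⟩)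
    · exact absurd h (lt_irrefl _)
    · have : b = b' := by
        injection hb' with _ h3
      subst this
      exact h
  · intro h
    exact Or.inr ⟨b, rfl, h⟩

theorem stageU (hp : ParOK par cc) (W : Wld par) (s : ℕ) (R : Rq)
    (hR : SPOK (par s) R) (ρ : (par s).Col → St (par s).U (par s).K)
    (hSW : SW par cc W s R ρ) (hST : ST (par s) ρ) (hND : ND (par s) ρ) :
    ∃ z : (par s).Col → Bool, LoseP par cc W s R ρ z := by
  have hlen : R.ps.length = (par s).k + 1 := hR.k
  have hK : 8 * rt R (par s).n ≤ (par s).K := by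
    have h1 := hR.L
    have h2 := hp.LK s
    have h3 := hp.nL s
    have h4 : (par s).L ≤ (par s).L * (par s).L * (par s).L := by
      have h5 : 1 ≤ (par s).L * (par s).L := Nat.mul_pos (by omega) (by omega)
      exact Nat.le_mul_of_pos_left _ h5
    omega
  have hC0 : ∀ α : (par s).Cel → Bool,
      CL ((HW par).fp (Jst par W s α)) R.ps.length (2 ^ (par s).n) 0 := by
    intro α
    rw [fp_eq hp]
    exact CL_zero _ _ _
  have hCle : ∀ (α : (par s).Cel → Bool) (y : ℕ),
      CL ((HW par).fp (Jst par W s α)) R.ps.length (2 ^ (par s).n) y → y ≤ 2 ^ (par s).n := by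
    intro α y h
    rw [fp_eq hp] at h
    exact CL_le _ _ _ _ h
  have hC : ∀ (α : (par s).Cel → Bool) (y : ℕ), y ≠ 0 → y ≤ 2 ^ (par s).n →
      (CL ((HW par).fp (Jst par W s α)) R.ps.length (2 ^ (par s).n) y ↔
        rv (U := (par s).U) ((par s).k + 1) α ((par s).τ (y - 1)) = false) := by
    intro α y hy hyx
    rw [hlen]
    exact CL_stage hp W s α (mem_Jst_self W s α) hy hyx
  rcases hk : (par s).k with _ | k'
  · exact stage_abs_zero (par s) hk R hR (hp.wg s) (OW par cc W s (vp (par s).L ρ))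
      (fun α => CL ((HW par).fp (Jst par W s α)) R.ps.length) hC0 hCle hC ρ hSW hST hND
  · exact stage_abs_succ (par s) k' hk R hR (hp.wg s) hK (OW par cc W s (vp (par s).L ρ))
      (fun α => CL ((HW par).fp (Jst par W s α)) R.ps.length) hC0 hCle hC ρ hSW hST hND

end Pool.Agent.Lib.MP_2b5695_lc.Gv
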