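import Pool.Agent.Lib.MP_2b5695_lc.Gv.OneVarU

/-!
From the oracle of a stage to the final oracle.
-/

namespace Pool.Agent.Lib.MP_2b5695_lc.Gv

variable {par : ℕ → SP} {cc : ℕ → ℕ}

/-- a machine does not see the difference of oracles at long words -/
theorem ensures_short {P : Prog} {O O' : Set (List Bool)} {Λ : ℕ}
    (h : ∀ v : List Bool, v.length ≤ Λ → (v ∈ O ↔ v ∈ O')) {C : ℕ → ℕ → Prop} {ρ : ℕ → ℕ}
    {x : ℕ} {good : Bool → List Bool → Prop} :
    ∀ (t pc : ℕ) (stk : ℕ → List Bool) (e : ℕ), (Nat.bits x).length + e + t ≤ Λ →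
      (∀ s, (stk s).length ≤ (Nat.bits x).length + e) →
      (Ensures P O (Answers C ρ x) good t pc stk → Ensures P O' (Answers C ρ x) good t pc stk) := by
  intro t
  induction t with
  | zero => intro pc stk e _ _ h; exact h
  | succ t ih =>
    intro pc stk e he hs hE
    have hup : ∀ (s' : ℕ) (w : List Bool), w.length ≤ (Nat.bits x).length + (e + 1) → ∀ s,
        (Function.update stk s' w s).length ≤ (Nat.bits x).length + (e + 1) := by
      intro s' w hw s
      by_cases h1 : s = s'
      · subst h1
        rw [Function.update_self]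
        exact hw
      · rw [Function.update_of_ne h1]
        have := hs s
        omega
    have hs1 : ∀ s, (stk s).length ≤ (Nat.bits x).length + (e + 1) := fun s => by
      have := hs s
      omega
    have ih' : ∀ (pc : ℕ) (stk : ℕ → List Bool),
        (∀ s, (stk s).length ≤ (Nat.bits x).length + (e + 1)) →
        Ensures P O (Answers C ρ x) good t pc stk → Ensures P O' (Answers C ρ x) good t pc stk :=
      fun pc stk h1 => ih pc stk (e + 1) (by omega) h1
    unfold Ensures at hE ⊢
    cases hP : P[pc]? with
    | none => rw [hP] at hE; exact hE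
    | some ins =>
      rw [hP] at hE
      cases ins with
      | push s b l =>
        refine ih' _ _ (hup s _ ?_) hE
        have := hs s
        simp only [List.length_cons]
        omega
      | pop s l₀ l₁ e' =>
        dsimp only at hE ⊢
        cases hs2 : stk s with
        | nil => rw [hs2] at hE; exact ih' _ _ hs1 hE
        | cons b w =>
          rw [hs2] at hE
          have h3 := hs s
          rw [hs2, List.length_cons] at h3
          cases b
          · exact ih' _ _ (hup s w (by omega)) hE
          · exact ih' _ _ (hup s w (by omega)) hE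
      | query s y n =>
        have h3 := h (stk s) (by have := hs s; omega)
        exact ⟨fun hh => ih' _ _ hs1 (hE.1 (h3.2 hh)),
          fun hh => ih' _ _ hs1 (hE.2 fun h4 => hh (h3.1 h4))⟩
      | present s y n =>
        refine ⟨fun hh => ih' _ _ hs1 (hE.1 hh), fun z hh => ih' _ _ (hup s _ ?_) (hE.2 z hh)⟩
        have h4 : z ≤ x := hh.1
        have := bits_len_mono h4
        omega
      | halt b => exact hE

theorem tr_bdl_mono (ps : List (Polynomial ℕ)) : ∀ {a b : ℕ}, a ≤ b → bdl ps a ≤ bdl ps b := by
  induction ps with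
  | nil => intro a b h; exact h
  | cons p ps ih =>
    intro a b h
    exact ih (Nat.add_le_add h (eval_mono p h))

/-- `Σ`-formulas depend only on short words -/
theorem sigE_short {Q : Prog} {q : Polynomial ℕ} {A A' : Set (List Bool)} {m : ℕ}
    (h : cut m A = cut m A') : ∀ (ps : List (Polynomial ℕ)) (v : List (List Bool)),
      bdl ps (size v) + q.eval (bdl ps (size v)) < m → (sigE A Q q ps v ↔ sigE A' Q q ps v) := by
  intro ps
  induction ps with
  | nil =>
    intro v hv
    have hv' : size v + q.eval (size v) < m := hv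
    unfold sigE
    rw [out_local h hv']
  | cons p ps ih =>
    intro v hv
    unfold sigE
    refine exists_congr fun u => and_congr_right fun hu => not_congr (ih _ ?_)
    have h1 : bdl ps (size (v ++ [u])) ≤ bdl (p :: ps) (size v) := by
      refine tr_bdl_mono ps (a := size (v ++ [u])) (b := size v + p.eval (size v)) ?_
      rw [size_append_singleton]
      omega
    have h2 := eval_mono q h1
    omega

theorem tr_mem_Jst (W : Wld par) {s : ℕ} {c : Gam par} (hc : c.1 ≤ s) :
    c ∈ rl W ↔ c ∈ Jst par W s (Phi (W s).1 (W s).2) := by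
  obtain ⟨s', b⟩ := c
  dsimp only at hc
  rcases Nat.lt_or_ge s' s with h | h
  · constructor
    · intro h1
      exact Or.inl ⟨h, h1⟩
    · rintro (⟨_, h1⟩ | ⟨b', hb', _⟩)
      · exact h1
      · have := congrArg Sigma.fst hb'
        dsimp only at this
        omega
  · obtain rfl : s' = s := le_antisymm hc h
    constructor
    · intro h1
      exact Or.inr ⟨b, rfl, h1⟩
    · rintro (⟨h1, _⟩ | ⟨b', hb', h2⟩)
      · exact absurd h1 (lt_irrefl _)
      · obtain rfl : b = b' := by simpa using hb'
        exact h2

theorem cut_ora (hp : ParOK par cc) (W : Wld par) (s : ℕ) :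
    cut (par s).L (ora par cc W) =
      cut (par s).L (OW par cc W s (vp (par s).L (W s).1) (Phi (W s).1 (W s).2)) := by
  have key : ∀ w : List Bool, w.length < (par s).L → (w ∈ ora par cc W ↔
      w ∈ OW par cc W s (vp (par s).L (W s).1) (Phi (W s).1 (W s).2)) := by
    intro w hw
    unfold ora OW
    rcases w with _ | ⟨a, v⟩
    · simp
    · rw [List.length_cons] at hw
      cases a
      · rw [false_mem_join, false_mem_join]
        unfold Hid.fp
        simp only [Set.mem_ofPred_eq]
        refine or_congr Iff.rfl (exists_congr fun c => and_congr_right fun hc => not_congr ?_)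
        have h1 : IsCell par c v := (cellW_eq hp).1 hc
        have h2 := cell_length h1
        refine tr_mem_Jst W ?_
        by_contra h3
        have h4 := hp.mono (not_le.1 h3)
        omega
      · rw [true_mem_join, true_mem_join, ← cut_brV_eq hp W le_rfl]
        simp only [cut, Set.mem_ofPred_eq]
        exact ⟨fun h => ⟨h, by omega⟩, fun h => h.1⟩
  ext w
  simp only [cut, Set.mem_ofPred_eq]
  constructor
  · rintro ⟨h1, h2⟩
    exact ⟨(key w h2).1 h1, h2⟩
  · rintro ⟨h1, h2⟩
    exact ⟨(key w h2).2 h1, h2⟩

theorem tr_wd_congr {E E' : Set (List Bool)} {i x y : ℕ} {us : List (List Bool)}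
    (hus : us.length = i) (h : ¬ (0 < y ∧ y ≤ x)) :
    codeW i (Nat.bits x :: Nat.bits y :: us) ∈ wd E ↔
      codeW i (Nat.bits x :: Nat.bits y :: us) ∈ wd E' := by
  subst hus
  rw [mem_wd, mem_wd]
  tauto

theorem CL_real (hp : ParOK par cc) (W : Wld par) (s y : ℕ) :
    CL ((HW par).fp (rl W)) ((par s).k + 1) (2 ^ (par s).n) y ↔
      CL ((HW par).fp (Jst par W s (Phi (W s).1 (W s).2))) ((par s).k + 1) (2 ^ (par s).n) y := by
  unfold CL
  refine not_congr (NT_congr _ _ fun us hus => ?_)
  show codeW ((par s).k + 1) (Nat.bits (2 ^ (par s).n) :: Nat.bits y :: us) ∈ _ ↔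
    codeW ((par s).k + 1) (Nat.bits (2 ^ (par s).n) :: Nat.bits y :: us) ∈ _
  by_cases h : 0 < y ∧ y ≤ 2 ^ (par s).n
  · rw [mem_fp_code hp _ hus h.1 h.2, mem_fp_code hp _ hus h.1 h.2]
    exact not_congr (tr_mem_Jst W le_rfl)
  · rw [fp_eq hp, fp_eq hp]
    exact tr_wd_congr hus h

theorem loses (hp : ParOK par cc) (W : Wld par) (s : ℕ) (R : Rq) (hR : SPOK (par s) R)
    (h : LoseP par cc W s R (W s).1 (W s).2) :
    ¬ Ensures R.P {v | sigE (ora par cc W) R.Q R.q R.ps [v]}
      (Answers (CL ((HW par).fp (rl W)) R.ps.length) id (2 ^ (par s).n))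
      (fun _ v => Optimal (CL ((HW par).fp (rl W)) R.ps.length) id (2 ^ (par s).n) (val v))
      (R.p.eval (Nat.bits (2 ^ (par s).n)).length) 0 (load [Nat.bits (2 ^ (par s).n)]) := by
  intro hE
  apply h
  have hC : ∀ y, CL ((HW par).fp (rl W)) R.ps.length (2 ^ (par s).n) y ↔
      CL ((HW par).fp (Jst par W s (Phi (W s).1 (W s).2))) R.ps.length (2 ^ (par s).n) y := by
    intro y
    rw [hR.k]
    exact CL_real hp W s y
  have hO : ∀ y, Optimal (CL ((HW par).fp (rl W)) R.ps.length) id (2 ^ (par s).n) y ↔
      Optimal (CL ((HW par).fp (Jst par W s (Phi (W s).1 (W s).2))) R.ps.length) id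
        (2 ^ (par s).n) y := by
    intro y
    unfold Optimal
    simp only [hC]
  have hA : Answers (CL ((HW par).fp (rl W)) R.ps.length) id (2 ^ (par s).n) =
      Answers (CL ((HW par).fp (Jst par W s (Phi (W s).1 (W s).2))) R.ps.length) id
        (2 ^ (par s).n) := by
    funext y a
    cases a with
    | none => exact propext (hO y)
    | some z =>
      unfold Answers RelB
      simp only [hC]
  simp only [hO, hA] at hE
  have hlen : (Nat.bits (2 ^ (par s).n)).length = (par s).n + 1 := bits_two_pow _
  rw [hlen] at hE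
  refine ensures_short (Λ := rLam R (par s).n) ?_ _ _ _ 0 ?_ ?_ hE
  · intro v hv
    simp only [Set.mem_ofPred_eq]
    refine sigE_short (cut_ora hp W s) R.ps [v] ?_
    have h1 : size [v] = v.length := by simp [size]
    rw [h1]
    have h2 : bdl R.ps v.length ≤ rS R (par s).n := tr_bdl_mono R.ps hv
    have h3 := eval_mono R.q h2
    have h4 := hR.L
    omega
  · rw [hlen]
    unfold rLam rT
    omega
  · intro s'
    have h1 := load_length_le [Nat.bits (2 ^ (par s).n)] s'
    have h2 : size [Nat.bits (2 ^ (par s).n)] = (Nat.bits (2 ^ (par s).n)).length := by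
      simp [size]
    omega

end Pool.Agent.Lib.MP_2b5695_lc.Gv
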