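import Pool.Agent.Lib.MP_2b5695_lc.Gv.Comp
import Pool.Agent.Lib.MP_2b5695_lc.Gv.StageU
import Pool.Agent.Lib.MP_2b5695_lc.Gv.TransferU
import Pool.Agent.Lib.MP_2b5695_lc.Gv.Select
import Pool.Agent.Lib.MP_2b5695_lc.Gv.Params

/-!
The oracle: the levels above zero are not computed, level zero is.
-/

namespace Pool.Agent.Lib.MP_2b5695_lc.Gv

instance : Countable Rq := by
  have h : Function.Injective (fun d : Rq => (d.P, d.p, d.Q, d.q, d.ps)) := by
    intro d d' h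
    cases d; cases d'
    simpa using h
  exact h.countable

theorem exists_rq : ∃ rq : ℕ → Rq, (∀ s, (rq s).ps ≠ []) ∧
    ∀ R : Rq, R.ps ≠ [] → ∃ s, rq s = R := by
  have : Nonempty {R : Rq // R.ps ≠ []} := ⟨⟨⟨[], 0, [], 0, [0]⟩, by simp⟩⟩
  obtain ⟨f, hf⟩ := exists_surjective_nat {R : Rq // R.ps ≠ []}
  refine ⟨fun s => (f s).1, fun s => (f s).2, fun R hR => ?_⟩
  obtain ⟨s, hs⟩ := hf ⟨R, hR⟩
  exact ⟨s, congrArg Subtype.val hs⟩

/-- the condition on the configuration of stage `s` -/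
def GoodS (par : ℕ → SP) (cc : ℕ → ℕ) (rq : ℕ → Rq) (W : Wld par) (s : ℕ) : Prop :=
  (∀ j d x, Win par cc s j d x →
    ¬ GA par cc W s j d x (W s).1 ∧ ¬ GB par cc W s j d x (W s).1) ∧
  LoseP par cc W s (rq s) (W s).1 (W s).2

theorem exists_world {par : ℕ → SP} {cc : ℕ → ℕ} (hp : ParOK par cc) {rq : ℕ → Rq}
    (hR : ∀ s, SPOK (par s) (rq s)) : ∃ W : Wld par, ∀ s, GoodS par cc rq W s := by
  have hne : ∀ s, Nonempty (Cfg (par s)) := fun s =>
    ⟨(fun _ => .inr (.inr ⟨0, (par s).hK⟩), fun _ => false)⟩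
  refine exists_stages (F := fun s => Cfg (par s)) (GoodS par cc rq) ?_ ?_
  · intro W W' s h
    have h1 : ∀ s' < s, W s' = W' s' := fun s' hs' => h s' hs'.le
    have h2 := h s le_rfl
    unfold GoodS
    rw [h2]
    refine and_congr ?_ (LoseP_congr h1 _ _ _)
    refine forall_congr' fun j => forall_congr' fun d => forall_congr' fun x =>
      imp_congr_right fun _ => and_congr (not_congr (GA_congr h1 _ _ _ _))
        (not_congr (GB_congr h1 _ _ _ _))
  · intro W s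
    obtain ⟨ρ, h1, h2, h3, h4⟩ := exists_good hp W s (rq s) (hR s)
    obtain ⟨z, hz⟩ := stageU hp W s (rq s) (hR s) ρ h1 h2 h3
    refine ⟨(ρ, z), ?_⟩
    have h5 : ∀ s' < s, W s' = Function.update W s ((ρ, z) : Cfg (par s)) s' := fun s' hs' => by
      rw [Function.update_of_ne (by omega)]
    unfold GoodS
    rw [Function.update_self]
    refine ⟨fun j d x hw => ⟨fun h => (h4 j d x hw).1 ((GA_congr h5 _ _ _ _).2 h),
      fun h => (h4 j d x hw).2 ((GB_congr h5 _ _ _ _).2 h)⟩, (LoseP_congr h5 _ _ _).1 hz⟩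

/-- **The levels above zero are not computed, level zero is.** -/
theorem exists_oracle_up : ∃ A : Set (List Bool),
    (∀ (C : ℕ → ℕ → Prop) (ρ : ℕ → ℕ), OptProblem A 0 C ρ → Computed A 0 C ρ) ∧
    ∀ i : ℕ, 1 ≤ i → ∃ (C : ℕ → ℕ → Prop) (ρ : ℕ → ℕ),
      OptProblem A i C ρ ∧ ¬ Computed A i C ρ := by
  obtain ⟨rq, hrq1, hrq2⟩ := exists_rq
  obtain ⟨par, cc, hp, hR⟩ := exists_params rq hrq1
  obtain ⟨W, hW⟩ := exists_world hp hR
  refine ⟨ora par cc W, fun C ρ h => computedU hp W (fun s => (hW s).1) C ρ h, fun i hi =>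
    ⟨CL ((HW par).fp (rl W)) i, id, optU hp W i, ?_⟩⟩
  rintro ⟨O, P, p, hO, hP⟩
  obtain ⟨Q, q, ps, hps, hQ⟩ := exists_sigE i 1 _ hO
  have hne : ps ≠ [] := by
    rintro rfl
    simp only [List.length_nil] at hps
    omega
  obtain ⟨s, hs⟩ := hrq2 ⟨P, p, Q, q, ps⟩ hne
  have h1 := loses hp W s (rq s) (hR s) (hW s).2
  rw [hs] at h1
  apply h1
  have hOeq : {v | sigE (ora par cc W) Q q ps [v]} = O := by
    ext v
    have := hQ [v] rfl
    simp only [List.cons.injEq, and_true, exists_eq_right'] at this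
    exact this.symm
  simp only
  rw [hOeq, hps]
  exact hP _

end Pool.Agent.Lib.MP_2b5695_lc.Gv
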