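import Pool.Agent.Lib.MP_2b5695_lc.Level0

/-!
Hidden cells, runs in a world in which exactly the cells of a set `J` are real, the student and
its histories.
-/

namespace Pool.Agent.Lib.MP_2b5695_lc.Gv

/-- hidden structure: `cell v` is the cell asked for by the word `v`, if any -/
structure Hid (Γ : Type) where
  /-- the cell asked for -/
  cell : List Bool → Option Γ
  /-- the other words of the oracle -/
  base : Set (List Bool)

/-- the words of the oracle if `J` is the set of the real cells: a word that asks for a cell
belongs to it iff the cell is not real -/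
def Hid.fp {Γ : Type} (H : Hid Γ) (J : Set Γ) : Set (List Bool) :=
  {v | (H.cell v = none ∧ v ∈ H.base) ∨ ∃ c, H.cell v = some c ∧ c ∉ J}

section

variable {Γ : Type} (H : Hid Γ) (d : Data) (X : Set (List Bool)) (x : ℕ)

/-- the words asked (with leading zero) in the computations of feasibility and cost of `y`, in
the world `J` -/
noncomputable def wlist (J : Set Γ) (y : ℕ) : List (List Bool) :=
  falsePart (qrs d.Q (join X (H.fp J)) (d.q.eval (size [Nat.bits x, Nat.bits y])) 0
    (load [Nat.bits x, Nat.bits y])) ++
  falsePart (qrs d.R (join X (H.fp J)) (d.r.eval (Nat.bits y).length) 0 (load [Nat.bits y]))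

/-- the cells asked for -/
noncomputable def clist (J : Set Γ) (y : ℕ) : List Γ := (wlist H d X x J y).filterMap H.cell

open Classical in
/-- the value of `y` in the world `J`: `0` if it is not feasible, otherwise its cost plus one -/
noncomputable def valT (J : Set Γ) (y : ℕ) : ℕ :=
  if d.feas (join X (H.fp J)) x y then d.cost (join X (H.fp J)) y + 1 else 0

/-- an optimal solution in the world `J` -/
noncomputable def optT (J : Set Γ) : ℕ := d.opt (join X (H.fp J)) x

/-- all computations are shorter than `m` -/
def Small (m : ℕ) : Prop :=
  (Nat.bits x).length + (Nat.bits x).length +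
    d.q.eval ((Nat.bits x).length + (Nat.bits x).length) + d.r.eval (Nat.bits x).length < m

/-- the world given by the visible cells and a list -/
def kn (Vis : Set Γ) (K : List Γ) : Set Γ := Vis ∪ {c | c ∈ K}

/-- the number inspected in a state: a counterexample or the present optimum -/
noncomputable def cur (J : Set Γ) (o : Option ℕ) : ℕ := o.getD (optT H d X x J)

/-- The histories of the student. `Reach toks ws o K`: after the steps `toks` (`some idx`: the
cell number `idx` of the inspected computation is real and new; `none`: change of mode) and the
counterexamples `ws`, the student is in mode `o` (`none`: it inspects its candidate; `some z`: it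
inspects the counterexample `z`) and has found the cells of `K`. -/
inductive Reach (Vis Rc : Set Γ) :
    List (Option ℕ) → List ℕ → Option ℕ → List Γ → Prop
  | start : Reach Vis Rc [] [] none []
  | hit {toks ws o K idx c} : Reach Vis Rc toks ws o K →
      (clist H d X x (kn Vis K) (cur H d X x (kn Vis K) o))[idx]? = some c → c ∉ Vis → c ∉ K →
      c ∈ Rc → Reach Vis Rc (toks ++ [some idx]) ws o (c :: K)
  | pres {toks ws K z} : Reach Vis Rc toks ws none K → z ≤ x →
      valT H d X x (kn Vis K) (optT H d X x (kn Vis K)) < valT H d X x Rc z →
      Reach Vis Rc (toks ++ [none]) (ws ++ [z]) (some z) K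
  | done {toks ws K z} : Reach Vis Rc toks ws (some z) K →
      (∀ c ∈ clist H d X x (kn Vis K) z, c ∈ Rc → c ∈ kn Vis K) →
      Reach Vis Rc (toks ++ [none]) ws none K

/-- one step of the generation of a state from its history -/
noncomputable def gstep (Vis : Set Γ) (st : Option ℕ × List Γ × List ℕ) (tok : Option ℕ) :
    Option ℕ × List Γ × List ℕ :=
  match tok with
  | some idx =>
    match (clist H d X x (kn Vis st.2.1) (cur H d X x (kn Vis st.2.1) st.1))[idx]? with
    | some c => (st.1, c :: st.2.1, st.2.2)
    | none => st
  | none =>
    match st.1 with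
    | some _ => (none, st.2.1, st.2.2)
    | none =>
      match st.2.2 with
      | z :: ws => (some z, st.2.1, ws)
      | [] => st

/-- the state generated by a history -/
noncomputable def gen (Vis : Set Γ) (toks : List (Option ℕ)) (ws : List ℕ) :
    Option ℕ × List Γ × List ℕ :=
  toks.foldl (gstep H d X x Vis) (none, [], ws)

/-- chains of worlds, see `Ch` -/
def ChG (Vis Rc : Set Γ) : ℕ → Set Γ → Prop
  | 0, _ => True
  | a + 1, J => ∃ J₀ : Set Γ, J₀ ⊆ J ∧ Vis ⊆ J₀ ∧ ChG Vis Rc a J₀ ∧
      ∃ z ≤ x, valT H d X x J₀ (optT H d X x J₀) < valT H d X x Rc z ∧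
        ∀ c ∈ clist H d X x Rc z, c ∈ Rc → c ∈ J

open Classical in
/-- ask for the cells outside of `J`, until a real one is found -/
noncomputable def scan (J : Set Γ) : List (List Bool) → (Γ → Tree) → Tree → Tree
  | [], _, g => g
  | v :: l, f, g =>
    match H.cell v with
    | none => scan J l f g
    | some c => if c ∈ J then scan J l f g else
        write v (.query fun b => dropT v.length (if b = true then scan J l f g else f c))

/-- the student -/
noncomputable def stud (Vis : Set Γ) (m : ℕ) : ℕ → Option ℕ → List Γ → Tree
  | 0, _, _ => .halt false
  | n + 1, none, K =>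
    scan H (kn Vis K) (wlist H d X x (kn Vis K) (optT H d X x (kn Vis K)))
      (fun c => stud Vis m n none (c :: K))
      (write (Nat.bits (optT H d X x (kn Vis K))) (.present (.halt true)
        (readAll m [] fun z => stud Vis m n (some (val z)) K)))
  | n + 1, some z, K =>
    scan H (kn Vis K) (wlist H d X x (kn Vis K) z)
      (fun c => stud Vis m n (some z) (c :: K)) (stud Vis m n none K)

end

end Pool.Agent.Lib.MP_2b5695_lc.Gv
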