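import Pool.Agent.Lib.MP_2b5695_lc.Gv.Events
import Pool.Agent.Lib.MP_2b5695_lc.Gv.BrainCongr

/-!
Below the length `L` of stage `s` only the visible part of that stage matters.
-/

namespace Pool.Agent.Lib.MP_2b5695_lc.Gv

variable {par : ℕ → SP} {cc : ℕ → ℕ}

theorem ParOK.mono (hp : ParOK par cc) {s s' : ℕ} (h : s < s') :
    (par s).L ≤ (par s').n := by
  induction s' with
  | zero => omega
  | succ t ih =>
    rcases Nat.lt_or_ge s t with h1 | h1
    · have h2 := ih h1
      have h3 := hp.nL t
      have h4 := hp.Ln t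
      omega
    · have : s = t := by omega
      subst this
      exact hp.Ln s

theorem VsP_vp_some {V U : Type} {K m : ℕ} {ρ : V → St U K} {v : V} {p : U × Fin (4 * K)} :
    vp m ρ v = some p ↔ ρ v = .inr (.inl p) ∧ 4 * K ≤ p.2.val * m := by
  obtain ⟨r, l⟩ := p
  unfold vp
  constructor
  · intro h
    rcases hρ : ρ v with r' | ⟨r', l'⟩ | l'
    · rw [hρ] at h; simp at h
    · rw [hρ] at h
      simp only at h
      split at h
      · rename_i h1
        simp only [Option.some.injEq, Prod.mk.injEq] at h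
        obtain ⟨rfl, rfl⟩ := h
        exact ⟨rfl, h1⟩
      · cases h
    · rw [hρ] at h; simp at h
  · rintro ⟨h, h1⟩
    rw [h]
    simp only at h1 ⊢
    rw [if_pos h1]

theorem vs_eq (hp : ParOK par cc) (W : Wld par) {s r m : ℕ} (hr : r ≤ m)
    (hL : r < (par s).L) : vs W r = vsP par W s (vp m (W s).1) r := by
  ext c
  obtain ⟨s', b⟩ := c
  rcases lt_trichotomy s' s with hs | hs | hs
  · constructor
    · intro hc
      exact Or.inl ⟨hs, hc⟩
    · rintro (⟨_, hc⟩ | ⟨b', hb', _⟩)
      · exact hc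
      · exact absurd (congrArg Sigma.fst hb') (by simpa using (Nat.ne_of_lt hs))
  · subst hs
    constructor
    · rintro ⟨_, hc | ⟨hn, l, h1, h2⟩⟩
      · exact absurd hc (by simpa using hL)
      · refine Or.inr ⟨b, rfl, hn, l, VsP_vp_some.2 ⟨h1, ?_⟩, h2⟩
        exact le_trans h2 (Nat.mul_le_mul_left _ hr)
    · rintro (⟨hlt, _⟩ | ⟨b', hb', hn, l, h1, h2⟩)
      · exact absurd hlt (lt_irrefl _)
      · have hbb : b = b' := by
          simpa using hb'
        subst hbb
        have h3 := (VsP_vp_some.1 h1).1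
        refine ⟨?_, Or.inr ⟨hn, l, h3, h2⟩⟩
        change Phi (W s').1 (W s').2 b = false
        unfold Phi
        rw [h3]
        simp [pv]
  · have h1 := hp.mono hs
    have h2 := hp.nL s'
    constructor
    · rintro ⟨_, hc | ⟨hn, _⟩⟩
      · simp only at hc; omega
      · simp only at hn; omega
    · rintro (⟨hlt, _⟩ | ⟨b', hb', _⟩)
      · simp only at hlt; omega
      · have := congrArg Sigma.fst hb'
        simp only at this; omega

theorem cut_brV_eq (hp : ParOK par cc) (W : Wld par) {s m : ℕ} (hm : m ≤ (par s).L) :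
    cut m (brV par cc (vs W)) = XP par cc W s m (vp m (W s).1) := by
  unfold XP
  exact brV_congr fun r hr => vs_eq hp W (le_of_lt hr) (by omega)

section congr

variable {W W' : Wld par} {s : ℕ} (h : ∀ s' < s, W s' = W' s')
include h

theorem VsP_mem_rl {c : Gam par} (hc : c.1 < s) : c ∈ rl W ↔ c ∈ rl W' := by
  unfold rl
  simp only [Set.mem_ofPred_eq]
  rw [h c.1 hc]

theorem VsP_mem_vs {c : Gam par} (hc : c.1 < s) (r : ℕ) : c ∈ vs W r ↔ c ∈ vs W' r := by
  unfold vs
  simp only [Set.mem_ofPred_eq]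
  rw [h c.1 hc, VsP_mem_rl h hc]

theorem vsP_congr (v₀ : (par s).Col → Option ((par s).U × Fin (4 * (par s).K))) :
    vsP par W s v₀ = vsP par W' s v₀ := by
  funext r
  ext c
  unfold vsP
  simp only [Set.mem_ofPred_eq]
  exact or_congr (and_congr_right fun hc => VsP_mem_vs h hc r) Iff.rfl

theorem XP_congr (m : ℕ) (v₀ : (par s).Col → Option ((par s).U × Fin (4 * (par s).K))) :
    XP par cc W s m v₀ = XP par cc W' s m v₀ := by
  unfold XP
  rw [vsP_congr h]

theorem Jst_congr (β : (par s).Cel → Bool) : Jst par W s β = Jst par W' s β := by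
  ext c
  unfold Jst
  simp only [Set.mem_ofPred_eq]
  exact or_congr (and_congr_right fun hc => VsP_mem_rl h hc) Iff.rfl

theorem VsP_trm_congr : trm par W s = trm par W' s := by
  funext d X x y β
  unfold trm
  rw [Jst_congr h β]

theorem lst_congr (d : Data) (X : Set (List Bool)) (x : ℕ) :
    lst par W s d X x = lst par W' s d X x := by
  have h1 := VsP_trm_congr h
  unfold lst
  simp only [h1]

theorem GA_congr (j : ℕ) (d : Data) (x : ℕ) (ρ : (par s).Col → St (par s).U (par s).K) :
    GA par cc W s j d x ρ ↔ GA par cc W' s j d x ρ := by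
  unfold GA
  simp only [XP_congr (cc := cc) h, vsP_congr h]

theorem GB_congr (j : ℕ) (d : Data) (x : ℕ) (ρ : (par s).Col → St (par s).U (par s).K) :
    GB par cc W s j d x ρ ↔ GB par cc W' s j d x ρ := by
  unfold GB
  rw [XP_congr (cc := cc) h, lst_congr h]

end congr

end Pool.Agent.Lib.MP_2b5695_lc.Gv
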