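import Pool.Agent.Lib.MP_2b5695_lc.Gv.Req
import Pool.Agent.Lib.MP_2b5695_lc.Gv.VsP
import Pool.Agent.Lib.MP_2b5695_lc.Gv.Cells

/-!
Dependence of the oracle of a stage on its cells.
-/

namespace Pool.Agent.Lib.MP_2b5695_lc.Gv

variable {par : ℕ → SP} {cc : ℕ → ℕ}

theorem OneVarU_mem_Jst (W : Wld par) {s : ℕ} (β : (par s).Cel → Bool) (b : (par s).Cel) :
    (⟨s, b⟩ : Gam par) ∈ Jst par W s β ↔ β b = false := by
  unfold Jst
  constructor
  · rintro (⟨h, _⟩ | ⟨b', hb', h⟩)
    · exact absurd h (lt_irrefl _)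
    · have hbb : b = b' := by simpa using hb'
      subst hbb
      exact h
  · intro h
    exact Or.inr ⟨b, rfl, h⟩

theorem OneVarU_mem_Jst_ne (W : Wld par) {s : ℕ} (β β' : (par s).Cel → Bool) {c : Gam par}
    (hc : c.1 ≠ s) : c ∈ Jst par W s β ↔ c ∈ Jst par W s β' := by
  have key : ∀ β : (par s).Cel → Bool, c ∈ Jst par W s β ↔ (c.1 < s ∧ c ∈ rl W) := by
    intro β
    unfold Jst
    constructor
    · rintro (h | ⟨b', hb', _⟩)
      · exact h
      · exact absurd (congrArg Sigma.fst hb') hc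
    · intro h
      exact Or.inl h
  rw [key, key]

theorem OneVarU_fp (W : Wld par) (s : ℕ) (w : List Bool) : ∃ S : Finset (par s).Cel, S.card ≤ 1 ∧
    ∀ α β : (par s).Cel → Bool, (∀ v ∈ S, β v = α v) →
      (w ∈ (HW par).fp (Jst par W s β) ↔ w ∈ (HW par).fp (Jst par W s α)) := by
  rcases hw : (HW par).cell w with _ | c
  · refine ⟨∅, by simp, fun α β _ => ?_⟩
    unfold Hid.fp
    simp only [Set.mem_ofPred_eq, hw]
    simp
  · by_cases hc : c.1 = s
    · obtain ⟨s', b⟩ := c
      simp only at hc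
      subst hc
      refine ⟨{b}, by simp, fun α β h => ?_⟩
      have hb : β b = α b := h b (by simp)
      unfold Hid.fp
      simp only [Set.mem_ofPred_eq, hw, Option.some.injEq, exists_eq_left', reduceCtorEq,
        false_and, false_or]
      rw [OneVarU_mem_Jst, OneVarU_mem_Jst, hb]
    · refine ⟨∅, by simp, fun α β _ => ?_⟩
      unfold Hid.fp
      simp only [Set.mem_ofPred_eq, hw, Option.some.injEq, exists_eq_left', reduceCtorEq,
        false_and, false_or]
      rw [OneVarU_mem_Jst_ne W β α hc]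

theorem oneVar_OW (W : Wld par) (s : ℕ)
    (v₀ : (par s).Col → Option ((par s).U × Fin (4 * (par s).K))) :
    OneVar (OW par cc W s v₀) := by
  intro w
  rcases w with _ | ⟨a, w⟩
  · refine ⟨∅, by simp, fun α β _ => ?_⟩
    unfold OW
    simp
  · cases a
    · obtain ⟨S, h1, h2⟩ := OneVarU_fp W s w
      refine ⟨S, h1, fun α β h => ?_⟩
      unfold OW
      rw [false_mem_join, false_mem_join]
      exact h2 α β h
    · refine ⟨∅, by simp, fun α β _ => ?_⟩
      unfold OW
      rw [true_mem_join, true_mem_join]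

/-- the functions of level one have short certificates for the value `true` -/
theorem cert1_fam (W : Wld par) (s : ℕ) (R : Rq) (hR : SPOK (par s) R)
    (v₀ : (par s).Col → Option ((par s).U × Fin (4 * (par s).K))) :
    ∀ v ∈ nds R.ps (rLam R (par s).n) 1,
      Cert1 (rt R (par s).n) (famG (OW par cc W s v₀) R.Q R.q R.ps 1 v) := by
  intro v hv
  have hk := hR.k
  obtain ⟨S, hS1, hS2⟩ := famG_succ (OW par cc W s v₀) R.Q R.q R.ps (rLam R (par s).n) 0
    (by omega) v hv
  refine Cert1.of_exists (T := S) hS2 fun v' hv' => ?_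
  refine famG_zero R.Q R.q R.ps (rLam R (par s).n) (oneVar_OW W s v₀) ?_ v' (hS1 v' hv')
  unfold rt rS
  omega

theorem OW_congr {W W' : Wld par} {s : ℕ} (h : ∀ s' < s, W s' = W' s')
    (v₀ : (par s).Col → Option ((par s).U × Fin (4 * (par s).K))) :
    OW par cc W s v₀ = OW par cc W' s v₀ := by
  funext α
  unfold OW
  rw [XP_congr (cc := cc) h, Jst_congr h]

theorem LoseP_congr {W W' : Wld par} {s : ℕ} (h : ∀ s' < s, W s' = W' s') (R : Rq)
    (ρ : (par s).Col → St (par s).U (par s).K) (z : (par s).Col → Bool) :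
    LoseP par cc W s R ρ z ↔ LoseP par cc W' s R ρ z := by
  unfold LoseP
  rw [OW_congr (cc := cc) h, Jst_congr h]

end Pool.Agent.Lib.MP_2b5695_lc.Gv
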