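import Pool.Agent.Lib.MP_2b5695_lc.Gv.HidRun

/-!
Facts on the histories of the student.
-/

namespace Pool.Agent.Lib.MP_2b5695_lc.Gv

variable {Γ : Type} {H : Hid Γ} {d : Data} {X : Set (List Bool)} {x : ℕ} {Vis Rc : Set Γ}

private theorem clist_mem {m : ℕ} (hm : Small d x m) {J : Set Γ} {y : ℕ} (hy : y ≤ x) {idx : ℕ}
    {c : Γ} (h : (clist H d X x J y)[idx]? = some c) :
    idx < m ∧ ∃ v : List Bool, v.length < m ∧ H.cell v = some c := by
  obtain ⟨h1, h2⟩ := wlist_length (H := H) (X := X) (J := J) hm hy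
  constructor
  · have h3 : idx < (clist H d X x J y).length := by
      rw [List.getElem?_eq_some_iff] at h
      exact h.1
    have h4 : (clist H d X x J y).length ≤ (wlist H d X x J y).length := by
      rw [clist]
      exact List.length_filterMap_le _ _
    omega
  · have h3 : c ∈ clist H d X x J y := List.mem_of_getElem? h
    rw [clist, List.mem_filterMap] at h3
    obtain ⟨v, hv, hc⟩ := h3
    exact ⟨v, h1 v hv, hc⟩

private theorem reach_basic' {m : ℕ} (hm : Small d x m) {toks : List (Option ℕ)} {ws : List ℕ}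
    {o : Option ℕ} {K : List Γ} (h : Reach H d X x Vis Rc toks ws o K) :
    (toks.length ≤ K.length + 2 * ws.length ∧
      (o.isSome = true → toks.length + 1 ≤ K.length + 2 * ws.length)) ∧
      K.Nodup ∧ (∀ z ∈ ws, z ≤ x) ∧
      (∀ z, o = some z → z ≤ x ∧ ws ≠ []) ∧
      (∀ idx, some idx ∈ toks → idx < m) ∧
      (∀ c ∈ K, c ∈ Rc ∧ c ∉ Vis ∧ ∃ v : List Bool, v.length < m ∧ H.cell v = some c) := by
  induction h with
  | start => simp
  | @hit toks ws o K idx c _ hc hV hK hR ih =>
    obtain ⟨⟨h1, h1'⟩, h2, h3, h4, h5, h6⟩ := ih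
    have hcur : cur H d X x (kn Vis K) o ≤ x := by
      cases o with
      | none => exact (optT_spec (H := H) (d := d) (x := x) (X := X) (J := kn Vis K)).1
      | some z => exact (h4 z rfl).1
    obtain ⟨hi, hv⟩ := clist_mem hm hcur hc
    refine ⟨⟨?_, ?_⟩, ?_, h3, h4, ?_, ?_⟩
    · simp only [List.length_append, List.length_cons, List.length_nil]
      omega
    · intro ho
      have := h1' ho
      simp only [List.length_append, List.length_cons, List.length_nil]
      omega
    · exact List.nodup_cons.2 ⟨hK, h2⟩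
    · intro i hi'
      rw [List.mem_append, List.mem_singleton] at hi'
      rcases hi' with h | h
      · exact h5 i h
      · rw [Option.some.injEq] at h
        rw [h]; exact hi
    · intro c' hc'
      rcases List.mem_cons.1 hc' with h | h
      · rw [h]; exact ⟨hR, hV, hv⟩
      · exact h6 c' h
  | @pres toks ws K z _ hz _ ih =>
    obtain ⟨⟨h1, h1'⟩, h2, h3, h4, h5, h6⟩ := ih
    refine ⟨⟨?_, ?_⟩, h2, ?_, ?_, ?_, h6⟩
    · simp only [List.length_append, List.length_cons, List.length_nil]
      omega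
    · intro _
      simp only [List.length_append, List.length_cons, List.length_nil]
      omega
    · intro z' hz'
      rw [List.mem_append, List.mem_singleton] at hz'
      rcases hz' with h | h
      · exact h3 z' h
      · rw [h]; exact hz
    · intro z' hz'
      rw [Option.some.injEq] at hz'
      rw [← hz']
      exact ⟨hz, by simp⟩
    · intro i hi'
      rw [List.mem_append, List.mem_singleton] at hi'
      rcases hi' with h | h
      · exact h5 i h
      · cases h
  | @done toks ws K z _ _ ih =>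
    obtain ⟨⟨h1, h1'⟩, h2, h3, h4, h5, h6⟩ := ih
    refine ⟨⟨?_, ?_⟩, h2, h3, ?_, ?_, h6⟩
    · have := h1' rfl
      simp only [List.length_append, List.length_cons, List.length_nil]
      omega
    · intro h
      cases h
    · intro z' hz'
      cases hz'
    · intro i hi'
      rw [List.mem_append, List.mem_singleton] at hi'
      rcases hi' with h | h
      · exact h5 i h
      · cases h

theorem reach_basic {m : ℕ} (hm : Small d x m) {toks : List (Option ℕ)} {ws : List ℕ}
    {o : Option ℕ} {K : List Γ} (h : Reach H d X x Vis Rc toks ws o K) :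
    toks.length ≤ K.length + 2 * ws.length ∧ K.Nodup ∧ (∀ z ∈ ws, z ≤ x) ∧
      (∀ z, o = some z → z ≤ x ∧ ws ≠ []) ∧
      (∀ idx, some idx ∈ toks → idx < m) ∧
      (∀ c ∈ K, c ∈ Rc ∧ c ∉ Vis ∧ ∃ v : List Bool, v.length < m ∧ H.cell v = some c) := by
  obtain ⟨⟨h1, _⟩, h2⟩ := reach_basic' hm h
  exact ⟨h1, h2⟩

theorem reach_gen {toks : List (Option ℕ)} {ws : List ℕ} {o : Option ℕ} {K : List Γ}
    (h : Reach H d X x Vis Rc toks ws o K) (rest : List ℕ) :
    gen H d X x Vis toks (ws ++ rest) = (o, K, rest) := by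
  induction h generalizing rest with
  | start => rfl
  | @hit toks ws o K idx c _ hc _ _ _ ih =>
    have h1 := ih rest
    rw [gen] at h1 ⊢
    rw [List.foldl_append, h1]
    simp only [List.foldl_cons, List.foldl_nil, gstep]
    rw [hc]
  | @pres toks ws K z _ _ _ ih =>
    have h1 := ih (z :: rest)
    rw [gen] at h1 ⊢
    rw [List.foldl_append, List.append_assoc, List.singleton_append, h1]
    simp only [List.foldl_cons, List.foldl_nil, gstep]
  | @done toks ws K z _ _ ih =>
    have h1 := ih rest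
    rw [gen] at h1 ⊢
    rw [List.foldl_append, h1]
    simp only [List.foldl_cons, List.foldl_nil, gstep]

theorem ChG.mono {J J' : Set Γ} (hJ : J ⊆ J') : ∀ {a : ℕ},
    ChG H d X x Vis Rc a J → ChG H d X x Vis Rc a J' := by
  intro a h
  cases a with
  | zero => trivial
  | succ a =>
    obtain ⟨J₀, h1, h2, h3, z, hz, h4, h5⟩ := h
    exact ⟨J₀, h1.trans hJ, h2, h3, z, hz, h4, fun c hc hR => hJ (h5 c hc hR)⟩

theorem ChG.pred {J : Set Γ} : ∀ {a : ℕ},
    ChG H d X x Vis Rc (a + 1) J → ChG H d X x Vis Rc a J := by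
  intro a
  induction a generalizing J with
  | zero => intro _; trivial
  | succ a ih =>
    rintro ⟨J₀, h1, h2, h3, h4⟩
    exact ⟨J₀, h1, h2, ih h3, h4⟩

private theorem ChG.le {J : Set Γ} {a b : ℕ} (hab : a ≤ b)
    (h : ChG H d X x Vis Rc b J) : ChG H d X x Vis Rc a J := by
  induction b, hab using Nat.le_induction with
  | base => exact h
  | succ b _ ih => exact ih (ChG.pred h)

theorem reach_ch (hps : d.ps = []) {m : ℕ} (hm : Small d x m) (hVis : Vis ⊆ Rc)
    {toks : List (Option ℕ)} {ws : List ℕ} {o : Option ℕ} {K : List Γ}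
    (h : Reach H d X x Vis Rc toks ws o K) {R : ℕ} (hR : R + 1 ≤ ws.length) :
    ChG H d X x Vis Rc R (kn Vis K) := by
  have key : (o = none → ChG H d X x Vis Rc ws.length (kn Vis K)) ∧
      (∀ z, o = some z → ∃ a, ws.length = a + 1 ∧ ∃ J₀ : Set Γ, J₀ ⊆ kn Vis K ∧ Vis ⊆ J₀ ∧
        ChG H d X x Vis Rc a J₀ ∧ z ≤ x ∧
        valT H d X x J₀ (optT H d X x J₀) < valT H d X x Rc z) := by
    clear hR
    induction h with
    | start => exact ⟨fun _ => trivial, fun z hz => by cases hz⟩
    | @hit toks ws o K idx c _ _ _ _ _ ih =>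
      have hsub : kn Vis K ⊆ kn Vis (c :: K) := by
        rintro e (he | he)
        · exact Or.inl he
        · exact Or.inr (List.mem_cons_of_mem _ he)
      refine ⟨fun ho => ChG.mono hsub (ih.1 ho), fun z hz => ?_⟩
      obtain ⟨a, ha, J₀, h1, h2⟩ := ih.2 z hz
      exact ⟨a, ha, J₀, h1.trans hsub, h2⟩
    | @pres toks ws K z _ hz hlt ih =>
      refine ⟨fun ho => (by cases ho), fun z' hz' => ?_⟩
      rw [Option.some.injEq] at hz'
      subst hz'
      exact ⟨ws.length, by simp, kn Vis K, subset_rfl, Set.subset_union_left, ih.1 rfl, hz, hlt⟩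
    | @done toks ws K z hr hd ih =>
      refine ⟨fun _ => ?_, fun z' hz' => (by cases hz')⟩
      obtain ⟨a, ha, J₀, h1, h2, h3, h4, h5⟩ := ih.2 z rfl
      have hKR : kn Vis K ⊆ Rc := by
        rintro e (he | he)
        · exact hVis he
        · exact ((reach_basic hm hr).2.2.2.2.2 e he).1
      have hcl : clist H d X x Rc z = clist H d X x (kn Vis K) z :=
        (run_congr (H := H) hps hm h4 (X := X) (X' := X) (J := kn Vis K) (J' := Rc)
          (fun _ _ => Iff.rfl) (fun c hc => ⟨fun h => hKR h, fun h => hd c hc h⟩)).2.1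
      rw [ha]
      refine ⟨J₀, h1, h2, h3, z, h4, h5, fun c hc hcR => ?_⟩
      rw [hcl] at hc
      exact hd c hc hcR
  cases o with
  | none => exact ChG.le (by omega) (key.1 rfl)
  | some z =>
    obtain ⟨a, ha, J₀, h1, _, h3, _⟩ := key.2 z rfl
    exact ChG.le (by omega) (ChG.mono h1 h3)

end Pool.Agent.Lib.MP_2b5695_lc.Gv
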