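import Pool.Agent.Lib.MP_2b5695_lc.Gv.Events
import Pool.Agent.Lib.MP_2b5695_lc.Gv.CountST
import Pool.Agent.Lib.MP_2b5695_lc.LvKStage

/-!
The requirements and their stages.
-/

namespace Pool.Agent.Lib.MP_2b5695_lc.Gv

/-- a requirement: the machine `(P, p)` with the oracle given by `(Q, q, ps)` -/
structure Rq where
  P : Prog
  p : Polynomial ℕ
  Q : Prog
  q : Polynomial ℕ
  ps : List (Polynomial ℕ)

/-- time -/
noncomputable def rT (R : Rq) (n : ℕ) : ℕ := R.p.eval (n + 1)

/-- bound for the length of the queries -/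
noncomputable def rLam (R : Rq) (n : ℕ) : ℕ := n + 1 + rT R n

/-- bound for the sizes below a query -/
noncomputable def rS (R : Rq) (n : ℕ) : ℕ := bdl R.ps (rLam R n)

/-- size of certificates -/
noncomputable def rt (R : Rq) (n : ℕ) : ℕ :=
  R.q.eval (rS R n) + (rS R n + 1) * (R.ps.length + 1) + 3

/-- the parameters `σ` fit the requirement `R` -/
structure SPOK (σ : SP) (R : Rq) : Prop where
  k : R.ps.length = σ.k + 1
  L : rS R σ.n + R.q.eval (rS R σ.n) + rt R σ.n + 2 ≤ σ.L
  g : σ.g = (5 * σ.K + 1) * (σ.n * (σ.k + 2) + 3)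
  w : (rT R σ.n + 1) * (rT R σ.n * (rt R σ.n + 1) + 1) + rt R σ.n + 1 ≤ σ.w

section

variable (par : ℕ → SP) (cc : ℕ → ℕ)

/-- the oracle, as a function of the cells of stage `s`, if the visible part is `v₀` -/
noncomputable def OW (W : Wld par) (s : ℕ)
    (v₀ : (par s).Col → Option ((par s).U × Fin (4 * (par s).K))) (α : (par s).Cel → Bool) :
    Set (List Bool) :=
  join (XP par cc W s (par s).L v₀) ((HW par).fp (Jst par W s α))

/-- the queries of the requirement have short certificates after the restriction -/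
def SW (W : Wld par) (s : ℕ) (R : Rq) (ρ : (par s).Col → St (par s).U (par s).K) : Prop :=
  ∀ v ∈ nds R.ps (rLam R (par s).n) 1, Cert (rt R (par s).n) fun z : (par s).Col → Bool =>
    famG (OW par cc W s (vp (par s).L ρ)) R.Q R.q R.ps 1 v (Phi ρ z)

/-- the machine of the requirement loses on the input of the stage -/
def LoseP (W : Wld par) (s : ℕ) (R : Rq) (ρ : (par s).Col → St (par s).U (par s).K)
    (z : (par s).Col → Bool) : Prop :=
  ¬ Ensures R.P {v | sigE (OW par cc W s (vp (par s).L ρ) (Phi ρ z)) R.Q R.q R.ps [v]}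
    (Answers (CL ((HW par).fp (Jst par W s (Phi ρ z))) R.ps.length) id (2 ^ (par s).n))
    (fun _ v => Optimal (CL ((HW par).fp (Jst par W s (Phi ρ z))) R.ps.length) id
      (2 ^ (par s).n) (val v)) (rT R (par s).n) 0 (load [Nat.bits (2 ^ (par s).n)])

end

end Pool.Agent.Lib.MP_2b5695_lc.Gv
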