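import Pool.Agent.Lib.MP_2b5695_lc.Gv.Enc

/-!
The switching lemma with a fixed visible part.
-/

namespace Pool.Agent.Lib.MP_2b5695_lc.Gv

open Function

variable {V U : Type} [DecidableEq V] [DecidableEq U] {K : ℕ}

private theorem SwF_fstV (Ts : List (Term (V × U))) (ρ : V → St U K) :
    fstV (Ts.map fun T => (T, 0)) ρ = (first Ts ρ).map fun T => (T, 0) := by
  unfold fstV first
  rw [List.find?_map]
  rfl

private theorem SwF_sgn (hK : 0 < K) (b : Bool) (r : U) :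
    (sgn hK b r 0 : St U K) = sg b r ⟨0, hK⟩ := by
  cases b
  · simp [sgn, sg, frc]
  · simp [sgn, sg, ded]

private theorem SwF_bad (hK : 0 < K) (r₂ : ℕ) (Ts : List (Term (V × U))) :
    ∀ (k : ℕ) (T : Term (V × U)) (ρ : V → St U K), Bad Ts ⟨0, hK⟩ k T ρ →
      BadD hK r₂ (Ts.map fun T => (T, 0)) k T ρ
  | 0, _, _, _ => trivial
  | k + 1, T, ρ, h => by
    obtain ⟨T', x, π, h1, h2, h3, h4⟩ := h
    refine ⟨T', x, h2, Or.inl ⟨?_, h3, π, ?_⟩⟩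
    · rcases h1 with ⟨h1, h1'⟩ | h1
      · exact Or.inl ⟨⟨0, by rw [SwF_fstV, h1]; rfl⟩, h1'⟩
      · exact Or.inr h1
    · rw [SwF_sgn]
      exact SwF_bad hK r₂ Ts k T' _ h4

/-- the switching lemma with a fixed visible part -/
theorem switching_fiber [Fintype V] [Fintype U] (hK : 0 < K) {m κ s t : ℕ} (hm : 0 < m)
    (hκ : 0 < κ) (h1 : κ * κ ≤ K) (h2 : κ * κ * m < 4 * K) (h4 : 2 * κ * m ≤ 4 * K)
    {f : (V × U → Bool) → Prop} (hf : Cert1 s f) (vp₀ : V → Option (U × Fin (4 * K))) :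
    Nat.card {ρ : V → St U K // vp m ρ = vp₀ ∧ ¬ Cert t fun z => f (Phi ρ z)} * κ ^ t ≤
      Nat.card {ρ : V → St U K // vp m ρ = vp₀} * (6 * s) ^ t := by
  classical
  obtain ⟨Ts, hTs, hf'⟩ := exists_terms hf
  let T₀ : Term (V × U) := ⟨[], fun _ => false⟩
  have h5 := card_badD hK hm hκ h1 h2 le_rfl h4 (Ts.map fun T => (T, 0)) (s := s)
    (fun p hp => by
      obtain ⟨T, hT, rfl⟩ := List.mem_map.1 hp
      exact hTs T hT) T₀ (Nat.zero_le _) t vp₀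
  refine le_trans (Nat.mul_le_mul_right _ ?_) h5
  refine Nat.card_mono (Set.toFinite {ρ : V → St U K | vp m ρ = vp₀ ∧
    BadD hK (2 * κ * m) (Ts.map fun T => (T, 0)) t T₀ ρ}) fun ρ hρ => ?_
  refine ⟨hρ.1, SwF_bad hK _ Ts t T₀ ρ ?_⟩
  by_contra hcon
  refine hρ.2 fun z => ?_
  obtain ⟨S, hS, hS'⟩ := cert_of_not_bad hf' t T₀ ρ hcon z
  exact ⟨S, hS.le, hS'⟩

end Pool.Agent.Lib.MP_2b5695_lc.Gv
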