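import Pool.Agent.Lib.MP_2b5695_lc.Gv.WinCh
import Pool.Agent.Lib.MP_2b5695_lc.Gv.ReachFacts
import Pool.Agent.Lib.MP_2b5695_lc.Gv.Chain

/-!
The histories of the student are short.
-/

namespace Pool.Agent.Lib.MP_2b5695_lc.Gv

variable {par : ℕ → SP} {cc : ℕ → ℕ}

/-- if no history has length `F`, then all histories are shorter than `F` -/
theorem WinA_lt {Γ : Type} {H : Hid Γ} {d : Data} {X : Set (List Bool)} {x : ℕ} {Vis Rc : Set Γ}
    {F : ℕ} (hF : 0 < F)
    (hne : ∀ (toks : List (Option ℕ)) (ws : List ℕ) (o : Option ℕ) (K : List Γ),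
      Reach H d X x Vis Rc toks ws o K → toks.length ≠ F)
    {toks : List (Option ℕ)} {ws : List ℕ} {o : Option ℕ} {K : List Γ}
    (h : Reach H d X x Vis Rc toks ws o K) : toks.length < F := by
  induction h with
  | start => simpa using hF
  | @hit toks ws o K idx c h1 h2 h3 h4 h5 ih =>
    have := hne _ _ _ _ (Reach.hit h1 h2 h3 h4 h5)
    rw [List.length_append] at this ⊢
    simp only [List.length_cons, List.length_nil] at this ⊢
    omega
  | @pres toks ws K z h1 h2 h3 ih =>
    have := hne _ _ _ _ (Reach.pres h1 h2 h3)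
    rw [List.length_append] at this ⊢
    simp only [List.length_cons, List.length_nil] at this ⊢
    omega
  | @done toks ws K z h1 h2 ih =>
    have := hne _ _ _ _ (Reach.done h1 h2)
    rw [List.length_append] at this ⊢
    simp only [List.length_cons, List.length_nil] at this ⊢
    omega

theorem WinA_vs_sub (W : Wld par) (r : ℕ) : vs W r ⊆ rl W := fun _ hc => hc.1

theorem WinA_m_le (j x : ℕ) : mx j x ≤ rx cc j x := by
  show mm j (Nat.bits x) ≤ cc j + 24 * (mm j (Nat.bits x) * mm j (Nat.bits x))
  have : mm j (Nat.bits x) ≤ mm j (Nat.bits x) * mm j (Nat.bits x) := Nat.le_mul_self _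
  omega

/-- a list of cells of stage `s` -/
theorem WinA_map {s : ℕ} : ∀ K : List (Gam par), (∀ c ∈ K, c.1 = s) →
    ∃ Kf : List (par s).Cel, K = Kf.map (fun b => (⟨s, b⟩ : Gam par))
  | [], _ => ⟨[], rfl⟩
  | c :: K, h => by
    obtain ⟨Kf, hKf⟩ := WinA_map K fun c hc => h c (List.mem_cons_of_mem _ hc)
    have hc : c.1 = s := h c List.mem_cons_self
    obtain ⟨s', b⟩ := c
    dsimp only at hc
    subst hc
    exact ⟨b :: Kf, by rw [List.map_cons, ← hKf]⟩

/-- the states of a real cell -/
theorem WinA_state {V U : Type} [DecidableEq V] [DecidableEq U] {K : ℕ} (ρ : V → St U K)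
    (z : V → Bool) (b : V × U) (h : Phi ρ z b = false) :
    ρ b.1 = .inl b.2 ∨ ∃ l : Fin (4 * K), ρ b.1 = .inr (.inl (b.2, l)) := by
  unfold Phi at h
  rcases hρ : ρ b.1 with r | ⟨r, l⟩ | l
  · rw [hρ] at h
    by_cases hr : b.2 = r
    · exact Or.inl (by rw [hr])
    · simp [pv, hr] at h
  · rw [hρ] at h
    by_cases hr : b.2 = r
    · exact Or.inr ⟨l, by rw [hr]⟩
    · simp [pv, hr] at h
  · rw [hρ] at h
    simp [pv] at h

/-- in the window of a stage whose configuration is good -/
theorem win (hp : ParOK par cc) (W : Wld par) {s j : ℕ} {d : Data} {x : ℕ}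
    (hw : Win par cc s j d x) (hA : ¬ GA par cc W s j d x (W s).1)
    (hB : ¬ GB par cc W s j d x (W s).1) {toks : List (Option ℕ)} {ws : List ℕ} {o : Option ℕ}
    {K : List (Gam par)}
    (h : Reach (HW par) d (cut (rx cc j x) (brV par cc (vs W))) x (vs W (rx cc j x)) (rl W)
      toks ws o K) : toks.length < FF (mx j x) := by
  refine WinA_lt (by unfold FF; omega) ?_ h
  clear h toks ws o K
  intro toks ws o K h hlen
  obtain ⟨h1, h2, h3, h4, h5, h6⟩ := reach_basic hw.small h
  have hmr : mx j x ≤ rx cc j x := WinA_m_le j x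
  have hnr : (par s).n ≤ rx cc j x := le_trans (le_of_lt hw.h1) hmr
  -- a forced representative with a large label is visible
  have hvis : ∀ (b : (par s).Cel) (l : Fin (4 * (par s).K)),
      (W s).1 b.1 = .inr (.inl (b.2, l)) → 4 * (par s).K ≤ l.val * rx cc j x →
      (⟨s, b⟩ : Gam par) ∈ vs W (rx cc j x) := by
    intro b l hb hl
    refine ⟨?_, Or.inr ⟨hnr, l, hb, hl⟩⟩
    show Phi (W s).1 (W s).2 b = false
    unfold Phi
    rw [hb]
    simp [pv]
  by_cases hws : 3 * mx j x + 1 ≤ ws.length
  · apply hB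
    have hsub : kn (vs W (rx cc j x)) K ⊆ rl W := by
      rintro c (hc | hc)
      · exact hc.1
      · exact (h6 c hc).1
    have hch := ch_of_chG hp W hw hsub (reach_ch hw.hps hw.small (WinA_vs_sub W _) h hws)
    exact badD_of_ch (par s).hK _ (lst_sorted par) (W s).1 (W s).2 _
      (fun v u l hv hl => hvis (v, u) l hv hl) _ _ (fun c hc => hsub hc) hch _
  · apply hA
    have hst : ∀ c ∈ K, c.1 = s := by
      intro c hc
      obtain ⟨k1, k2, v, k3, k4⟩ := h6 c hc
      have k5 := win_cell hp hw k3 k4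
      by_contra hne
      exact k2 (win_vis hp W hw (lt_of_le_of_ne k5 hne) k1)
    obtain ⟨Kf, hKf⟩ := WinA_map K hst
    refine ⟨toks, ws ++ List.replicate (3 * mx j x - ws.length) 0, hlen, h5, ?_, ?_, Kf, ?_, ?_,
      ?_, ?_⟩
    · rw [List.length_append, List.length_replicate]
      omega
    · intro z hz
      rcases List.mem_append.1 hz with hz | hz
      · exact h3 z hz
      · rw [List.eq_of_mem_replicate hz]
        exact Nat.zero_le _
    · rw [← cut_brV_eq hp W hw.h2.le, ← vs_eq hp W le_rfl hw.h2, reach_gen h]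
      exact hKf
    · have e1 : Kf.length = K.length := by rw [hKf, List.length_map]
      rw [hlen] at h1
      unfold FF at h1
      omega
    · rw [hKf] at h2
      exact List.Nodup.of_map _ h2
    · intro b hb
      have hbK : (⟨s, b⟩ : Gam par) ∈ K := by
        rw [hKf]
        exact List.mem_map.2 ⟨b, hb, rfl⟩
      obtain ⟨k1, k2, -⟩ := h6 _ hbK
      rcases WinA_state (W s).1 (W s).2 b k1 with h | ⟨l, h⟩
      · exact Or.inl h
      · refine Or.inr ⟨l, h, ?_⟩
        by_contra hcon
        exact k2 (hvis b l h (not_lt.1 hcon))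

/-- outside of all windows -/
theorem nowin (hp : ParOK par cc) (W : Wld par) {j : ℕ} {d : Data} {x : ℕ} (hps : d.ps = [])
    (hm : Small d x (mx j x)) (hmr : mx j x ≤ rx cc j x)
    (hno : ∀ s, (par s).n < mx j x → (par s).L ≤ rx cc j x)
    {toks : List (Option ℕ)} {ws : List ℕ} {o : Option ℕ} {K : List (Gam par)}
    (h : Reach (HW par) d (cut (rx cc j x) (brV par cc (vs W))) x (vs W (rx cc j x)) (rl W)
      toks ws o K) : toks.length < FF (mx j x) := by
  have hvis : ∀ (c : Gam par) (v : List Bool), v.length < mx j x → cellW par v = some c →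
      c ∈ rl W → c ∈ vs W (rx cc j x) := by
    intro c v hv hc hr
    have h1 := cell_length ((cellW_eq hp).1 hc)
    exact ⟨hr, Or.inl (hno _ (by omega))⟩
  have key : toks = [] ∧ K = [] ∧ o = none := by
    induction h with
    | start => exact ⟨rfl, rfl, rfl⟩
    | @hit toks ws o K idx c k1 k2 k3 k4 k5 ih =>
      exfalso
      obtain ⟨-, -, -, -, -, h6⟩ := reach_basic hm (Reach.hit k1 k2 k3 k4 k5)
      obtain ⟨e1, e2, v, e3, e4⟩ := h6 c List.mem_cons_self
      exact e2 (hvis c v e3 e4 e1)
    | @pres toks ws K z k1 k2 k3 ih =>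
      exfalso
      obtain ⟨-, hK, -⟩ := ih
      subst hK
      have hrun := run_congr (H := HW par) (d := d) (x := x) hps hm k2
        (X := cut (rx cc j x) (brV par cc (vs W))) (X' := cut (rx cc j x) (brV par cc (vs W)))
        (J := rl W) (J' := kn (vs W (rx cc j x)) []) (fun _ _ => Iff.rfl) (fun c hc => by
          constructor
          · intro hr
            rw [clist, List.mem_filterMap] at hc
            obtain ⟨v, hv, hvc⟩ := hc
            exact Or.inl (hvis c v ((wlist_length hm k2).1 v hv) hvc hr)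
          · rintro (hr | hr)
            · exact hr.1
            · exact absurd hr (by simp))
      have h5 := hrun.2.2.2.2
      have h6 := (optT_spec (H := HW par) (d := d) (x := x)
        (X := cut (rx cc j x) (brV par cc (vs W))) (J := kn (vs W (rx cc j x)) [])).2.2 z
      omega
    | @done toks ws K z k1 k2 ih =>
      exact absurd ih.2.2 (by simp)
  rw [key.1]
  unfold FF
  simp

end Pool.Agent.Lib.MP_2b5695_lc.Gv
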