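import Pool.Agent.Lib.MP_2b5695_lc.Gv.VsP
import Pool.Agent.Lib.MP_2b5695_lc.Gv.Cells
import Pool.Agent.Lib.MP_2b5695_lc.Gv.HidRun

/-!
Chains of worlds in the window of a stage.
-/

namespace Pool.Agent.Lib.MP_2b5695_lc.Gv

variable {par : ℕ → SP} {cc : ℕ → ℕ}

/-- the bound `m` is at most the visibility `r` -/
theorem mx_le_rx (cc : ℕ → ℕ) (j x : ℕ) : mx j x ≤ rx cc j x := by
  change mm j (Nat.bits x) ≤ cc j + 24 * (mm j (Nat.bits x) * mm j (Nat.bits x))
  rcases Nat.eq_zero_or_pos (mm j (Nat.bits x)) with h | h
  · rw [h]; omega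
  · have : mm j (Nat.bits x) ≤ mm j (Nat.bits x) * mm j (Nat.bits x) :=
      Nat.le_mul_of_pos_left _ h
    omega

/-- the elements of `toSt` -/
theorem mem_toSt {s : ℕ} {l : List (Gam par)} {b : (par s).Cel} :
    b ∈ toSt par s l ↔ (⟨s, b⟩ : Gam par) ∈ l := by
  unfold toSt
  rw [List.mem_filterMap]
  constructor
  · rintro ⟨⟨s', b'⟩, h1, h2⟩
    by_cases h : s' = s
    · subst h
      rw [dif_pos rfl] at h2
      injection h2 with h2
      subst h2
      exact h1
    · rw [dif_neg h] at h2
      cases h2
  · intro h
    exact ⟨_, h, by rw [dif_pos rfl]⟩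

/-- short words ask only for cells of the stages up to `s` -/
theorem win_cell (hp : ParOK par cc) {s j : ℕ} {d : Data} {x : ℕ} (hw : Win par cc s j d x)
    {v : List Bool} {c : Gam par} (hv : v.length < mx j x) (hc : cellW par v = some c) :
    c.1 ≤ s := by
  by_contra hcs
  have h1 := cell_length ((cellW_eq hp).1 hc)
  have h2 := hp.mono (not_le.1 hcs)
  have h3 := hw.h2
  have h4 := mx_le_rx cc j x
  omega

/-- the real cells of the stages before `s` are visible -/
theorem win_vis (hp : ParOK par cc) (W : Wld par) {s j : ℕ} {d : Data} {x : ℕ}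
    (hw : Win par cc s j d x) {c : Gam par} (hc : c.1 < s) (hr : c ∈ rl W) :
    c ∈ vs W (rx cc j x) := by
  refine ⟨hr, Or.inl ?_⟩
  have h2 := hp.mono hc
  have h3 := hw.h1
  have h4 := mx_le_rx cc j x
  omega

/-- the cells asked for in the computations of `y` -/
theorem win_clist (hp : ParOK par cc) {s j : ℕ} {d : Data} {x : ℕ} (hw : Win par cc s j d x)
    {X : Set (List Bool)} {J : Set (Gam par)} {y : ℕ} (hy : y ≤ x) {c : Gam par}
    (hc : c ∈ clist (HW par) d X x J y) : c.1 ≤ s := by
  unfold clist at hc
  rw [List.mem_filterMap] at hc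
  obtain ⟨v, hv, hvc⟩ := hc
  exact win_cell hp hw ((wlist_length hw.small hy).1 v hv) hvc

theorem ch_of_chG (hp : ParOK par cc) (W : Wld par) {s j : ℕ} {d : Data} {x : ℕ}
    (hw : Win par cc s j d x) : ∀ {a : ℕ} {J : Set (Gam par)}, J ⊆ rl W →
    ChG (HW par) d (cut (rx cc j x) (brV par cc (vs W))) x (vs W (rx cc j x)) (rl W) a J →
    Ch (lst par W s d (XP par cc W s (mx j x) (vp (mx j x) (W s).1)) x)
      (Phi (W s).1 (W s).2) {b | (⟨s, b⟩ : Gam par) ∈ vs W (rx cc j x)} a
      {b | (⟨s, b⟩ : Gam par) ∈ J} := by
  have hmr := mx_le_rx cc j x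
  have hmL : mx j x ≤ (par s).L := hmr.trans hw.h2.le
  have hXm := cut_brV_eq (cc := cc) hp W hmL
  have hX : ∀ w : List Bool, w.length < mx j x →
      (w ∈ cut (rx cc j x) (brV par cc (vs W)) ↔
        w ∈ XP par cc W s (mx j x) (vp (mx j x) (W s).1)) := by
    intro w hlw
    rw [← hXm]
    exact ⟨fun h => ⟨h.1, hlw⟩, fun h => ⟨h.1, hlw.trans_le hmr⟩⟩
  intro a
  induction a with
  | zero => intro J _ _; trivial
  | succ a ih =>
    intro J hJ hC
    obtain ⟨J₀, hJ0, hV, hch, z, hz, hlt, hcl⟩ := hC
    refine ⟨{b | (⟨s, b⟩ : Gam par) ∈ J₀}, fun b hb => hJ0 hb, fun b hb => hV hb,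
      ih (hJ0.trans hJ) hch,
      valT (HW par) d (cut (rx cc j x) (brV par cc (vs W))) x J₀
        (optT (HW par) d (cut (rx cc j x) (brV par cc (vs W))) x J₀), ?_, ?_⟩
    · intro p hpl hpc
      obtain ⟨y, hy, β, rfl⟩ := (mem_lst par).1 hpl
      obtain ⟨-, -, -, -, hval⟩ := run_congr (H := HW par) (X := XP par cc W s (mx j x)
        (vp (mx j x) (W s).1)) (X' := cut (rx cc j x) (brV par cc (vs W)))
        (J := Jst par W s β) (J' := J₀) hw.hps hw.small hy (fun w hlw => (hX w hlw).symm) (by
          intro c hc
          have hcs := win_clist hp hw hy hc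
          rcases hcs.lt_or_eq with hlt' | heq
          · constructor
            · rintro (⟨-, h⟩ | ⟨b, rfl, -⟩)
              · exact hV (win_vis hp W hw hlt' h)
              · exact absurd hlt' (lt_irrefl _)
            · intro h
              exact Or.inl ⟨hlt', hJ (hJ0 h)⟩
          · obtain ⟨s', b⟩ := c
            change s' = s at heq
            subst heq
            have hb : b ∈ (trm par W s' d (XP par cc W s' (mx j x)
                (vp (mx j x) (W s').1)) x y β).1.l := mem_toSt.2 hc
            have h2 := hpc b hb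
            constructor
            · rintro (⟨h, -⟩ | ⟨b', hb', h⟩)
              · exact absurd h (lt_irrefl _)
              · have : b = b' := by
                  injection hb' with _ h3
                subst this
                exact h2.1 h
            · intro h
              exact Or.inr ⟨b, rfl, h2.2 h⟩)
      change valT (HW par) d (XP par cc W s (mx j x) (vp (mx j x) (W s).1)) x
        (Jst par W s β) y ≤ _
      rw [← hval]
      exact optT_spec.2.2 y
    · obtain ⟨-, hcc, -, -, hval⟩ := run_congr (H := HW par)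
        (X := cut (rx cc j x) (brV par cc (vs W)))
        (X' := XP par cc W s (mx j x) (vp (mx j x) (W s).1))
        (J := rl W) (J' := Jst par W s (Phi (W s).1 (W s).2)) hw.hps hw.small hz hX (by
          intro c hc
          have hcs := win_clist hp hw hz hc
          rcases hcs.lt_or_eq with hlt' | heq
          · constructor
            · intro h
              exact Or.inl ⟨hlt', h⟩
            · rintro (⟨-, h⟩ | ⟨b, rfl, -⟩)
              · exact h
              · exact absurd hlt' (lt_irrefl _)
          · obtain ⟨s', b⟩ := c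
            change s' = s at heq
            subst heq
            constructor
            · intro h
              exact Or.inr ⟨b, rfl, h⟩
            · rintro (⟨h, -⟩ | ⟨b', hb', h⟩)
              · exact absurd h (lt_irrefl _)
              · have : b = b' := by
                  injection hb' with _ h3
                subst this
                exact h)
      refine ⟨trm par W s d (XP par cc W s (mx j x) (vp (mx j x) (W s).1)) x z
        (Phi (W s).1 (W s).2), (mem_lst par).2 ⟨z, hz, _, rfl⟩, fun c _ => rfl, ?_, ?_⟩
      · intro c hc hα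
        have h1 : (⟨s, c⟩ : Gam par) ∈ clist (HW par) d
            (XP par cc W s (mx j x) (vp (mx j x) (W s).1)) x
            (Jst par W s (Phi (W s).1 (W s).2)) z := mem_toSt.1 hc
        rw [hcc] at h1
        exact hcl _ h1 hα
      · change _ < valT (HW par) d (XP par cc W s (mx j x) (vp (mx j x) (W s).1)) x
          (Jst par W s (Phi (W s).1 (W s).2)) z
        rw [hval]
        exact hlt

end Pool.Agent.Lib.MP_2b5695_lc.Gv
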