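import Pool.Agent.Lib.MP_2b5695_lc.Gv.Base
import Pool.Agent.Lib.MP_2b5695_lc.Gv.Hid
import Pool.Agent.Lib.MP_2b5695_lc.LvStage
import Pool.Agent.Lib.MP_2b5695_lc.WorldA

/-!
The world: parameters of the stages, configurations, real cells, graded visibility, the brain.
-/

namespace Pool.Agent.Lib.MP_2b5695_lc.Gv

/-- parameters of a stage; its level is `k + 1` and its input is `2 ^ n` -/
structure SP where
  /-- level minus one -/
  k : ℕ
  /-- the input of the stage is `2 ^ n` -/
  n : ℕ
  /-- number of rows -/
  w : ℕ
  /-- size of the groups -/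
  g : ℕ
  /-- number of labels -/
  K : ℕ
  /-- from length `L` on, everything is visible -/
  L : ℕ
  hw : 0 < w
  hg : 0 < g
  hK : 0 < K

/-- the type of the branches after the round -/
@[reducible] def SP.U' (σ : SP) : Type := Ut (Fin σ.w) (Fin σ.g) (σ.k - 1)

/-- the type of the branches -/
@[reducible] def SP.U (σ : SP) : Type := SP.U' σ × Fin σ.g

/-- the columns -/
@[reducible] def SP.Col (σ : SP) : Type := Nd σ.U (σ.k + 1)

/-- the cells -/
@[reducible] def SP.Cel (σ : SP) : Type := Nd σ.U (σ.k + 1) × σ.U

noncomputable instance instDecU (σ : SP) : DecidableEq σ.U := Classical.decEq _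

noncomputable instance instDecCol (σ : SP) : DecidableEq σ.Col := Classical.decEq _

instance instFinCol (σ : SP) : Finite σ.Col := Nd.finite _ _

instance instFinCel (σ : SP) : Finite σ.Cel := inferInstanceAs (Finite (σ.Col × σ.U))

/-- decoding of numbers -/
def SP.τ (σ : SP) : ℕ → σ.U := dcd σ.hw σ.hg (σ.k - 1 + 1)

/-- configuration of a stage: the restriction and the values of the columns -/
@[reducible] def Cfg (σ : SP) : Type := (σ.Col → St σ.U σ.K) × (σ.Col → Bool)

section

variable (par : ℕ → SP) (cc : ℕ → ℕ)

/-- the cells of all stages -/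
@[reducible] def Gam : Type := Σ s, (par s).Cel

/-- configurations of all stages -/
@[reducible] def Wld : Type := ∀ s, Cfg (par s)

/-- the word `v` asks for the cell `c` of stage `s` -/
def IsCell (c : Gam par) (v : List Bool) : Prop :=
  ∃ (y : ℕ) (us : List (List Bool)), us.length = (par c.1).k + 1 ∧ 0 < y ∧
    y ≤ 2 ^ (par c.1).n ∧
    v = codeW ((par c.1).k + 1) (Nat.bits (2 ^ (par c.1).n) :: Nat.bits y :: us) ∧
    c.2 = leafN (par c.1).τ ((par c.1).k + 1) (Nat.bits y :: us).reverse

open Classical in
/-- the cell asked for by a word -/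
noncomputable def cellW (v : List Bool) : Option (Gam par) :=
  if h : ∃ c : Gam par, IsCell par c v then some h.choose else none

/-- the hidden structure -/
noncomputable def HW : Hid (Gam par) := ⟨cellW par, wd Set.univ⟩

variable {par}

/-- the real cells -/
def rl (W : Wld par) : Set (Gam par) := {c | Phi (W c.1).1 (W c.1).2 c.2 = false}

/-- the cells that are visible at `r` -/
def vs (W : Wld par) (r : ℕ) : Set (Gam par) :=
  {c | c ∈ rl W ∧ ((par c.1).L ≤ r ∨ ((par c.1).n ≤ r ∧
    ∃ l : Fin (4 * (par c.1).K), (W c.1).1 c.2.1 = .inr (.inl (c.2.2, l)) ∧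
      4 * (par c.1).K ≤ l.val * r))}

variable (par)

/-- bound for the computations of task `j` -/
noncomputable def mm (j : ℕ) (x : List Bool) : ℕ :=
  match dec j with
  | some d => d.b.eval x.length
  | none => 0

/-- visibility used by the student of task `j` -/
noncomputable def tN (j : ℕ) (x _u : List Bool) : ℕ := cc j + 24 * (mm j x * mm j x)

/-- bound for the number of hits -/
def TT (m : ℕ) : ℕ := 3 * (m * m) + 9 * m + 1

/-- bound for the number of steps -/
def FF (m : ℕ) : ℕ := TT m + 6 * m + 1

open Classical in
/-- tree for task `j`; `V r` are the cells visible at `r` -/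
noncomputable def tMain (V : ℕ → Set (Gam par)) (j : ℕ) (x u : List Bool)
    (X : Set (List Bool)) : Tree :=
  match dec j with
  | some d =>
    if d.ps = [] then stud (HW par) d X (val x) (V (tN cc j x u)) (mm j x) (FF (mm j x)) none []
    else .halt false
  | none => .halt false

/-- the brain, given the visible cells -/
noncomputable def brV (V : ℕ → Set (Gam par)) : Set (List Bool) := brain (tN cc) (tMain par cc V)

/-- the oracle -/
noncomputable def ora (W : Wld par) : Set (List Bool) :=
  join (brV par cc (vs W)) ((HW par).fp (rl W))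

/-- the cells visible at `r`, if the visible part of the configuration of stage `s` is `v₀`, and
the later stages are invisible -/
def vsP (W : Wld par) (s : ℕ) (v₀ : (par s).Col → Option ((par s).U × Fin (4 * (par s).K)))
    (r : ℕ) : Set (Gam par) :=
  {c | (c.1 < s ∧ c ∈ vs W r) ∨ ∃ b : (par s).Cel, c = ⟨s, b⟩ ∧ (par s).n ≤ r ∧
    ∃ l : Fin (4 * (par s).K), v₀ b.1 = some (b.2, l) ∧ 4 * (par s).K ≤ l.val * r}

/-- the brain at lengths below `m`, given the visible part of stage `s` -/
noncomputable def XP (W : Wld par) (s m : ℕ)
    (v₀ : (par s).Col → Option ((par s).U × Fin (4 * (par s).K))) : Set (List Bool) :=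
  cut m (brV par cc (vsP par W s v₀))

/-- the world in which the real cells are those of the stages before `s` and those of stage `s`
where `β` is false -/
def Jst (W : Wld par) (s : ℕ) (β : (par s).Cel → Bool) : Set (Gam par) :=
  {c | (c.1 < s ∧ c ∈ rl W) ∨ ∃ b : (par s).Cel, c = ⟨s, b⟩ ∧ β b = false}

open Classical in
/-- the cells of stage `s` in a list -/
noncomputable def toSt (s : ℕ) (l : List (Gam par)) : List (par s).Cel :=
  l.filterMap fun c => if h : c.1 = s then some (h ▸ c.2) else none

/-- the term of the computation for `y` in the world `β` of stage `s`, with its value -/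
noncomputable def trm (W : Wld par) (s : ℕ) (d : Data) (X : Set (List Bool)) (x y : ℕ)
    (β : (par s).Cel → Bool) : Term ((par s).Col × (par s).U) × ℕ :=
  (⟨toSt par s (clist (HW par) d X x (Jst par W s β) y), β⟩,
    valT (HW par) d X x (Jst par W s β) y)

/-- sorted list of a finite set -/
theorem exists_sorted {α : Type} [Finite α] (S : Set α) (f : α → ℕ) : ∃ L : List α,
    (∀ a, a ∈ L ↔ a ∈ S) ∧ L.Pairwise fun a b => f b ≤ f a := by
  classical
  have := Fintype.ofFinite α
  refine ⟨(S.toFinite.toFinset.toList).mergeSort (fun a b => decide (f b ≤ f a)), fun a => ?_, ?_⟩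
  · rw [List.mem_mergeSort, Finset.mem_toList, Set.Finite.mem_toFinset]
  · have := List.pairwise_mergeSort (le := fun a b => decide (f b ≤ f a))
      (fun a b c h1 h2 => by simp only [decide_eq_true_eq] at *; omega)
      (fun a b => by simp only [Bool.or_eq_true, decide_eq_true_eq]; omega)
      (S.toFinite.toFinset.toList)
    exact this.imp fun h => by simpa using h

end

end Pool.Agent.Lib.MP_2b5695_lc.Gv
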